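import Pool.Agent.PP5Z.Defs
import Pool.Agent.PP5M.D3c
import Pool.Agent.PP5M.D1f
import Pool.Agent.PP5T.Cke
import Pool.Agent.PP5X.FzB

/-!
# PP5 (D'), `D(x) = 0`: the counts
-/

set_option autoImplicit false

namespace Pool.Agent.PP5Z

open Matrix Finset Pool.Agent.PP5 Pool.Agent.PP5B Pool.Agent.PP5S Pool.Agent.PP5P

/-- the coordinates of a real combination are bounded by its size -/
private theorem Ckz_wc {Cx t1 t2 T : ℝ} (hC : 1 ≤ Cx) (h1 : 1 ≤ t1) (h2 : 1 ≤ t2) {x : Fin 10 → ℤ}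
    {b : Fin 4 → PP5.Sp} {G : Matrix (Fin 4) (Fin 4) ℤ} {l : Fin 4 → ℝ}
    (h : XE Cx t1 t2 T x b G l) (u : Fin 4 → ℝ) {Y : ℝ} (hY : 0 ≤ Y)
    (hu : ∀ a, |∑ i, u i * (b i a : ℝ)| ≤ Y * PP5.sg t1 t2 a) (i : Fin 4) :
    |u i| * l i ≤ Cx * Y := by
  have a1 : 0 < t1 := by linarith
  have a2 : 0 < t2 := by linarith
  have hsg := PP5.sg_pos a1 a2
  obtain ⟨L, hL⟩ : ∃ L : ℝ, L = ∑ i, l i := ⟨_, rfl⟩
  have hL0 : 0 ≤ L := by rw [hL]; exact Finset.sum_nonneg fun i _ => (h.lp i).le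
  have key : ∀ N : ℕ, (N : ℝ) * (|u i| * l i) ≤ N * (Cx * Y) + (Cx * L + l i) := by
    intro N
    obtain ⟨n, hn⟩ : ∃ n : Fin 4 → ℤ, n = fun i => round ((N : ℝ) * u i) := ⟨_, rfl⟩
    have hr : ∀ i, |(N : ℝ) * u i - n i| ≤ 1 := by
      intro i
      rw [hn]
      exact (abs_sub_round _).trans (by norm_num)
    have hE : PP5.InE (fun a => ∑ i, n i * b i a) x := by
      rw [← PP5.emb_mem]
      have e : PP5.emb (fun a => ∑ i, n i * b i a) = ∑ i, n i • PP5.emb (b i) := by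
        rw [← PP5.emb_sum]
        congr 1
      rw [e]
      exact Submodule.sum_mem _ fun i _ => Submodule.smul_mem _ _ (PP5.emb_mem.2 (h.bE i))
    have hb : ∀ a, |((∑ i, n i * b i a : ℤ) : ℝ)| ≤ ((N : ℝ) * Y + L) * PP5.sg t1 t2 a := by
      intro a
      have e : ((∑ i, n i * b i a : ℤ) : ℝ) = (N : ℝ) * ∑ i, u i * (b i a : ℝ) -
          ∑ i, ((N : ℝ) * u i - n i) * (b i a : ℝ) := by
        push_cast
        rw [Finset.mul_sum, ← Finset.sum_sub_distrib]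
        exact Finset.sum_congr rfl fun i _ => by ring
      rw [e]
      refine (abs_sub _ _).trans ?_
      have g1 : |(N : ℝ) * ∑ i, u i * (b i a : ℝ)| ≤ N * (Y * PP5.sg t1 t2 a) := by
        rw [abs_mul, abs_of_nonneg (Nat.cast_nonneg N)]
        exact mul_le_mul_of_nonneg_left (hu a) (Nat.cast_nonneg N)
      have g2 : |∑ i, ((N : ℝ) * u i - n i) * (b i a : ℝ)| ≤ L * PP5.sg t1 t2 a := by
        refine (Finset.abs_sum_le_sum_abs _ _).trans ?_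
        rw [hL, Finset.sum_mul]
        refine Finset.sum_le_sum fun i _ => ?_
        rw [abs_mul]
        calc |(N : ℝ) * u i - n i| * |(b i a : ℝ)| ≤ 1 * (l i * PP5.sg t1 t2 a) :=
              mul_le_mul (hr i) (h.bl i a) (abs_nonneg _) zero_le_one
          _ = _ := one_mul _
      calc _ ≤ N * (Y * PP5.sg t1 t2 a) + L * PP5.sg t1 t2 a := add_le_add g1 g2
        _ = _ := by ring
    obtain ⟨n', hn', hl'⟩ := h.span _ _ hE hb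
    have e1 : n' = n := by
      have := h.ind (n' - n) (by
        intro a
        have := hn' a
        simp only [Pi.sub_apply, sub_mul, Finset.sum_sub_distrib]
        linarith)
      exact sub_eq_zero.1 this
    rw [e1] at hl'
    have g3 : (N : ℝ) * |u i| ≤ |(n i : ℝ)| + 1 := by
      have : (N : ℝ) * |u i| = |(N : ℝ) * u i| := by
        rw [abs_mul, abs_of_nonneg (Nat.cast_nonneg N : (0 : ℝ) ≤ N)]
      rw [this]
      have g4 := hr i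
      have g5 : |(N : ℝ) * u i| ≤ |(n i : ℝ)| + |(N : ℝ) * u i - n i| := by
        have := abs_add_le ((n i : ℝ)) ((N : ℝ) * u i - n i)
        have e : (n i : ℝ) + ((N : ℝ) * u i - n i) = (N : ℝ) * u i := by ring
        rw [e] at this
        exact this
      linarith
    calc (N : ℝ) * (|u i| * l i) = ((N : ℝ) * |u i|) * l i := by ring
      _ ≤ (|(n i : ℝ)| + 1) * l i := mul_le_mul_of_nonneg_right g3 (h.lp i).le
      _ = |(n i : ℝ)| * l i + l i := by ring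
      _ ≤ Cx * ((N : ℝ) * Y + L) + l i := by linarith [hl' i]
      _ = _ := by ring
  by_contra hcon
  push Not at hcon
  obtain ⟨N, hN⟩ := exists_nat_gt ((Cx * L + l i) / (|u i| * l i - Cx * Y))
  have hd : 0 < |u i| * l i - Cx * Y := by linarith
  rw [div_lt_iff₀ hd] at hN
  have := key N
  linarith

/-- size 2.  `PP5T.XD_ld` and `XD_wc` (PP5T/Xld.lean) for `XE` (no `dn`, `k1`, `kd`): the same proof. -/
theorem XE_ld0 {Cx t1 t2 T : ℝ} (hC : 1 ≤ Cx) (h1 : 1 ≤ t1) (h2 : 1 ≤ t2) {x : Fin 10 → ℤ}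
    {b : Fin 4 → PP5.Sp} {G : Matrix (Fin 4) (Fin 4) ℤ} {l : Fin 4 → ℝ} (hF : PP5L.FF x = 0)
    (h : XE Cx t1 t2 T x b G l) :
    PP5M.LD0 Cx ((t1 * t2) ^ 2) T x (fun i => PP5.emb (b i)) G l := by
  have a1 : 0 < t1 := by linarith
  have a2 : 0 < t2 := by linarith
  have hK1 : 1 ≤ (t1 * t2) ^ 2 := one_le_pow₀ (by nlinarith)
  have hK0 : 0 < (t1 * t2) ^ 2 := by linarith
  have hT := h.T0
  refine ⟨hC, hK1, hT, hF, ?_, ?_, h.lp, ?_, ?_, ?_, ?_, h.pol⟩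
  · intro j
    have := (PP5T.tx_bd h1 h2 j).1
    calc |(x j : ℝ)| ≤ T * PP5.tx t1 t2 j := h.Tle j
      _ ≤ T * (t1 * t2) ^ 2 := mul_le_mul_of_nonneg_left this hT.le
      _ = _ := mul_comm _ _
  · obtain ⟨j, hj⟩ := h.Tge
    refine ⟨j, ?_⟩
    have := (PP5T.tx_bd h1 h2 j).2
    calc T = T * 1 := (mul_one T).symm
      _ ≤ T * ((t1 * t2) ^ 2 * PP5.tx t1 t2 j) := mul_le_mul_of_nonneg_left this hT.le
      _ = (t1 * t2) ^ 2 * (T * PP5.tx t1 t2 j) := by ring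
      _ ≤ _ := mul_le_mul_of_nonneg_left hj hK0.le
  · intro i
    exact (PP5.InE_iff _ _).1 (h.bE i)
  · intro i r
    exact PP5.dot_emb _ _
  · intro i a
    have := (PP5T.sg_bd h1 h2 (PP5.ex a)).1
    have hb := h.bl i (PP5.ex a)
    show |((b i (PP5.ex a) : ℤ) : ℝ)| ≤ _
    calc |((b i (PP5.ex a) : ℤ) : ℝ)| ≤ l i * PP5.sg t1 t2 (PP5.ex a) := hb
      _ ≤ l i * (t1 * t2) ^ 2 := mul_le_mul_of_nonneg_left this (h.lp i).le
      _ = _ := mul_comm _ _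
  · intro u i
    obtain ⟨a, _, ha⟩ := Finset.exists_max_image (Finset.univ : Finset (Fin 12))
      (fun a => |∑ i, u i * (b i a : ℝ)| / PP5.sg t1 t2 a) ⟨0, Finset.mem_univ _⟩
    have hsg := PP5.sg_pos a1 a2
    have hu := Ckz_wc hC h1 h2 h u (Y := |∑ i, u i * (b i a : ℝ)| / PP5.sg t1 t2 a)
      (div_nonneg (abs_nonneg _) (hsg a).le) (fun a' => by
        have := ha a' (Finset.mem_univ _)
        rwa [div_le_iff₀ (hsg a')] at this) i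
    refine ⟨PP5.ix a, ?_⟩
    have e : ∀ i', PP5.emb (b i') (PP5.ix a) = b i' a := fun i' => PP5.emb_ix _ _
    simp only [e]
    have g1 : |∑ i, u i * (b i a : ℝ)| / PP5.sg t1 t2 a ≤ (t1 * t2) ^ 2 * |∑ i, u i * (b i a : ℝ)| := by
      rw [div_le_iff₀ (hsg a)]
      have := (PP5T.sg_bd h1 h2 a).2
      have h0 := abs_nonneg (∑ i, u i * (b i a : ℝ))
      calc |∑ i, u i * (b i a : ℝ)| = |∑ i, u i * (b i a : ℝ)| * 1 := (mul_one _).symm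
        _ ≤ |∑ i, u i * (b i a : ℝ)| * ((t1 * t2) ^ 2 * PP5.sg t1 t2 a) :=
            mul_le_mul_of_nonneg_left this h0
        _ = _ := by ring
    calc |u i| * l i ≤ Cx * (|∑ i, u i * (b i a : ℝ)| / PP5.sg t1 t2 a) := hu
      _ ≤ Cx * ((t1 * t2) ^ 2 * |∑ i, u i * (b i a : ℝ)|) := mul_le_mul_of_nonneg_left g1 (by linarith)
      _ = _ := by ring


/-- size 1.  `PP5M.D3_data` (PP5M/D3c.lean), `XE.bas`. -/
theorem XE_det {Cx t1 t2 T : ℝ} (hC : 1 ≤ Cx) (h1 : 1 ≤ t1) (h2 : 1 ≤ t2) {x : Fin 10 → ℤ}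
    {b : Fin 4 → PP5.Sp} {G : Matrix (Fin 4) (Fin 4) ℤ} {l : Fin 4 → ℝ}
    (hp : ∀ p : ℕ, p.Prime → ∃ j, ¬ (p : ℤ) ∣ x j) (hF : PP5L.FF x = 0)
    (h : XE Cx t1 t2 T x b G l) (hD : (PP5L.SS x).det = 0) : G.det = 0 := by
  have hLD := XE_ld0 hC h1 h2 hF h
  obtain ⟨B, hB⟩ := h.bas
  have hBf : (fun i => ((B i : PP5L.Lx x) : Fin 16 → ℤ)) = fun i => PP5.emb (b i) := funext hB
  rw [← hBf] at hLD
  obtain ⟨k, hk1, hkd, -⟩ := PP5M.D3_data hp B hLD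
  rw [hD] at hkd
  have hk : (k : ℤ) ^ 2 ≠ 0 := by
    have : (k : ℤ) ≠ 0 := by exact_mod_cast (by omega : k ≠ 0)
    exact pow_ne_zero _ this
  rcases mul_eq_zero.1 hkd.symm with h0 | h0
  · exact absurd h0 hk
  · exact h0

/-- size 1.  `PP5M.content_adj'` (PP5M/D1f.lean) with `n = 0`, `XE.bas`. -/
theorem XE_adj {Cx t1 t2 T : ℝ} {x : Fin 10 → ℤ}
    {b : Fin 4 → PP5.Sp} {G : Matrix (Fin 4) (Fin 4) ℤ} {l : Fin 4 → ℝ}
    (hp : ∀ p : ℕ, p.Prime → ∃ j, ¬ (p : ℤ) ∣ x j) (hF : PP5L.FF x = 0)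
    (h : XE Cx t1 t2 T x b G l) (hD : (PP5L.SS x).adjugate ≠ 0) : G.adjugate ≠ 0 := by
  obtain ⟨B, hB⟩ := h.bas
  intro h0
  apply hD
  ext i j
  have := PP5M.content_adj' hF hp B G (fun i k j => by rw [hB, hB]; exact h.pol i k j) 0
    (fun i j => by rw [h0]; simp) i j
  simpa using zero_dvd_iff.1 this

private theorem Ckz_Kpow {t : ℝ} (ht : 1 ≤ t) (s : ℝ) : (t ^ 2) ^ s = t ^ (2 * s) := by
  rw [← Real.rpow_natCast t 2, ← Real.rpow_mul (by linarith)]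
  norm_num

/-- the sizes of `x` at the scale `T` -/
private theorem Ckz_xs {Cx t1 t2 T T' : ℝ} {x : Fin 10 → ℤ} {b : Fin 4 → Fin 16 → ℤ}
    {G : Matrix (Fin 4) (Fin 4) ℤ} {l : Fin 4 → ℝ}
    (h : PP5M.LD0 Cx ((t1 * t2) ^ 2) T' x b G l) (hT : T' ≤ T) (hT2 : T ≤ 2 * T') :
    (∀ j, |(x j : ℝ)| ≤ (t1 * t2) ^ 2 * T) ∧
      ∃ j, (t1 * t2) ^ 2 * T ≤ 2 * ((t1 * t2) ^ 2) ^ 2 * |(x j : ℝ)| := by
  have hK := h.K1
  constructor
  · intro j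
    exact (h.xle j).trans (mul_le_mul_of_nonneg_left hT (by linarith))
  · obtain ⟨j, hj⟩ := h.xge
    refine ⟨j, ?_⟩
    calc (t1 * t2) ^ 2 * T ≤ (t1 * t2) ^ 2 * (2 * T') := mul_le_mul_of_nonneg_left hT2 (by linarith)
      _ ≤ (t1 * t2) ^ 2 * (2 * ((t1 * t2) ^ 2 * |(x j : ℝ)|)) :=
          mul_le_mul_of_nonneg_left (by linarith) (by linarith)
      _ = _ := by ring

/-- all `x` of the box -/
private theorem Ckz_all_x {ε : ℝ} (hε : 0 < ε) : ∃ C : ℝ, 1 ≤ C ∧ ∀ Y : ℝ, 1 ≤ Y →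
    ∀ S : Finset (Fin 10 → ℤ), (∀ x ∈ S, PP5L.FF x = 0 ∧ ∀ j, |(x j : ℝ)| ≤ Y) →
    (S.card : ℝ) ≤ C * Y ^ (8 + ε) := by
  obtain ⟨C, hC, h⟩ := PP5T.rk_card hε
  refine ⟨C, hC, fun Y hY S hS => ?_⟩
  have := h Y hY 1 one_pos (by simpa using hY) S (fun x hx => ⟨(hS x hx).2, (hS x hx).1, by
    refine ⟨fun p pp hp => ?_, fun i j k => ?_⟩
    · have h3 := Int.natCast_dvd_natCast.1 hp
      exact absurd (Nat.dvd_one.1 h3) pp.one_lt.ne'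
    · simp⟩)
  have e : (1 : ℝ) / ((1 : ℕ) : ℝ) ^ 4 = 1 := by norm_num
  rwa [e, mul_one] at this

/-- the final bookkeeping -/
private theorem Ckz_book {C K0 T Q A0 ε m : ℝ} {s : ℕ} (hC : 0 ≤ C) (hK : 1 ≤ K0) (hT : 1 ≤ T) (hQ : 1 ≤ Q)
    (hA : 1 ≤ A0) (hm : m ≤ C * (2 * K0 ^ 2) ^ s * (K0 * T) ^ (8 + ε) *
      (1 / (Q / A0) ^ 3 + 1 / (K0 * T) ^ 3)) :
    m ≤ C * 2 ^ s * (K0 ^ (2 * s) * K0 ^ (8 + ε) * A0 ^ 3) * T ^ (8 + ε) * (Q⁻¹ ^ 3 + T⁻¹ ^ 3) := by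
  have hK0 : 0 < K0 := by linarith
  have hT0 : 0 < T := by linarith
  have hQ0 : 0 < Q := by linarith
  have hA3 : 1 ≤ A0 ^ 3 := one_le_pow₀ hA
  have e1 : 1 / (Q / A0) ^ 3 = A0 ^ 3 * Q⁻¹ ^ 3 := by
    rw [div_pow, inv_pow]
    field_simp
  have e2 : 1 / (K0 * T) ^ 3 ≤ A0 ^ 3 * T⁻¹ ^ 3 := by
    have g1 : 1 / (K0 * T) ^ 3 ≤ 1 / T ^ 3 := one_div_le_one_div_of_le (by positivity)
      (pow_le_pow_left₀ hT0.le (by nlinarith) 3)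
    have g2 : 1 / T ^ 3 = T⁻¹ ^ 3 := by rw [inv_pow, one_div]
    have g3 : 0 ≤ T⁻¹ ^ 3 := by positivity
    nlinarith
  have e3 : (K0 * T) ^ (8 + ε) = K0 ^ (8 + ε) * T ^ (8 + ε) := Real.mul_rpow hK0.le hT0.le
  refine hm.trans ?_
  calc C * (2 * K0 ^ 2) ^ s * (K0 * T) ^ (8 + ε) * (1 / (Q / A0) ^ 3 + 1 / (K0 * T) ^ 3)
      ≤ C * (2 * K0 ^ 2) ^ s * (K0 * T) ^ (8 + ε) * (A0 ^ 3 * Q⁻¹ ^ 3 + A0 ^ 3 * T⁻¹ ^ 3) :=
        mul_le_mul_of_nonneg_left (by linarith) (by positivity)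
    _ = _ := by rw [e3, mul_pow, ← pow_mul]; ring

/-- the trivial case -/
private theorem Ckz_triv {C K0 T Q A0 ε m : ℝ} (s : ℕ) (hC : 0 ≤ C) (hK : 1 ≤ K0) (hT : 1 ≤ T) (hQ : 1 ≤ Q)
    (hQA : Q < A0) (hm : m ≤ C * (K0 * T) ^ (8 + ε)) :
    m ≤ C * 2 ^ s * (K0 ^ (2 * s) * K0 ^ (8 + ε) * A0 ^ 3) * T ^ (8 + ε) * (Q⁻¹ ^ 3 + T⁻¹ ^ 3) := by
  have hK0 : 0 < K0 := by linarith
  have hT0 : 0 < T := by linarith
  have hQ0 : 0 < Q := by linarith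
  have e3 : (K0 * T) ^ (8 + ε) = K0 ^ (8 + ε) * T ^ (8 + ε) := Real.mul_rpow hK0.le hT0.le
  have g1 : 1 ≤ A0 ^ 3 * (Q⁻¹ ^ 3 + T⁻¹ ^ 3) := by
    have g2 : 1 ≤ A0 ^ 3 * Q⁻¹ ^ 3 := by
      rw [← mul_pow]
      apply one_le_pow₀
      rw [← div_eq_mul_inv, one_le_div hQ0]
      exact hQA.le
    have g3 : 0 ≤ A0 ^ 3 * T⁻¹ ^ 3 := by
      have : 0 < A0 := by linarith
      positivity
    rw [mul_add]
    linarith
  have g4 : (1 : ℝ) ≤ 2 ^ s * K0 ^ (2 * s) := by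
    have a1 : (1 : ℝ) ≤ 2 ^ s := one_le_pow₀ (by norm_num)
    have a2 : (1 : ℝ) ≤ K0 ^ (2 * s) := one_le_pow₀ hK
    nlinarith
  refine hm.trans ?_
  rw [e3]
  calc C * (K0 ^ (8 + ε) * T ^ (8 + ε)) = C * (K0 ^ (8 + ε) * T ^ (8 + ε)) * (1 * 1) := by ring
    _ ≤ C * (K0 ^ (8 + ε) * T ^ (8 + ε)) * ((2 ^ s * K0 ^ (2 * s)) * (A0 ^ 3 * (Q⁻¹ ^ 3 + T⁻¹ ^ 3))) :=
        mul_le_mul_of_nonneg_left (mul_le_mul g4 g1 zero_le_one (by positivity)) (by positivity)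
    _ = _ := by ring

/-- size 3.  As `PP5T.ck` (PP5T/Cke.lean): the index `k` and the minors from `PP5M.D3_data`. -/
theorem ckz (Cx : ℝ) (hCx : 1 ≤ Cx) : CKz Cx := by
  classical
  intro ε hε
  obtain ⟨C1, hC1, h1⟩ := PP5T.ck_count hε
  obtain ⟨C2, hC2, h2⟩ := Ckz_all_x hε
  refine ⟨2 * (172 + ε), (C1 + C2) * 2 ^ 64 * 10 ^ 60, by positivity, by
    have : (1 : ℝ) ≤ C1 + C2 := by linarith
    linarith, fun t1 t2 T Q ht1 ht2 hT hQ S hS => ?_⟩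
  have ht : 1 ≤ t1 * t2 := by nlinarith
  obtain ⟨K0, hK0d⟩ : ∃ K0 : ℝ, K0 = (t1 * t2) ^ 2 := ⟨_, rfl⟩
  have hK1 : 1 ≤ K0 := by rw [hK0d]; exact one_le_pow₀ ht
  have hK0 : 0 < K0 := by linarith
  have hQ0 : 0 < Q := by linarith
  have hT0 : 0 < T := by linarith
  have hY : 1 ≤ K0 * T := by nlinarith
  obtain ⟨A0, hA0⟩ : ∃ A0 : ℝ, A0 = 10 ^ 20 * K0 ^ 12 := ⟨_, rfl⟩
  have hK12 : 1 ≤ K0 ^ 12 := one_le_pow₀ hK1
  have hA1 : 1 ≤ A0 := by rw [hA0]; linarith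
  have hA00 : 0 < A0 := by linarith
  -- the sizes
  have hx : ∀ x ∈ S, PP5L.FF x = 0 ∧ (∀ j, |(x j : ℝ)| ≤ K0 * T) ∧
      (∃ j, K0 * T ≤ 2 * K0 ^ 2 * |(x j : ℝ)|) ∧
      ∃ n : ℕ, 0 < n ∧ PP5K.RK n x ∧ PP5T.Mn x ((n : ℝ) / (Q / A0) * (K0 * T) ^ 4) := by
    intro x hx
    obtain ⟨hpr, hff, T', b, G, l, hXD, hTT, hTT2, hl⟩ := hS x hx
    have hLD := XE_ld0 hCx ht1 ht2 hff hXD
    obtain ⟨s1, s2⟩ := Ckz_xs hLD hTT hTT2
    rw [← hK0d] at s1 s2 hLD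
    obtain ⟨B, hB⟩ := hXD.bas
    have hBf : (fun i => ((B i : PP5L.Lx x) : Fin 16 → ℤ)) = fun i => PP5.emb (b i) := funext hB
    rw [← hBf] at hLD
    obtain ⟨k, hk1, -, hRK, hmin, -⟩ := PP5M.D3_data hpr B hLD
    refine ⟨hff, s1, s2, k, hk1, hRK, ?_⟩
    intro c
    have g1 := hmin c
    refine g1.trans ?_
    have hk0 : (0 : ℝ) ≤ k := Nat.cast_nonneg k
    have g2 : (∏ i, l i) ≤ T' ^ 4 / Q := by
      rw [le_div_iff₀ hQ0]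
      linarith
    have hT'0 := hXD.T0
    have g3 : T' ^ 4 ≤ (K0 * T) ^ 4 := pow_le_pow_left₀ hT'0.le (by nlinarith) 4
    calc 10 ^ 20 * K0 ^ 12 * (k * ∏ i, l i) ≤ 10 ^ 20 * K0 ^ 12 * (k * (T' ^ 4 / Q)) :=
          mul_le_mul_of_nonneg_left (mul_le_mul_of_nonneg_left g2 hk0) (by positivity)
      _ ≤ 10 ^ 20 * K0 ^ 12 * (k * ((K0 * T) ^ 4 / Q)) :=
          mul_le_mul_of_nonneg_left (mul_le_mul_of_nonneg_left
            (div_le_div_of_nonneg_right g3 hQ0.le) hk0) (by positivity)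
      _ = _ := by rw [← hA0]; field_simp
  have hfin : (S.card : ℝ) ≤ (C1 + C2) * 2 ^ 64 * (K0 ^ (2 * 64) * K0 ^ (8 + ε) * A0 ^ 3) * T ^ (8 + ε) *
      (Q⁻¹ ^ 3 + T⁻¹ ^ 3) := by
    by_cases hQA : Q < A0
    · refine Ckz_triv 64 (by linarith) hK1 hT hQ hQA ?_
      refine (h2 (K0 * T) hY S (fun x h => ⟨(hx x h).1, (hx x h).2.1⟩)).trans ?_
      exact mul_le_mul_of_nonneg_right (by linarith) (by positivity)
    · push Not at hQA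
      refine Ckz_book (by linarith) hK1 hT hQ hA1 ?_
      refine (h1 (K0 * T) (2 * K0 ^ 2) (Q / A0) hY (by nlinarith) (by rwa [one_le_div hA00]) S hx).trans ?_
      refine mul_le_mul_of_nonneg_right (mul_le_mul_of_nonneg_right
        (mul_le_mul_of_nonneg_right (by linarith) (by positivity)) (by positivity)) (by positivity)
  refine hfin.trans (le_of_eq ?_)
  have e1 : K0 ^ (2 * 64) * K0 ^ (8 + ε) * A0 ^ 3 = 10 ^ 60 * (t1 * t2) ^ (2 * (172 + ε)) := by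
    rw [← Ckz_Kpow ht, ← hK0d, hA0, show (172 + ε : ℝ) = (8 + ε) + 164 by ring, Real.rpow_add hK0 (8 + ε) 164]
    have : K0 ^ (164 : ℝ) = K0 ^ 164 := by rw [← Real.rpow_natCast K0 164]; norm_num
    rw [this]
    ring
  rw [e1]
  simp only
  ring

/-- size 3.  As `PP5T.ca`: `PP5M.content2'` and `PP5M.mnS0_le` (PP5M/L3.lean). -/
theorem caz (Cx : ℝ) (hCx : 1 ≤ Cx) : CAz Cx := by
  classical
  intro ε hε
  obtain ⟨C1, hC1, h1⟩ := PP5T.ca_count hε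
  obtain ⟨C2, hC2, h2⟩ := Ckz_all_x hε
  have hCx48 : 1 ≤ Cx ^ 48 := one_le_pow₀ hCx
  refine ⟨2 * (216 + ε), (C1 + C2) * 2 ^ 8 * (10 ^ 120 * Cx ^ 48), by positivity, by
    have : (1 : ℝ) ≤ C1 + C2 := by linarith
    nlinarith, fun t1 t2 T Q ht1 ht2 hT hQ S hS => ?_⟩
  have ht : 1 ≤ t1 * t2 := by nlinarith
  obtain ⟨K0, hK0d⟩ : ∃ K0 : ℝ, K0 = (t1 * t2) ^ 2 := ⟨_, rfl⟩
  have hK1 : 1 ≤ K0 := by rw [hK0d]; exact one_le_pow₀ ht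
  have hK0 : 0 < K0 := by linarith
  have hQ0 : 0 < Q := by linarith
  have hT0 : 0 < T := by linarith
  have hY : 1 ≤ K0 * T := by nlinarith
  obtain ⟨A0, hA0⟩ : ∃ A0 : ℝ, A0 = 10 ^ 40 * (Cx * K0 ^ 4) ^ 16 := ⟨_, rfl⟩
  have hK4 : 1 ≤ (Cx * K0 ^ 4) ^ 16 := one_le_pow₀ (by
    have : 1 ≤ K0 ^ 4 := one_le_pow₀ hK1
    nlinarith)
  have hA1 : 1 ≤ A0 := by rw [hA0]; linarith
  have hA00 : 0 < A0 := by linarith
  -- the sizes
  have hx : ∀ x ∈ S, PP5L.FF x = 0 ∧ (∀ j, |(x j : ℝ)| ≤ K0 * T) ∧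
      (∃ j, K0 * T ≤ 2 * K0 ^ 2 * |(x j : ℝ)|) ∧ (∀ p : ℕ, p.Prime → ∃ j, ¬ (p : ℤ) ∣ x j) ∧
      ∃ n : ℕ, 0 < n ∧ (∀ i j k l, (n : ℤ) ∣ PP5L.SS x i k * PP5L.SS x j l - PP5L.SS x i l * PP5L.SS x j k) ∧
      ∀ i i' j j', |((PP5L.SS x i j * PP5L.SS x i' j' - PP5L.SS x i j' * PP5L.SS x i' j : ℤ) : ℝ)| ≤
        (n : ℝ) / (Q / A0) * (K0 * T) ^ 2 := by
    intro x hx
    obtain ⟨hpr, hff, T', b, G, l, hXD, hTT, hTT2, p, hp0, hp, hQp⟩ := hS x hx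
    have hLD := XE_ld0 hCx ht1 ht2 hff hXD
    obtain ⟨s1, s2⟩ := Ckz_xs hLD hTT hTT2
    rw [← hK0d] at s1 s2 hLD
    have hn0 : (0 : ℝ) < (PP5N.mi2 G : ℝ) := lt_of_lt_of_le (by positivity) hQp
    refine ⟨hff, s1, s2, hpr, PP5N.mi2 G, by exact_mod_cast hn0, ?_, ?_⟩
    · obtain ⟨B, hB⟩ := hXD.bas
      intro i j k' l'
      refine PP5M.content2' hff hpr B G (fun i k j => ?_) _ ?_ i j k' l'
      · rw [hB, hB]
        exact hXD.pol i k j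
      · intro i j k l
        exact PP5N.mi2_dvd G i j k l
    · intro i i' j j'
      have g1 := PP5M.mnS0_le hLD (p := p) (fun i i' k k' => by
        have := hp i i' k k'
        have e : PP5M.mr G i i' k k' = mr G i i' k k' := rfl
        rw [e]
        calc _ ≤ _ := this
          _ = _ := by ring) i i' j j'
      have e : PP5M.mr (PP5L.SS x) i i' j j' = PP5L.SS x i j * PP5L.SS x i' j' - PP5L.SS x i j' * PP5L.SS x i' j := rfl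
      rw [e] at g1
      refine g1.trans ?_
      have hT'0 := hXD.T0
      have g3 : T' ^ 2 ≤ (K0 * T) ^ 2 := pow_le_pow_left₀ hT'0.le (by nlinarith) 2
      have g4 : p ≤ (PP5N.mi2 G : ℝ) / Q := by
        rw [le_div_iff₀ hQ0]
        linarith
      calc 10 ^ 40 * (Cx * K0 ^ 4) ^ 16 * p * T' ^ 2
          ≤ 10 ^ 40 * (Cx * K0 ^ 4) ^ 16 * ((PP5N.mi2 G : ℝ) / Q) * (K0 * T) ^ 2 :=
            mul_le_mul (mul_le_mul_of_nonneg_left g4 (by positivity)) g3 (by positivity) (by positivity)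
        _ = _ := by rw [← hA0]; field_simp
  have hfin : (S.card : ℝ) ≤ (C1 + C2) * 2 ^ 8 * (K0 ^ (2 * 8) * K0 ^ (8 + ε) * A0 ^ 3) * T ^ (8 + ε) *
      (Q⁻¹ ^ 3 + T⁻¹ ^ 3) := by
    by_cases hQA : Q < A0
    · refine Ckz_triv 8 (by linarith) hK1 hT hQ hQA ?_
      refine (h2 (K0 * T) hY S (fun x h => ⟨(hx x h).1, (hx x h).2.1⟩)).trans ?_
      exact mul_le_mul_of_nonneg_right (by linarith) (by positivity)
    · push Not at hQA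
      refine Ckz_book (by linarith) hK1 hT hQ hA1 ?_
      refine (h1 (K0 * T) (2 * K0 ^ 2) (Q / A0) hY (by nlinarith) (by rwa [one_le_div hA00]) S hx).trans ?_
      refine mul_le_mul_of_nonneg_right (mul_le_mul_of_nonneg_right
        (mul_le_mul_of_nonneg_right (by linarith) (by positivity)) (by positivity)) (by positivity)
  refine hfin.trans (le_of_eq ?_)
  have e1 : K0 ^ (2 * 8) * K0 ^ (8 + ε) * A0 ^ 3 = 10 ^ 120 * Cx ^ 48 * (t1 * t2) ^ (2 * (216 + ε)) := by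
    rw [← Ckz_Kpow ht, ← hK0d, hA0, show (216 + ε : ℝ) = (8 + ε) + 208 by ring, Real.rpow_add hK0 (8 + ε) 208]
    have : K0 ^ (208 : ℝ) = K0 ^ 208 := by rw [← Real.rpow_natCast K0 208]; norm_num
    rw [this]
    ring
  rw [e1]
  simp only
  ring

/-- size 2.  `PP5X.fz_count` with `f = 1` (see `PP5P.cs` in PP5X/Ces.lean). -/
theorem cdz (Cx : ℝ) (hCx : 1 ≤ Cx) : CDz Cx := by
  classical
  intro ε hε
  obtain ⟨C, hC, hc⟩ := PP5X.fz_count hε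
  have he : (0 : ℝ) < 15 / 2 + ε := by positivity
  have h2 : (1 : ℝ) ≤ 2 ^ (15 / 2 + ε) := Real.one_le_rpow (by norm_num) he.le
  refine ⟨2 * (15 / 2 + ε), (C + 1) * 2 ^ (15 / 2 + ε), by positivity, by nlinarith,
    fun t1 t2 T Q ht1 ht2 hT hQ S hS => ?_⟩
  have ht : 1 ≤ t1 * t2 := by nlinarith
  obtain ⟨K0, hK0d⟩ : ∃ K0 : ℝ, K0 = (t1 * t2) ^ 2 := ⟨_, rfl⟩
  have hK1 : 1 ≤ K0 := by rw [hK0d]; exact one_le_pow₀ ht
  have hK0 : 0 < K0 := by linarith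
  have hT0 : 0 < T := by linarith
  have hY : 1 ≤ K0 * T := by nlinarith
  obtain ⟨N, hN⟩ : ∃ N : ℕ, N = ⌈K0 * T⌉₊ := ⟨_, rfl⟩
  have hN1 : K0 * T ≤ N := by rw [hN]; exact Nat.le_ceil _
  have hN2 : (N : ℝ) ≤ 2 * (K0 * T) := by
    rw [hN]
    have := Nat.ceil_lt_add_one (by linarith : 0 ≤ K0 * T)
    linarith
  have hN3 : 1 ≤ N := by
    have : (1 : ℝ) ≤ N := hY.trans hN1
    exact_mod_cast this
  have h := hc 1 N S hN3 one_ne_zero (fun x hx => by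
    obtain ⟨hpr, hff, T', b, G, l, hXD, hTT, hTT2, hl⟩ := hS x hx
    have hLD := XE_ld0 hCx ht1 ht2 hff hXD
    obtain ⟨s1, s2⟩ := Ckz_xs hLD hTT hTT2
    rw [← hK0d] at s1
    refine ⟨fun j => ?_, hff, ?_⟩
    · have := (s1 j).trans hN1
      exact_mod_cast this
    · rw [hl, mul_zero]
      exact ⟨0, by simp⟩)
  rw [Int.cast_one, abs_one, Real.one_rpow, mul_one] at h
  refine h.trans ?_
  have g1 : (N : ℝ) ^ (15 / 2 + ε) ≤ (2 * (K0 * T)) ^ (15 / 2 + ε) :=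
    Real.rpow_le_rpow (Nat.cast_nonneg N) hN2 he.le
  have g2 : (2 * (K0 * T)) ^ (15 / 2 + ε) = 2 ^ (15 / 2 + ε) * (K0 ^ (15 / 2 + ε) * T ^ (15 / 2 + ε)) := by
    rw [Real.mul_rpow (by norm_num) (by positivity), Real.mul_rpow hK0.le hT0.le]
  have g3 : T ^ (8 + ε) * T ^ (-(1 / 2) : ℝ) = T ^ (15 / 2 + ε) := by
    rw [← Real.rpow_add hT0]
    congr 1
    ring
  have g4 : (t1 * t2) ^ (2 * (15 / 2 + ε)) = K0 ^ (15 / 2 + ε) := by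
    rw [hK0d, Ckz_Kpow ht]
  have g5 : 0 ≤ K0 ^ (15 / 2 + ε) * T ^ (15 / 2 + ε) := by positivity
  simp only
  rw [mul_assoc ((C + 1) * 2 ^ (15 / 2 + ε) * (t1 * t2) ^ (2 * (15 / 2 + ε))), g3, g4]
  calc C * (N : ℝ) ^ (15 / 2 + ε) ≤ C * (2 ^ (15 / 2 + ε) * (K0 ^ (15 / 2 + ε) * T ^ (15 / 2 + ε))) :=
        mul_le_mul_of_nonneg_left (g1.trans g2.le) hC.le
    _ ≤ (C + 1) * (2 ^ (15 / 2 + ε) * (K0 ^ (15 / 2 + ε) * T ^ (15 / 2 + ε))) :=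
        mul_le_mul_of_nonneg_right (by linarith) (by positivity)
    _ = _ := by ring

end Pool.Agent.PP5Z
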