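import Pool.Agent.PP5Z.DefsA
import Pool.Agent.PP5S.Xe
import Pool.Agent.PP5S.DPh
import Pool.Agent.PP5N.Defs
import Pool.Agent.PP5P.Zb
import Pool.Agent.PP5P.Po

/-!
# PP5 (D'), `D(x) = 0` (HZ): definitions

For `x` with `D(x) = 0` the Gram matrix `G` has rank `3`; `v0` is its primitive radical.
-/

set_option autoImplicit false

namespace Pool.Agent.PP5Z

open Matrix Finset Pool.Agent.PP5 Pool.Agent.PP5B Pool.Agent.PP5S Pool.Agent.PP5P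

/-- `x` (with `D(x) = 0` or not) has data at the scale `T` with the property `Φ` -/
def Xatz (Cx t1 t2 T : ℝ)
    (Φ : ℝ → (Fin 10 → ℤ) → Matrix (Fin 4) (Fin 4) ℤ → (Fin 4 → ℝ) → Prop)
    (x : Fin 10 → ℤ) : Prop :=
  (∀ p : ℕ, p.Prime → ∃ j, ¬ (p : ℤ) ∣ x j) ∧ PP5L.FF x = 0 ∧
  ∃ (T' : ℝ) (b : Fin 4 → PP5.Sp) (G : Matrix (Fin 4) (Fin 4) ℤ) (l : Fin 4 → ℝ),
    XE Cx t1 t2 T' x b G l ∧ T' ≤ T ∧ T ≤ 2 * T' ∧ Φ T' x G l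

/-- a count: at most `C (t1 t2)^a T^(8+ε) f(T,Q)` vectors `x` with the property `Φ Q` at the scale `T` -/
def Cntz (Cx : ℝ) (f : ℝ → ℝ → ℝ)
    (Φ : ℝ → ℝ → (Fin 10 → ℤ) → Matrix (Fin 4) (Fin 4) ℤ → (Fin 4 → ℝ) → Prop) : Prop :=
  ∀ ε : ℝ, 0 < ε → ∃ a C : ℝ, 0 ≤ a ∧ 1 ≤ C ∧ ∀ t1 t2 T Q : ℝ, 1 ≤ t1 → 1 ≤ t2 → 1 ≤ T → 1 ≤ Q →
    ∀ S : Finset (Fin 10 → ℤ), (∀ x ∈ S, Xatz Cx t1 t2 T (Φ Q) x) →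
    (S.card : ℝ) ≤ C * (t1 * t2) ^ a * T ^ (8 + ε) * f T Q

/-- `T^4 / ∏ l ≥ Q` -/
def CKz (Cx : ℝ) : Prop := Cntz Cx (fun T Q => Q⁻¹ ^ 3 + T⁻¹ ^ 3)
  (fun Q T' _ _ l => Q * ∏ i, l i ≤ T' ^ 4)

/-- content of the minors over their real size `≥ Q` -/
def CAz (Cx : ℝ) : Prop := Cntz Cx (fun T Q => Q⁻¹ ^ 3 + T⁻¹ ^ 3)
  (fun Q T' _ G l => ∃ p : ℝ, 0 < p ∧ (∀ i j a b, |((mr G i j a b : ℤ) : ℝ)| * T' ^ 2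
    ≤ p * (l i * l j * l a * l b)) ∧ Q * p ≤ (PP5N.mi2 G : ℝ))

/-- `D(x) = 0` -/
def CDz (Cx : ℝ) : Prop := Cntz Cx (fun T _ => T ^ (-(1 / 2) : ℝ))
  (fun _ _ x _ _ => (PP5L.SS x).det = 0)

end Pool.Agent.PP5Z
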