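import Pool.Agent.PP5P.Pa
import Pool.Agent.PP5P.Fm

/-!
# PP5 (D'), `D(x) = 0` (HZ): definitions, the frame

For `x` with `D(x) = 0` the Gram matrix `G` has rank `3`; `v0` is its primitive radical.
-/

set_option autoImplicit false

namespace Pool.Agent.PP5Z

open Matrix Finset Pool.Agent.PP5 Pool.Agent.PP5B Pool.Agent.PP5P

/-- the frame of a primitive vector `v0`: a reduced basis `b` of `v0^⊥` with a dual basis `e` modulo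
`v0` (`f0 · v0 = 1`) -/
structure Fr (C : ℝ) (l : Fin 4 → ℝ) (ν : ℝ) (v0 : Fin 4 → ℤ) (b : Fin 3 → Fin 4 → ℤ)
    (f0 : Fin 4 → ℤ) (e : Fin 3 → Fin 4 → ℤ) : Prop where
  pb : PB C l ν v0 b
  up : ∀ i, |(v0 i : ℝ)| * l i ≤ ν
  at' : ∃ i, |(v0 i : ℝ)| * l i = ν
  f0v : f0 ⬝ᵥ v0 = 1
  be : ∀ i j, b i ⬝ᵥ e j = if i = j then 1 else 0
  dec : ∀ v : Fin 4 → ℤ, v = ∑ i, (b i ⬝ᵥ v) • e i + (f0 ⬝ᵥ v) • v0

/-- the ternary form of `G` on `Z^4 / v0` -/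
def Qe (G : Matrix (Fin 4) (Fin 4) ℤ) (e : Fin 3 → Fin 4 → ℤ) : Matrix (Fin 3) (Fin 3) ℤ :=
  Matrix.of fun a c => e a ⬝ᵥ (G *ᵥ e c)

/-- the weights `1 / nw (b a)` -/
noncomputable def rr (l : Fin 4 → ℝ) (b : Fin 3 → Fin 4 → ℤ) : Fin 3 → ℝ := fun a => 1 / nw l (b a)

/-- primitive vectors of `Z^3` -/
def Pr3 (z : Fin 3 → ℤ) : Prop := ∀ p : ℕ, p.Prime → ∃ j, ¬ (p : ℤ) ∣ z j

/-- the number of primitive zeros of `Q` of height at most `h` is at most `B (1 + β h)`, for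
all `h ≤ hm` -/
def Nz (Q : Matrix (Fin 3) (Fin 3) ℤ) (r : Fin 3 → ℝ) (hm B β : ℝ) : Prop :=
  ∀ h : ℝ, 0 < h → h ≤ hm → ∀ S : Finset (Fin 3 → ℤ),
    (∀ z ∈ S, Pr3 z ∧ z ⬝ᵥ (Q *ᵥ z) = 0 ∧ ∀ i, |(z i : ℝ)| * r i ≤ h) → (S.card : ℝ) ≤ B * (1 + β * h)

end Pool.Agent.PP5Z
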