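import Pool.Agent.PP5Z.DefsA

/-!
# PP5 (D'), `D(x) = 0`: content and discriminant of a ternary form
-/

set_option autoImplicit false

namespace Pool.Agent.PP5Z

open Matrix Finset

private lemma Dsc_dvd {Q : Matrix (Fin 3) (Fin 3) ℤ} {n : ℕ}
    (hn : ∀ i j, (n : ℤ) ∣ Q.adjugate i j) : (n : ℤ) ^ 3 ∣ Q.det ^ 2 := by
  have h1 : Q.adjugate.det = Q.det ^ 2 := by
    rw [Matrix.det_adjugate, Fintype.card_fin]
  rw [← h1]
  choose M hM using hn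
  have h2 : Q.adjugate = (n : ℤ) • Matrix.of M := by
    ext i j
    simp [hM i j]
  rw [h2, Matrix.det_smul, Fintype.card_fin]
  exact Dvd.intro _ rfl

/-- size 3.  Let `n` be the gcd of the entries of `adj Q`, `c` the gcd of the entries of `Q` (both `≥ 1`).  `adj (adj Q) = det Q • Q` (`Matrix.adjugate_adjugate` for
`Fin 3`, `card - 2 = 1`), and the entries of `adj (adj Q)` are `2 x 2` minors of `adj Q`, so `n^2 ∣ det Q * Q i j` for all `i, j`, hence `n^2 ∣ det Q * c`,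
`n^2 ≤ |det Q| c`.  `c^2` divides the entries of `adj Q`, so `c^2 ∣ n`, `c^2 ≤ n`.  So `n^4 ≤ (det Q)^2 c^2 ≤ (det Q)^2 n`. -/
theorem ter_cont {Q : Matrix (Fin 3) (Fin 3) ℤ} (hd : Q.det ≠ 0) {n : ℕ}
    (hn : ∀ i j, (n : ℤ) ∣ Q.adjugate i j) (hn' : ∀ m : ℕ, (∀ i j, (m : ℤ) ∣ Q.adjugate i j) → m ∣ n) :
    (n : ℤ) ^ 3 ≤ Q.det ^ 2 :=
  Int.le_of_dvd (by positivity) (Dsc_dvd hn)

private lemma Dsc_prod {a b c r0 r1 r2 s0 s1 s2 β : ℝ} (h0 : |a| * r0 * s0 ≤ β)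
    (h1 : |b| * r1 * s1 ≤ β) (h2 : |c| * r2 * s2 ≤ β) (hr0 : 0 < r0) (hr1 : 0 < r1) (hr2 : 0 < r2)
    (hs0 : 0 < s0) (hs1 : 0 < s1) (hs2 : 0 < s2) :
    |a * b * c| * ((r0 * s0) * (r1 * s1) * (r2 * s2)) ≤ β ^ 3 := by
  have e : |a * b * c| * ((r0 * s0) * (r1 * s1) * (r2 * s2)) =
      (|a| * r0 * s0) * (|b| * r1 * s1) * (|c| * r2 * s2) := by
    rw [abs_mul, abs_mul]; ring
  have hb0 : 0 ≤ β := le_trans (by positivity) h0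
  rw [e]
  calc (|a| * r0 * s0) * (|b| * r1 * s1) * (|c| * r2 * s2) ≤ β * β * β := by
        apply mul_le_mul (mul_le_mul h0 h1 (by positivity) hb0) h2 (by positivity) (by positivity)
    _ = β ^ 3 := by ring

/-- size 2.  `det (adj Q) = (det Q)^2`; the matrix `(adj Q i j * r i * r j)` has determinant `(det Q)^2 (∏ r)^2` and entries `≤ β`, so `(det Q)^2 (∏ r)^2 ≤ 6 β^3`. -/
theorem ter_disc {Q : Matrix (Fin 3) (Fin 3) ℤ} (hd : Q.det ≠ 0) {n : ℕ}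
    (hn : ∀ i j, (n : ℤ) ∣ Q.adjugate i j) (hn' : ∀ m : ℕ, (∀ i j, (m : ℤ) ∣ Q.adjugate i j) → m ∣ n)
    {r : Fin 3 → ℝ} (hr : ∀ i, 0 < r i) {β : ℝ}
    (hβ : ∀ i j, |((Q.adjugate i j : ℤ) : ℝ)| * r i * r j ≤ β) :
    (n : ℝ) ^ 3 * (r 0 * r 1 * r 2) ^ 2 ≤ 6 * β ^ 3 := by
  have h1 : (n : ℤ) ^ 3 ≤ Q.adjugate.det := by
    have h2 : Q.adjugate.det = Q.det ^ 2 := by
      rw [Matrix.det_adjugate, Fintype.card_fin]
    rw [h2]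
    exact ter_cont hd hn hn'
  generalize Q.adjugate = A at h1 hβ
  have h3 : ((n : ℤ) : ℝ) ^ 3 ≤ ((A.det : ℤ) : ℝ) := by exact_mod_cast h1
  rw [Int.cast_natCast] at h3
  rw [Matrix.det_fin_three] at h3
  push_cast at h3
  have hr0 := hr 0
  have hr1 := hr 1
  have hr2 := hr 2
  have t1 := Dsc_prod (hβ 0 0) (hβ 1 1) (hβ 2 2) hr0 hr1 hr2 hr0 hr1 hr2
  have t2 := Dsc_prod (hβ 0 0) (hβ 1 2) (hβ 2 1) hr0 hr1 hr2 hr0 hr2 hr1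
  have t3 := Dsc_prod (hβ 0 1) (hβ 1 0) (hβ 2 2) hr0 hr1 hr2 hr1 hr0 hr2
  have t4 := Dsc_prod (hβ 0 1) (hβ 1 2) (hβ 2 0) hr0 hr1 hr2 hr1 hr2 hr0
  have t5 := Dsc_prod (hβ 0 2) (hβ 1 0) (hβ 2 1) hr0 hr1 hr2 hr2 hr0 hr1
  have t6 := Dsc_prod (hβ 0 2) (hβ 1 1) (hβ 2 0) hr0 hr1 hr2 hr2 hr1 hr0
  have hR : 0 ≤ (r 0 * r 1 * r 2) ^ 2 := by positivity
  have e1 : (r 0 * r 0) * (r 1 * r 1) * (r 2 * r 2) = (r 0 * r 1 * r 2) ^ 2 := by ring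
  have e2 : (r 0 * r 0) * (r 1 * r 2) * (r 2 * r 1) = (r 0 * r 1 * r 2) ^ 2 := by ring
  have e3 : (r 0 * r 1) * (r 1 * r 0) * (r 2 * r 2) = (r 0 * r 1 * r 2) ^ 2 := by ring
  have e4 : (r 0 * r 1) * (r 1 * r 2) * (r 2 * r 0) = (r 0 * r 1 * r 2) ^ 2 := by ring
  have e5 : (r 0 * r 2) * (r 1 * r 0) * (r 2 * r 1) = (r 0 * r 1 * r 2) ^ 2 := by ring
  have e6 : (r 0 * r 2) * (r 1 * r 1) * (r 2 * r 0) = (r 0 * r 1 * r 2) ^ 2 := by ring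
  rw [e1] at t1
  rw [e2] at t2
  rw [e3] at t3
  rw [e4] at t4
  rw [e5] at t5
  rw [e6] at t6
  generalize (r 0 * r 1 * r 2) ^ 2 = R at *
  have u : ∀ x : ℝ, x * R ≤ |x| * R := fun x => mul_le_mul_of_nonneg_right (le_abs_self x) hR
  have u' : ∀ x : ℝ, -(x * R) ≤ |x| * R := fun x => by
    rw [← neg_mul]; exact mul_le_mul_of_nonneg_right (neg_le_abs x) hR
  have a1 := (u _).trans t1
  have a2 := (u' _).trans t2
  have a3 := (u' _).trans t3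
  have a4 := (u _).trans t4
  have a5 := (u _).trans t5
  have a6 := (u' _).trans t6
  have h4 := mul_le_mul_of_nonneg_right h3 hR
  linarith

end Pool.Agent.PP5Z
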