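import Pool.Agent.PP5Z.Frb

/-!
# PP5 (D'), `D(x) = 0`: the fibres of `v ↦ z(v)`, and the sum
-/

set_option autoImplicit false

namespace Pool.Agent.PP5Z

open Matrix Finset Pool.Agent.PP5 Pool.Agent.PP5B Pool.Agent.PP5P

variable {C ν : ℝ} {l : Fin 4 → ℝ} {v0 f0 : Fin 4 → ℤ} {b e : Fin 3 → Fin 4 → ℤ}
  {G : Matrix (Fin 4) (Fin 4) ℤ}

private lemma Fib_dec (F : Fr C l ν v0 b f0 e) {v : Fin 4 → ℤ} {g : ℤ} {z : Fin 3 → ℤ}
    (hz : ∀ a, b a ⬝ᵥ v = g * z a) : v = g • (∑ a, z a • e a) + (f0 ⬝ᵥ v) • v0 := by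
  have h := F.dec v
  rw [Finset.smul_sum]
  conv_lhs => rw [h]
  congr 1
  refine Finset.sum_congr rfl fun a _ => ?_
  rw [hz a, mul_smul]

private lemma Fib_bu (F : Fr C l ν v0 b f0 e) (z : Fin 3 → ℤ) (a : Fin 3) :
    b a ⬝ᵥ (∑ c, z c • e c) = z a := by
  rw [dotProduct_sum]
  simp only [dotProduct_smul, F.be, smul_eq_mul]
  simp

private lemma Fib_sym (hG : ∀ i j, G i j = G j i) (h0 : G *ᵥ v0 = 0) (u : Fin 4 → ℤ) :
    v0 ⬝ᵥ (G *ᵥ u) = 0 := by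
  have hT : Gᵀ = G := by ext i j; exact hG j i
  rw [Matrix.dotProduct_mulVec, ← Matrix.mulVec_transpose, hT, h0, zero_dotProduct]

/-- size 3.  Let `v` be primitive, with `(b a · v)_a = g • z`, `z` primitive, `g ≥ 1`; `t := f0 · v`.  `F.dec`: `v = g • ∑ z a • e a + t • v0`; `gcd(g, t) = 1` since
`v` is primitive; `g β - t α = 1` (Bezout); `w := α • ∑ z a • e a + β • v0`: `v i * w j - v j * w i = (∑ z a • e a) i * v0 j - (∑ z a • e a) j * v0 i`, and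
`w · G w = 0`, `v · G w = 0` since `G v0 = 0` and `(∑ z a e a) · G (∑ z a e a) = 0` (from `v · G v = 0 = g^2 ..`). -/
theorem ni_w (hG : ∀ i j, G i j = G j i) (F : Fr C l ν v0 b f0 e) (h0 : G *ᵥ v0 = 0)
    {v : Fin 4 → ℤ} (hv : Pr4 v) (hq : v ⬝ᵥ (G *ᵥ v) = 0) {g : ℤ} (hg : 1 ≤ g) {z : Fin 3 → ℤ}
    (hz : ∀ a, b a ⬝ᵥ v = g * z a) (hz0 : z ≠ 0) : ∃ w : Fin 4 → ℤ, w ⬝ᵥ (G *ᵥ w) = 0 ∧ v ⬝ᵥ (G *ᵥ w) = 0 ∧
      (∃ i j, v i * w j ≠ v j * w i) ∧
      ∀ i j, v i * w j - v j * w i = v0 j * (∑ a, z a • e a) i - v0 i * (∑ a, z a • e a) j := by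
  have hd := Fib_dec F hz
  have hbu := Fib_bu F z
  have hsy := Fib_sym hG h0
  obtain ⟨u, hu⟩ : ∃ u, u = ∑ a, z a • e a := ⟨_, rfl⟩
  obtain ⟨t, ht⟩ : ∃ t, t = f0 ⬝ᵥ v := ⟨_, rfl⟩
  rw [← hu] at hd hbu ⊢
  rw [← ht] at hd
  have hco : IsCoprime g t := by
    rw [Int.isCoprime_iff_gcd_eq_one]
    by_contra hne
    obtain ⟨p, hp, hpd⟩ := Nat.exists_prime_and_dvd hne
    have h1 : (p : ℤ) ∣ g := (Int.natCast_dvd_natCast.mpr hpd).trans (Int.gcd_dvd_left ..)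
    have h2 : (p : ℤ) ∣ t := (Int.natCast_dvd_natCast.mpr hpd).trans (Int.gcd_dvd_right ..)
    apply hv p hp
    intro i
    rw [hd]
    simp only [Pi.add_apply, Pi.smul_apply, smul_eq_mul]
    exact dvd_add (h1.mul_right _) (h2.mul_right _)
  obtain ⟨α', β', hab⟩ := hco
  have hGu : ∀ s r : ℤ, G *ᵥ (s • u + r • v0) = s • (G *ᵥ u) := by
    intro s r
    rw [Matrix.mulVec_add, Matrix.mulVec_smul, Matrix.mulVec_smul, h0, smul_zero, add_zero]
  have huu : u ⬝ᵥ (G *ᵥ u) = 0 := by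
    have h1 : v ⬝ᵥ (G *ᵥ v) = g ^ 2 * (u ⬝ᵥ (G *ᵥ u)) := by
      rw [hd, hGu, add_dotProduct, smul_dotProduct, smul_dotProduct, dotProduct_smul,
        dotProduct_smul, hsy u]
      simp only [smul_eq_mul]
      ring
    rw [hq] at h1
    have hg0 : g ^ 2 ≠ 0 := pow_ne_zero 2 (by omega)
    exact (mul_eq_zero.mp h1.symm).resolve_left hg0
  have hdot : ∀ s r s' r' : ℤ, (s • u + r • v0) ⬝ᵥ (G *ᵥ (s' • u + r' • v0)) = 0 := by
    intro s r s' r'
    rw [hGu, add_dotProduct, smul_dotProduct, smul_dotProduct, dotProduct_smul,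
      dotProduct_smul, hsy u, huu]
    simp
  have hw : ∀ i j, v i * ((-β') • u + α' • v0) j - v j * ((-β') • u + α' • v0) i =
      v0 j * u i - v0 i * u j := by
    intro i j
    rw [hd]
    simp only [Pi.add_apply, Pi.smul_apply, smul_eq_mul]
    have : α' * g + β' * t = 1 := hab
    linear_combination (v0 j * u i - v0 i * u j) * this
  refine ⟨(-β') • u + α' • v0, hdot _ _ _ _, ?_, ?_, hw⟩
  · rw [hd]
    exact hdot _ _ _ _
  · by_contra hne
    push_neg at hne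
    apply hz0
    have h3 : ∀ i j, v0 j * u i = v0 i * u j := by
      intro i j
      have := hw i j
      rw [hne i j, sub_self] at this
      linarith
    funext a
    have h4 : ∀ j, z a * v0 j = 0 := by
      intro j
      have h5 : b a ⬝ᵥ (v0 j • u) = b a ⬝ᵥ (u j • v0) := by
        congr 1
        funext i
        simp only [Pi.smul_apply, smul_eq_mul]
        rw [h3 i j]; ring
      rw [dotProduct_smul, dotProduct_smul, hbu a, F.pb.orth a] at h5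
      simp only [smul_eq_mul, mul_zero] at h5
      linarith
    by_contra hza
    have h6 : v0 = 0 := by
      funext j
      exact (mul_eq_zero.mp (h4 j)).resolve_left hza
    have h7 := F.f0v
    rw [h6, dotProduct_zero] at h7
    exact zero_ne_one h7

private lemma Fib_int (T : Finset ℤ) {D : ℝ} (hD : 0 ≤ D)
    (h : ∀ s ∈ T, ∀ t ∈ T, |((s - t : ℤ) : ℝ)| ≤ D) : T.card ≤ ⌊D⌋₊ + 1 := by
  rcases T.eq_empty_or_nonempty with he | hne
  · rw [he]; simp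
  · have hsub : T ⊆ Finset.Icc (T.min' hne) (T.min' hne + (⌊D⌋₊ : ℤ)) := by
      intro t ht
      rw [Finset.mem_Icc]
      refine ⟨T.min'_le t ht, ?_⟩
      have h1 := h t ht _ (T.min'_mem hne)
      have h2 : (((t - T.min' hne).toNat : ℕ) : ℝ) ≤ D := by
        have h3 : 0 ≤ t - T.min' hne := sub_nonneg.mpr (T.min'_le t ht)
        have h4 : (((t - T.min' hne).toNat : ℕ) : ℝ) = ((t - T.min' hne : ℤ) : ℝ) := by
          exact_mod_cast Int.toNat_of_nonneg h3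
        rw [h4]
        exact (le_abs_self _).trans h1
      have h5 := Nat.le_floor h2
      have h6 := Int.self_le_toNat (t - T.min' hne)
      have h7 : (((t - T.min' hne).toNat : ℕ) : ℤ) ≤ (⌊D⌋₊ : ℤ) := by exact_mod_cast h5
      linarith
    have h1 := Finset.card_le_card hsub
    rw [Int.card_Icc] at h1
    have h2 : (T.min' hne + (⌊D⌋₊ : ℤ) + 1 - T.min' hne).toNat = ⌊D⌋₊ + 1 := by
      rw [show T.min' hne + (⌊D⌋₊ : ℤ) + 1 - T.min' hne = ((⌊D⌋₊ + 1 : ℕ) : ℤ) by push_cast; ring]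
      exact Int.toNat_natCast _
    rw [h2] at h1
    exact h1

/-- size 3.  The fibre: `z` fixed with `h0 ≤ |z a| * rr a` for one `a`; the vectors `v` of `V` have `(b a · v)_a = g • z`, `g ≥ 1`.  `v ↦ (g, f0 · v)` is injective (`F.dec`);
`z_le` (PP5Z/Frb): `g * h0 ≤ 4 H`, so at most `4 H / h0` values of `g`; for a fixed `g` two vectors differ by `(t - t') • v0`: with `i` as in `F.at'`
`|t - t'| ν ≤ 2 H`, so at most `1 + 2 H / ν` values of `t` for one `g` (all `t` lie in an interval of length `2 H / ν`: take one element of the class), and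
`1 + 2 H / ν ≤ (K + 2) H / ν` by `ν ≤ K H`. -/
theorem fib_card (F : Fr C l ν v0 b f0 e) (hl : ∀ i, 0 < l i) (hν : 0 < ν) {H K h0 : ℝ} (hH : 0 < H)
    (hK : ν ≤ K * H) (hh : 0 < h0) {z : Fin 3 → ℤ} (hz : ∃ a, h0 ≤ |(z a : ℝ)| * rr l b a)
    (V : Finset (Fin 4 → ℤ)) (hV : ∀ v ∈ V, (∀ i, |(v i : ℝ)| * l i ≤ H) ∧
      ∃ g : ℤ, 1 ≤ g ∧ ∀ a, b a ⬝ᵥ v = g * z a) :
    (V.card : ℝ) ≤ 4 * (K + 2) * H ^ 2 / (ν * h0) := by
  classical
  obtain ⟨a, ha⟩ := hz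
  have hV2 : ∀ v, ∃ g : ℤ, v ∈ V → 1 ≤ g ∧ ∀ a, b a ⬝ᵥ v = g * z a := by
    intro v
    by_cases hv : v ∈ V
    · obtain ⟨g, hg⟩ := (hV v hv).2
      exact ⟨g, fun _ => hg⟩
    · exact ⟨0, fun h => absurd h hv⟩
  choose γ hγ using hV2
  have hD : 0 ≤ 2 * H / ν := by positivity
  have hfib : ∀ g ∈ V.image γ, (V.filter fun v => γ v = g).card ≤ ⌊2 * H / ν⌋₊ + 1 := by
    intro g _
    have hinj : Set.InjOn (fun v => f0 ⬝ᵥ v) ((V.filter fun v => γ v = g : Finset _) : Set (Fin 4 → ℤ)) := by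
      intro v hv v' hv' hvv
      simp only [Finset.coe_filter, Set.mem_setOf_eq] at hv hv'
      have h1 := Fib_dec F (hγ v hv.1).2
      have h2 := Fib_dec F (hγ v' hv'.1).2
      simp only at hvv
      rw [h1, h2, hv.2, hv'.2, hvv]
    rw [← Finset.card_image_of_injOn hinj]
    apply Fib_int _ hD
    intro s hs t ht
    rw [Finset.mem_image] at hs ht
    obtain ⟨v, hv, rfl⟩ := hs
    obtain ⟨v', hv', rfl⟩ := ht
    rw [Finset.mem_filter] at hv hv'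
    have h1 := Fib_dec F (hγ v hv.1).2
    have h2 := Fib_dec F (hγ v' hv'.1).2
    rw [hv.2] at h1
    rw [hv'.2] at h2
    obtain ⟨i, hi⟩ := F.at'
    have h3 : v i - v' i = (f0 ⬝ᵥ v - f0 ⬝ᵥ v') * v0 i := by
      have e1 := congrFun h1 i
      have e2 := congrFun h2 i
      simp only [Pi.add_apply, Pi.smul_apply, smul_eq_mul] at e1 e2
      linear_combination e1 - e2
    have h4 : |((f0 ⬝ᵥ v - f0 ⬝ᵥ v' : ℤ) : ℝ)| * ν ≤ 2 * H := by
      have h5 : ((v i : ℝ) - (v' i : ℝ)) = ((f0 ⬝ᵥ v - f0 ⬝ᵥ v' : ℤ) : ℝ) * (v0 i : ℝ) := by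
        exact_mod_cast h3
      rw [← hi]
      calc |((f0 ⬝ᵥ v - f0 ⬝ᵥ v' : ℤ) : ℝ)| * (|(v0 i : ℝ)| * l i)
          = |(v i : ℝ) - (v' i : ℝ)| * l i := by rw [h5, abs_mul]; ring
        _ ≤ (|(v i : ℝ)| + |(v' i : ℝ)|) * l i :=
            mul_le_mul_of_nonneg_right (abs_sub _ _) (hl i).le
        _ = |(v i : ℝ)| * l i + |(v' i : ℝ)| * l i := by ring
        _ ≤ 2 * H := by
            have := (hV v hv.1).1 i
            have := (hV v' hv'.1).1 i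
            linarith
    rw [le_div_iff₀ hν]
    exact h4
  have himg : V.image γ ⊆ Finset.Icc 1 (⌊4 * H / h0⌋) := by
    intro g hg
    rw [Finset.mem_image] at hg
    obtain ⟨v, hv, rfl⟩ := hg
    rw [Finset.mem_Icc]
    refine ⟨(hγ v hv).1, ?_⟩
    rw [Int.le_floor, le_div_iff₀ hh]
    have h1 := z_le F hl (hV v hv).1 a
    rw [(hγ v hv).2 a] at h1
    push_cast at h1
    rw [abs_mul] at h1
    have h2 : (1 : ℝ) ≤ (γ v : ℝ) := by exact_mod_cast (hγ v hv).1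
    rw [abs_of_pos (by linarith : (0 : ℝ) < (γ v : ℝ)), mul_assoc] at h1
    calc (γ v : ℝ) * h0 ≤ (γ v : ℝ) * (|(z a : ℝ)| * rr l b a) :=
          mul_le_mul_of_nonneg_left ha (by linarith)
      _ ≤ 4 * H := h1
  have hcard := Finset.card_le_mul_card_image V (⌊2 * H / ν⌋₊ + 1) hfib
  have hc2 : ((V.image γ).card : ℝ) ≤ 4 * H / h0 := by
    have h1 := Finset.card_le_card himg
    rw [Int.card_Icc] at h1
    have h2 : (⌊4 * H / h0⌋ + 1 - 1).toNat = ⌊4 * H / h0⌋₊ := by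
      rw [add_sub_cancel_right]; rfl
    rw [h2] at h1
    calc ((V.image γ).card : ℝ) ≤ (⌊4 * H / h0⌋₊ : ℝ) := by exact_mod_cast h1
      _ ≤ 4 * H / h0 := Nat.floor_le (by positivity)
  have hc1 : ((⌊2 * H / ν⌋₊ + 1 : ℕ) : ℝ) ≤ (K + 2) * H / ν := by
    push_cast
    have h1 := Nat.floor_le hD
    have h2 : 1 ≤ K * H / ν := by rw [le_div_iff₀ hν]; linarith
    have h3 : (K + 2) * H / ν = K * H / ν + 2 * H / ν := by ring
    rw [h3]
    linarith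
  calc (V.card : ℝ) ≤ ((⌊2 * H / ν⌋₊ + 1 : ℕ) : ℝ) * ((V.image γ).card : ℝ) := by
        exact_mod_cast hcard
    _ ≤ ((K + 2) * H / ν) * (4 * H / h0) :=
        mul_le_mul hc1 hc2 (Nat.cast_nonneg _) (le_trans (Nat.cast_nonneg _) hc1)
    _ = 4 * (K + 2) * H ^ 2 / (ν * h0) := by
        field_simp

private lemma Fib_geo (n : ℕ) : ∑ j ∈ Finset.range n, ((1 / 2 : ℝ)) ^ j ≤ 2 := by
  have h : ∀ n : ℕ, ∑ j ∈ Finset.range n, ((1 / 2 : ℝ)) ^ j = 2 - 2 * (1 / 2) ^ n := by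
    intro n
    induction n with
    | zero => simp
    | succ n ih => rw [Finset.sum_range_succ, ih, pow_succ]; ring
  rw [h]
  have : (0 : ℝ) < (1 / 2) ^ n := by positivity
  linarith

/-- size 3.  Dyadic sum: `Z` finite, `φ : α → ℝ` with values in `[h0, hm]`, at most `B (1 + β h)` elements with `φ ≤ h` for `h ≤ 2 hm`; then the sum of `1 / φ`.
Classes `2^j h0 ≤ φ < 2^(j+1) h0`, `0 ≤ j ≤ J`, `J = ⌊logb 2 (hm / h0)⌋`: at most `B (1 + β 2^(j+1) h0)` elements, each with `1/φ ≤ 1 / (2^j h0)`. -/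
theorem dya_sum {α : Type*} (Z : Finset α) (φ : α → ℝ) {h0 hm B β : ℝ} (hh : 0 < h0) (hm0 : h0 ≤ hm)
    (hB : 0 ≤ B) (hβ : 0 ≤ β) (hφ : ∀ z ∈ Z, h0 ≤ φ z ∧ φ z ≤ hm)
    (hN : ∀ h : ℝ, 0 < h → h ≤ 2 * hm → ((Z.filter fun z => φ z ≤ h).card : ℝ) ≤ B * (1 + β * h)) :
    ∑ z ∈ Z, 1 / φ z ≤ B * (2 / h0 + 2 * β * (Real.logb 2 (hm / h0) + 1)) := by
  classical
  have hL : 1 ≤ hm / h0 := by rw [le_div_iff₀ hh]; linarith
  have hL0 : 0 ≤ Real.logb 2 (hm / h0) := Real.logb_nonneg (by norm_num) hL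
  obtain ⟨J, hJ⟩ : ∃ J, J = ⌊Real.logb 2 (hm / h0)⌋₊ := ⟨_, rfl⟩
  have hJr : (J : ℝ) ≤ Real.logb 2 (hm / h0) := by rw [hJ]; exact Nat.floor_le hL0
  have hp : ∀ j ∈ Finset.range (J + 1), (2 : ℝ) ^ j * h0 ≤ hm := by
    intro j hj
    rw [Finset.mem_range] at hj
    have h1 : (j : ℝ) ≤ Real.logb 2 (hm / h0) := by
      have : (j : ℝ) ≤ J := by exact_mod_cast Nat.lt_succ_iff.mp hj
      linarith
    have h2 : (2 : ℝ) ^ (j : ℝ) ≤ hm / h0 := by
      rw [← Real.le_logb_iff_rpow_le (by norm_num) (by linarith)]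
      exact h1
    rw [Real.rpow_natCast] at h2
    rwa [le_div_iff₀ hh] at h2
  have h1 : ∑ z ∈ Z, 1 / φ z ≤ ∑ z ∈ Z, ∑ j ∈ Finset.range (J + 1),
      (if φ z ≤ 2 ^ (j + 1) * h0 then 1 / (2 ^ j * h0) else 0) := by
    apply Finset.sum_le_sum
    intro z hz
    obtain ⟨hz1, hz2⟩ := hφ z hz
    have hz3 : 1 ≤ φ z / h0 := by rw [le_div_iff₀ hh]; linarith
    obtain ⟨j, hj1, hj2⟩ := exists_nat_pow_near hz3 (by norm_num : (1 : ℝ) < 2)
    have hj1' : (2 : ℝ) ^ j * h0 ≤ φ z := by rwa [le_div_iff₀ hh] at hj1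
    have hj2' : φ z ≤ 2 ^ (j + 1) * h0 := by
      rw [div_lt_iff₀ hh] at hj2; exact hj2.le
    have hjJ : j ∈ Finset.range (J + 1) := by
      rw [Finset.mem_range, Nat.lt_succ_iff, hJ]
      apply Nat.le_floor
      rw [Real.le_logb_iff_rpow_le (by norm_num) (by linarith), Real.rpow_natCast,
        le_div_iff₀ hh]
      linarith
    have h3 : (if φ z ≤ 2 ^ (j + 1) * h0 then 1 / ((2 : ℝ) ^ j * h0) else 0) ≤
        ∑ j ∈ Finset.range (J + 1), (if φ z ≤ 2 ^ (j + 1) * h0 then 1 / ((2 : ℝ) ^ j * h0) else 0) :=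
      Finset.single_le_sum (f := fun j => if φ z ≤ 2 ^ (j + 1) * h0 then 1 / ((2 : ℝ) ^ j * h0) else 0)
        (fun i _ => by
          show 0 ≤ (if φ z ≤ 2 ^ (i + 1) * h0 then 1 / ((2 : ℝ) ^ i * h0) else 0)
          split_ifs
          · positivity
          · exact le_refl _) hjJ
    rw [if_pos hj2'] at h3
    refine le_trans ?_ h3
    exact one_div_le_one_div_of_le (by positivity) hj1'
  rw [Finset.sum_comm] at h1
  have h2 : ∀ j ∈ Finset.range (J + 1), ∑ z ∈ Z, (if φ z ≤ 2 ^ (j + 1) * h0 then 1 / ((2 : ℝ) ^ j * h0) else 0)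
      ≤ B * ((1 / h0) * (1 / 2) ^ j + 2 * β) := by
    intro j hj
    have hpj := hp j hj
    rw [← Finset.sum_filter, Finset.sum_const, nsmul_eq_mul]
    have h3 := hN (2 ^ (j + 1) * h0) (by positivity) (by rw [pow_succ]; linarith)
    calc ((Z.filter fun z => φ z ≤ 2 ^ (j + 1) * h0).card : ℝ) * (1 / (2 ^ j * h0))
        ≤ (B * (1 + β * (2 ^ (j + 1) * h0))) * (1 / (2 ^ j * h0)) :=
          mul_le_mul_of_nonneg_right h3 (by positivity)
      _ = B * ((1 / h0) * (1 / 2) ^ j + 2 * β) := by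
          rw [pow_succ, _root_.one_div_pow]
          field_simp
  have h3 := Finset.sum_le_sum h2
  calc ∑ z ∈ Z, 1 / φ z ≤ _ := h1
    _ ≤ ∑ j ∈ Finset.range (J + 1), B * ((1 / h0) * (1 / 2) ^ j + 2 * β) := h3
    _ = B * ((1 / h0) * (∑ j ∈ Finset.range (J + 1), (1 / 2) ^ j) + (J + 1) * (2 * β)) := by
        rw [← Finset.mul_sum, Finset.sum_add_distrib, ← Finset.mul_sum, Finset.sum_const,
          Finset.card_range, nsmul_eq_mul]
        push_cast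
        ring
    _ ≤ B * (2 / h0 + 2 * β * (Real.logb 2 (hm / h0) + 1)) := by
        apply mul_le_mul_of_nonneg_left _ hB
        have h4 := Fib_geo (J + 1)
        have h5 : (1 / h0) * (∑ j ∈ Finset.range (J + 1), (1 / 2 : ℝ) ^ j) ≤ (1 / h0) * 2 :=
          mul_le_mul_of_nonneg_left h4 (by positivity)
        have h6 : (1 / h0) * 2 = 2 / h0 := by ring
        have h7 : ((J : ℝ) + 1) * (2 * β) ≤ 2 * β * (Real.logb 2 (hm / h0) + 1) := by nlinarith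
        linarith

end Pool.Agent.PP5Z
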