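import Pool.Agent.PP5Z.DefsA

/-!
# PP5 (D'), `D(x) = 0`: the frame, real bounds
-/

set_option autoImplicit false

namespace Pool.Agent.PP5Z

open Matrix Finset Pool.Agent.PP5 Pool.Agent.PP5B Pool.Agent.PP5P

variable {C ν : ℝ} {l : Fin 4 → ℝ} {v0 f0 : Fin 4 → ℤ} {b e : Fin 3 → Fin 4 → ℤ}
  {G : Matrix (Fin 4) (Fin 4) ℤ}

private theorem Frb_nw_pos (F : Fr C l ν v0 b f0 e) (hl : ∀ i, 0 < l i) (a : Fin 3) :
    0 < nw l (b a) := nw_pos hl (F.pb.ne a)

private theorem Frb_rr_pos (F : Fr C l ν v0 b f0 e) (hl : ∀ i, 0 < l i) (a : Fin 3) :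
    0 < rr l b a := one_div_pos.mpr (Frb_nw_pos F hl a)

private theorem Frb_nu_nonneg (F : Fr C l ν v0 b f0 e) (hl : ∀ i, 0 < l i) : 0 ≤ ν := by
  obtain ⟨i, hi⟩ := F.at'
  rw [← hi]
  exact mul_nonneg (abs_nonneg _) (hl i).le

/-- size 2.  `|b a i| ≤ nw (b a) * l i`. -/
theorem z_le (F : Fr C l ν v0 b f0 e) (hl : ∀ i, 0 < l i) {v : Fin 4 → ℤ} {H : ℝ}
    (hv : ∀ i, |(v i : ℝ)| * l i ≤ H) (a : Fin 3) : |((b a ⬝ᵥ v : ℤ) : ℝ)| * rr l b a ≤ 4 * H := by
  have hp := Frb_nw_pos F hl a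
  have h1 := abs_dot_le l (b a) v (nw l (b a)) H hp.le (fun i => le_nw hl (b a) i) hv
  have h2 : |((b a ⬝ᵥ v : ℤ) : ℝ)| * rr l b a = |((b a ⬝ᵥ v : ℤ) : ℝ)| / nw l (b a) := by
    unfold rr
    rw [mul_one_div]
  rw [h2, div_le_iff₀ hp]
  calc |((b a ⬝ᵥ v : ℤ) : ℝ)| ≤ 4 * (nw l (b a) * H) := h1
    _ = 4 * H * nw l (b a) := by ring

/-- size 3.  `m := v0 i • ε_j - v0 j • ε_i` (`ε` = `Pi.single`) is orthogonal to `v0`, so `m = ∑ c, c_k • b k` (`F.pb.span`), with `c_k = m · e k` (dot with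
`e k`, `F.be`), `m · e a = v0 i * e a j - v0 j * e a i`; `F.pb.bd`: `|c_a| * nw (b a) ≤ C * nw m`, and `nw l m ≤ max (|v0 i| / l j) (|v0 j| / l i)`, so
`nw l m * (l i * l j) ≤ ν` (for `i = j` the left side is `0`). -/
theorem e_wedge (F : Fr C l ν v0 b f0 e) (hl : ∀ i, 0 < l i) (hC : 0 ≤ C) (a : Fin 3) (i j : Fin 4) :
    |((v0 i * e a j - v0 j * e a i : ℤ) : ℝ)| * (l i * l j) ≤ C * ν * rr l b a := by
  have hν := Frb_nu_nonneg F hl
  have hr := Frb_rr_pos F hl a
  by_cases hij : i = j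
  · subst hij
    rw [sub_self, Int.cast_zero, abs_zero, zero_mul]
    exact mul_nonneg (mul_nonneg hC hν) hr.le
  have hp := Frb_nw_pos F hl a
  set m : Fin 4 → ℤ := v0 i • Pi.single j 1 - v0 j • Pi.single i 1 with hm
  have hmt : ∀ t, m t = v0 i * (if t = j then 1 else 0) - v0 j * (if t = i then 1 else 0) := by
    intro t
    simp only [hm, Pi.sub_apply, Pi.smul_apply, smul_eq_mul, Pi.single_apply]
  have hdot : ∀ w : Fin 4 → ℤ, m ⬝ᵥ w = v0 i * w j - v0 j * w i := by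
    intro w
    simp only [dotProduct, hmt, sub_mul, Finset.sum_sub_distrib, mul_assoc, ite_mul, one_mul, zero_mul,
      mul_ite, mul_zero, Finset.sum_ite_eq', Finset.mem_univ, if_true]
  obtain ⟨c, hc⟩ := F.pb.span m (by rw [hdot]; ring)
  have hca : c a = v0 i * e a j - v0 j * e a i := by
    rw [← hdot (e a), hc, sum_dotProduct]
    simp only [smul_dotProduct, F.be, smul_eq_mul, mul_ite, mul_one, mul_zero, Finset.sum_ite_eq',
      Finset.mem_univ, if_true]
  have hbd := F.pb.bd c a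
  rw [← hc, hca] at hbd
  have hli := hl i
  have hlj := hl j
  have hnw : nw l m ≤ ν / (l i * l j) := by
    rw [nw_le_iff hl (by positivity)]
    intro t
    rw [hmt]
    by_cases htj : t = j
    · subst htj
      have hti : ¬ (t = i) := fun h => hij h.symm
      simp only [if_true, if_neg hti, mul_one, mul_zero, sub_zero]
      have := F.up i
      rw [div_mul_eq_mul_div, le_div_iff₀ (by positivity)]
      nlinarith
    · by_cases hti : t = i
      · subst hti
        simp only [if_true, if_neg htj, mul_one, mul_zero, zero_sub, Int.cast_neg, abs_neg]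
        have := F.up j
        rw [div_mul_eq_mul_div, le_div_iff₀ (by positivity)]
        nlinarith
      · simp only [if_neg htj, if_neg hti, mul_zero, sub_zero, Int.cast_zero, abs_zero]
        have := hl t
        positivity
  have h3 : |((v0 i * e a j - v0 j * e a i : ℤ) : ℝ)| * nw l (b a) * (l i * l j) ≤ C * ν := by
    calc |((v0 i * e a j - v0 j * e a i : ℤ) : ℝ)| * nw l (b a) * (l i * l j)
        ≤ C * nw l m * (l i * l j) := mul_le_mul_of_nonneg_right hbd (by positivity)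
      _ ≤ C * (ν / (l i * l j)) * (l i * l j) :=
          mul_le_mul_of_nonneg_right (mul_le_mul_of_nonneg_left hnw hC) (by positivity)
      _ = C * ν := by field_simp
  unfold rr
  rw [mul_one_div, le_div_iff₀ hp]
  calc |((v0 i * e a j - v0 j * e a i : ℤ) : ℝ)| * (l i * l j) * nw l (b a)
      = |((v0 i * e a j - v0 j * e a i : ℤ) : ℝ)| * nw l (b a) * (l i * l j) := by ring
    _ ≤ _ := h3

/-- size 1.  Sum over `a` of `e_wedge`. -/
theorem wedge_le (F : Fr C l ν v0 b f0 e) (hl : ∀ i, 0 < l i) (hC : 0 ≤ C) (hν : 0 < ν)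
    (z : Fin 3 → ℤ) {h : ℝ} (hz : ∀ a, |(z a : ℝ)| * rr l b a ≤ h) (i j : Fin 4) :
    |((v0 i * (∑ a, z a • e a) j - v0 j * (∑ a, z a • e a) i : ℤ) : ℝ)| * (l i * l j) ≤
      3 * C * ν * h := by
  have h1 : ((v0 i * (∑ a, z a • e a) j - v0 j * (∑ a, z a • e a) i : ℤ) : ℝ)
      = ∑ a, (z a : ℝ) * ((v0 i * e a j - v0 j * e a i : ℤ) : ℝ) := by
    simp only [Finset.sum_apply, Pi.smul_apply, smul_eq_mul, Fin.sum_univ_three]
    push_cast
    ring
  have hli := hl i
  have hlj := hl j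
  rw [h1]
  calc |∑ a, (z a : ℝ) * ((v0 i * e a j - v0 j * e a i : ℤ) : ℝ)| * (l i * l j)
      ≤ (∑ a, |(z a : ℝ) * ((v0 i * e a j - v0 j * e a i : ℤ) : ℝ)|) * (l i * l j) :=
        mul_le_mul_of_nonneg_right (Finset.abs_sum_le_sum_abs _ _) (by positivity)
    _ = ∑ a, |(z a : ℝ)| * (|((v0 i * e a j - v0 j * e a i : ℤ) : ℝ)| * (l i * l j)) := by
        rw [Finset.sum_mul]
        exact Finset.sum_congr rfl fun a _ => by rw [abs_mul]; ring
    _ ≤ ∑ _a : Fin 3, C * ν * h := by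
        refine Finset.sum_le_sum fun a _ => ?_
        calc |(z a : ℝ)| * (|((v0 i * e a j - v0 j * e a i : ℤ) : ℝ)| * (l i * l j))
            ≤ |(z a : ℝ)| * (C * ν * rr l b a) :=
              mul_le_mul_of_nonneg_left (e_wedge F hl hC a i j) (abs_nonneg _)
          _ = C * ν * (|(z a : ℝ)| * rr l b a) := by ring
          _ ≤ C * ν * h := mul_le_mul_of_nonneg_left (hz a) (by positivity)
    _ = 3 * C * ν * h := by
        rw [Finset.sum_const, Finset.card_univ, Fintype.card_fin, nsmul_eq_mul]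
        push_cast
        ring

/-- size 3.  Let `i0` be an index with `|v0 i0| l i0 = ν` and `E a := e a - (e a i0 / v0 i0) v0` (real vector): `|E a j| * l j ≤ C * rr a`
(`e_wedge` with `i = i0`, divided by `ν`).  `G v0 = 0`, so `Qe a c = E a · G (E c)` (real), at most `16 * (C rr a / l i) * (C0 l i l j / T) * (C rr c / l j)` termwise. -/
theorem Qe_le (hG : ∀ i j, G i j = G j i) (F : Fr C l ν v0 b f0 e) (hl : ∀ i, 0 < l i) (hC : 1 ≤ C)
    (hν : 0 < ν) (h0 : G *ᵥ v0 = 0) {C0 T : ℝ} (hC0 : 1 ≤ C0) (hT : 0 < T)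
    (hGb : ∀ i j, |(G i j : ℝ)| ≤ C0 * l i * l j / T) (a c : Fin 3) :
    |((Qe G e a c : ℤ) : ℝ)| ≤ 16 * C0 * C ^ 2 * rr l b a * rr l b c / T := by
  obtain ⟨i0, hi0⟩ := F.at'
  have hv0 : (v0 i0 : ℝ) ≠ 0 := by
    intro h
    rw [h, abs_zero, zero_mul] at hi0
    exact hν.ne hi0
  -- the real vectors
  set E : Fin 3 → Fin 4 → ℝ := fun a j => (e a j : ℝ) - (e a i0 : ℝ) / (v0 i0 : ℝ) * (v0 j : ℝ) with hE
  have hEb : ∀ a j, |E a j| * l j ≤ C * rr l b a := by
    intro a j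
    have h1 := e_wedge F hl (by linarith) a i0 j
    have h2 : ((v0 i0 * e a j - v0 j * e a i0 : ℤ) : ℝ) = (v0 i0 : ℝ) * E a j := by
      simp only [hE]
      push_cast
      field_simp
    rw [h2, abs_mul] at h1
    have h3 : |(v0 i0 : ℝ)| * |E a j| * (l i0 * l j) = ν * (|E a j| * l j) := by
      rw [← hi0]; ring
    rw [h3] at h1
    have h4 : ν * (|E a j| * l j) ≤ ν * (C * rr l b a) := by
      calc ν * (|E a j| * l j) ≤ C * ν * rr l b a := h1
        _ = ν * (C * rr l b a) := by ring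
    exact le_of_mul_le_mul_left h4 hν
  have hGv : ∀ i, ∑ j, (G i j : ℝ) * (v0 j : ℝ) = 0 := by
    intro i
    have := congrFun h0 i
    simp only [mulVec, dotProduct, Pi.zero_apply] at this
    exact_mod_cast this
  have hGv' : ∀ j, ∑ i, (v0 i : ℝ) * (G i j : ℝ) = 0 := by
    intro j
    rw [← hGv j]
    exact Finset.sum_congr rfl fun i _ => by rw [hG i j]; ring
  have hQ : ((Qe G e a c : ℤ) : ℝ) = ∑ i, ∑ j, E a i * (G i j : ℝ) * E c j := by
    have e1 : ((Qe G e a c : ℤ) : ℝ) = ∑ i, ∑ j, (e a i : ℝ) * (G i j : ℝ) * (e c j : ℝ) := by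
      simp only [Qe, Matrix.of_apply, dotProduct, mulVec]
      push_cast
      refine Finset.sum_congr rfl fun i _ => ?_
      rw [Finset.mul_sum]
      exact Finset.sum_congr rfl fun j _ => by ring
    rw [e1]
    set α := (e a i0 : ℝ) / (v0 i0 : ℝ) with hα
    set β := (e c i0 : ℝ) / (v0 i0 : ℝ) with hβ
    have e2 : ∀ i j, E a i * (G i j : ℝ) * E c j = (e a i : ℝ) * (G i j : ℝ) * (e c j : ℝ)
        - α * ((v0 i : ℝ) * (G i j : ℝ)) * (e c j : ℝ)
        - β * (e a i : ℝ) * ((G i j : ℝ) * (v0 j : ℝ))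
        + α * β * (v0 i : ℝ) * ((G i j : ℝ) * (v0 j : ℝ)) := by
      intro i j
      simp only [hE]
      ring
    have e3 : ∑ i, ∑ j, α * ((v0 i : ℝ) * (G i j : ℝ)) * (e c j : ℝ) = 0 := by
      rw [Finset.sum_comm]
      refine Finset.sum_eq_zero fun j _ => ?_
      have : ∑ i, α * ((v0 i : ℝ) * (G i j : ℝ)) * (e c j : ℝ)
          = α * (∑ i, (v0 i : ℝ) * (G i j : ℝ)) * (e c j : ℝ) := by
        rw [Finset.mul_sum, Finset.sum_mul]
      rw [this, hGv', mul_zero, zero_mul]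
    have e4 : ∑ i, ∑ j, β * (e a i : ℝ) * ((G i j : ℝ) * (v0 j : ℝ)) = 0 := by
      refine Finset.sum_eq_zero fun i _ => ?_
      rw [← Finset.mul_sum, hGv, mul_zero]
    have e5 : ∑ i, ∑ j, α * β * (v0 i : ℝ) * ((G i j : ℝ) * (v0 j : ℝ)) = 0 := by
      refine Finset.sum_eq_zero fun i _ => ?_
      rw [← Finset.mul_sum, hGv, mul_zero]
    simp only [e2, Finset.sum_add_distrib, Finset.sum_sub_distrib]
    rw [e3, e4, e5]
    ring
  rw [hQ]
  have hterm : ∀ i j, |E a i * (G i j : ℝ) * E c j| ≤ C0 * C ^ 2 * rr l b a * rr l b c / T := by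
    intro i j
    have hli := hl i
    have hlj := hl j
    have ha := Frb_rr_pos F hl a
    have hc := Frb_rr_pos F hl c
    rw [abs_mul, abs_mul]
    calc |E a i| * |(G i j : ℝ)| * |E c j| ≤ |E a i| * (C0 * l i * l j / T) * |E c j| :=
          mul_le_mul_of_nonneg_right (mul_le_mul_of_nonneg_left (hGb i j) (abs_nonneg _)) (abs_nonneg _)
      _ = C0 / T * ((|E a i| * l i) * (|E c j| * l j)) := by ring
      _ ≤ C0 / T * ((C * rr l b a) * (C * rr l b c)) := by
          refine mul_le_mul_of_nonneg_left ?_ (by positivity)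
          exact mul_le_mul (hEb a i) (hEb c j) (by positivity) (by positivity)
      _ = _ := by ring
  calc |∑ i, ∑ j, E a i * (G i j : ℝ) * E c j| ≤ ∑ i, |∑ j, E a i * (G i j : ℝ) * E c j| :=
        Finset.abs_sum_le_sum_abs _ _
    _ ≤ ∑ i : Fin 4, ∑ j : Fin 4, |E a i * (G i j : ℝ) * E c j| :=
        Finset.sum_le_sum fun i _ => Finset.abs_sum_le_sum_abs _ _
    _ ≤ ∑ _i : Fin 4, ∑ _j : Fin 4, C0 * C ^ 2 * rr l b a * rr l b c / T :=
        Finset.sum_le_sum fun i _ => Finset.sum_le_sum fun j _ => hterm i j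
    _ = _ := by
        simp only [Finset.sum_const, Finset.card_univ, Fintype.card_fin, nsmul_eq_mul]
        push_cast
        ring

end Pool.Agent.PP5Z
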