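import Pool.Agent.PP5Z.DefsA
import Pool.Agent.PP5S.Eoc

/-!
# PP5 (D'), `D(x) = 0`: the size of the radical
-/

set_option autoImplicit false

namespace Pool.Agent.PP5Z

open Matrix Finset Pool.Agent.PP5 Pool.Agent.PP5B Pool.Agent.PP5S Pool.Agent.PP5P

variable {C ν : ℝ} {l : Fin 4 → ℝ} {v0 f0 : Fin 4 → ℤ} {b e : Fin 3 → Fin 4 → ℤ}
  {G : Matrix (Fin 4) (Fin 4) ℤ}

/-- size 2.  `F.at'` gives `i` with `|v0 i| l i = ν`; `adj G i i = d * (v0 i)^2` with an integer `d ≠ 0`, so `|v0 i|^2 ≤ |adj G i i|`; and the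
`3 x 3` minor `adj G i i` has size `≤ 6 (C0 / T)^3 (∏ l / l i)^2` (`PP5B`/`PP5N` have `det_le3`: see the use in `PP5P/Zb.lean`). -/
theorem nu_le (F : Fr C l ν v0 b f0 e) (hl : ∀ i, 0 < l i) {C0 T : ℝ} (hC0 : 1 ≤ C0) (hT : 0 < T)
    (hGb : ∀ i j, |(G i j : ℝ)| ≤ C0 * l i * l j / T) {d : ℤ} (hd : d ≠ 0)
    (hadj : ∀ i j, G.adjugate i j = d * (v0 i * v0 j)) :
    ν ^ 2 * T ^ 3 ≤ 6 * C0 ^ 3 * (∏ i, l i) ^ 2 := by
  obtain ⟨i, hi⟩ := F.at'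
  have hli := hl i
  have h1 : |(toR G).adjugate i i| ≤ (6 * ((C0 / T) ^ 3 * (∏ i, l i) ^ 2)) * ((l i)⁻¹ * (l i)⁻¹) :=
    adj_le hl (fun p q => by
      have := hGb p q
      simp only [toR, Matrix.map_apply]
      calc |(G p q : ℝ)| ≤ C0 * l p * l q / T := this
        _ = C0 / T * (l p * l q) := by ring) i i
  have h2 : (toR G).adjugate i i = ((G.adjugate i i : ℤ) : ℝ) := by
    have := RingHom.map_adjugate (Int.castRingHom ℝ) G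
    have h3 := congrFun (congrFun this i) i
    simp only [RingHom.mapMatrix_apply, Matrix.map_apply, eq_intCast] at h3
    rw [h3]
    rfl
  have hd1 : (1 : ℝ) ≤ |(d : ℝ)| := by
    have : (1 : ℤ) ≤ |d| := Int.one_le_abs hd
    exact_mod_cast this
  have h4 : (v0 i : ℝ) ^ 2 ≤ |(toR G).adjugate i i| := by
    rw [h2, hadj]
    push_cast
    rw [abs_mul, ← pow_two, abs_pow, sq_abs]
    nlinarith [sq_nonneg (v0 i : ℝ)]
  have h5 : (v0 i : ℝ) ^ 2 * l i ^ 2 = ν ^ 2 := by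
    rw [← hi, mul_pow, sq_abs]
  have h6 : (v0 i : ℝ) ^ 2 * l i ^ 2 ≤ 6 * ((C0 / T) ^ 3 * (∏ i, l i) ^ 2) := by
    calc (v0 i : ℝ) ^ 2 * l i ^ 2
        ≤ (6 * ((C0 / T) ^ 3 * (∏ i, l i) ^ 2)) * ((l i)⁻¹ * (l i)⁻¹) * l i ^ 2 :=
          mul_le_mul_of_nonneg_right (h4.trans h1) (by positivity)
      _ = _ := by field_simp
  calc ν ^ 2 * T ^ 3 ≤ 6 * ((C0 / T) ^ 3 * (∏ i, l i) ^ 2) * T ^ 3 := by
        rw [← h5]
        exact mul_le_mul_of_nonneg_right h6 (by positivity)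
    _ = 6 * C0 ^ 3 * (∏ i, l i) ^ 2 := by field_simp

end Pool.Agent.PP5Z
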