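import Pool.Agent.PP5Z.DefsA

/-!
# PP5 (D'), `D(x) = 0`: the frame of the radical
-/

set_option autoImplicit false

namespace Pool.Agent.PP5Z

open Matrix Finset Pool.Agent.PP5 Pool.Agent.PP5B Pool.Agent.PP5P

/-- size 2.  `ν = max_i |v0 i| l i` (`Finset.exists_max_image`).  `b`: `perp_basis` with `H = ν`.  `f0`: `ex_dual`.
`span4` (PP5P/Pa.lean): every `z` is `c0 f0 + c1 b 0 + c2 b 1 + c3 b 2`, `c0 = z · v0` (dot with `v0`, `hb.orth`, `f0v`).  For the unit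
vector `ε_j`: `ε_j = (v0 j) f0 + ∑ a, c j a • b a`; put `e a := fun j => c j a`.  (dec): `v j = ε_j · v = (v0 j) (f0 · v) + ∑ a, c j a (b a · v)`.
(be): `b i = ∑ j, b i j • ε_j = (b i · v0) • f0 + ∑ a, (b i · e a) • b a = ∑ a, (b i · e a) • b a`, and `b` is injective (`PB.inj`). -/
theorem fr_exists : ∃ C : ℝ, 1 ≤ C ∧ ∀ l : Fin 4 → ℝ, (∀ i, 0 < l i) → ∀ v0 : Fin 4 → ℤ, Pr4 v0 →
    ∃ (ν : ℝ) (b : Fin 3 → Fin 4 → ℤ) (f0 : Fin 4 → ℤ) (e : Fin 3 → Fin 4 → ℤ), 0 < ν ∧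
      Fr C l ν v0 b f0 e := by
  obtain ⟨C, hC1, hC⟩ := perp_basis
  refine ⟨C, hC1, ?_⟩
  intro l hl v0 hv0
  obtain ⟨i0, -, hi0⟩ := Finset.exists_max_image (Finset.univ : Finset (Fin 4))
    (fun i => |(v0 i : ℝ)| * l i) ⟨0, Finset.mem_univ _⟩
  have hup : ∀ i, |(v0 i : ℝ)| * l i ≤ |(v0 i0 : ℝ)| * l i0 := fun i => hi0 i (Finset.mem_univ _)
  obtain ⟨b, hb⟩ := hC l hl (|(v0 i0 : ℝ)| * l i0) v0 hv0 hup
  obtain ⟨f0, hf0⟩ := ex_dual v0 hv0
  have hν : 0 < |(v0 i0 : ℝ)| * l i0 := by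
    have hne : ∃ i, v0 i ≠ 0 := by
      by_contra hcon
      push Not at hcon
      refine hv0 2 Nat.prime_two (fun i => ?_)
      rw [hcon i]
      exact dvd_zero _
    obtain ⟨i, hi⟩ := hne
    have h1 : (0 : ℝ) < |(v0 i : ℝ)| := abs_pos.mpr (by exact_mod_cast hi)
    exact lt_of_lt_of_le (mul_pos h1 (hl i)) (hup i)
  have hsp : ∀ j : Fin 4, ∃ c : Fin 3 → ℤ,
      (Pi.single j 1 : Fin 4 → ℤ) - (v0 j) • f0 = ∑ a, c a • b a := by
    intro j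
    refine hb.span _ ?_
    rw [sub_dotProduct, smul_dotProduct, hf0]
    simp
  choose c hc using hsp
  have hdec : ∀ v : Fin 4 → ℤ, v = ∑ i, (b i ⬝ᵥ v) • (fun j => c j i) + (f0 ⬝ᵥ v) • v0 := by
    intro v
    ext j
    have h1 : (Pi.single j 1 : Fin 4 → ℤ) = (v0 j) • f0 + ∑ a, c j a • b a := by
      rw [← hc j]; abel
    have h2 : (Pi.single j 1 : Fin 4 → ℤ) ⬝ᵥ v = v j := by simp
    rw [h1, add_dotProduct, smul_dotProduct] at h2
    rw [← h2]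
    simp only [Fin.sum_univ_three, add_dotProduct, smul_dotProduct, Pi.add_apply, Pi.smul_apply,
      smul_eq_mul]
    ring
  refine ⟨|(v0 i0 : ℝ)| * l i0, b, f0, fun a j => c j a, hν, ?_⟩
  refine ⟨hb, hup, ⟨i0, rfl⟩, hf0, ?_, hdec⟩
  intro i j
  have h3 : ∀ v : Fin 4 → ℤ, b i ⬝ᵥ v = ∑ k, (b k ⬝ᵥ v) * (b i ⬝ᵥ (fun j => c j k)) := by
    intro v
    conv_lhs => rw [hdec v]
    simp only [Fin.sum_univ_three, dotProduct_add, dotProduct_smul, smul_eq_mul, hb.orth, mul_zero,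
      add_zero]
  have h4 : ∑ k, ((b i ⬝ᵥ (fun j => c j k)) - if i = k then 1 else 0) • b k = 0 := by
    ext t
    have h5 := h3 (Pi.single t 1)
    simp only [dotProduct_single, mul_one] at h5
    have h7 : ∑ k, (if i = k then 1 else 0) * b k t = b i t := by
      simp
    simp only [sub_smul, Finset.sum_sub_distrib, Pi.sub_apply, Pi.zero_apply, Finset.sum_apply,
      Pi.smul_apply, smul_eq_mul]
    rw [h7, h5, sub_eq_zero]
    refine Finset.sum_congr rfl fun k _ => ?_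
    ring
  have h6 := hb.inj hl _ h4 j
  exact sub_eq_zero.mp h6

end Pool.Agent.PP5Z
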