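import Pool.Agent.PP5Z.Defs
import Pool.Agent.PP5T.Xld

/-!
# PP5 (D'), `D(x) = 0`: sizes of the data
-/

set_option autoImplicit false

namespace Pool.Agent.PP5Z

open Matrix Finset Pool.Agent.PP5 Pool.Agent.PP5B Pool.Agent.PP5S Pool.Agent.PP5P

variable {Cx t1 t2 T : ℝ} {x : Fin 10 → ℤ} {b : Fin 4 → PP5.Sp} {G : Matrix (Fin 4) (Fin 4) ℤ}
  {l : Fin 4 → ℝ}

private theorem adj_zero (hm : ∀ i j a b, mr G i j a b = 0) : G.adjugate = 0 := by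
  ext i j
  rw [Matrix.adjugate_fin_succ_eq_det_submatrix, Matrix.det_fin_three]
  simp only [Matrix.submatrix_apply, Matrix.zero_apply]
  have e1 := hm (j.succAbove 1) (j.succAbove 2) (i.succAbove 1) (i.succAbove 2)
  have e2 := hm (j.succAbove 1) (j.succAbove 2) (i.succAbove 0) (i.succAbove 2)
  have e3 := hm (j.succAbove 1) (j.succAbove 2) (i.succAbove 0) (i.succAbove 1)
  unfold mr at e1 e2 e3
  linear_combination (-1) ^ (j + i : ℕ) * (G (j.succAbove 0) (i.succAbove 0) * e1 -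
    G (j.succAbove 0) (i.succAbove 1) * e2 + G (j.succAbove 0) (i.succAbove 2) * e3)

/-- size 1.  `b i ≠ 0` (`h.ind (Pi.single i 1)`), so `1 ≤ |b i a| ≤ l i sg a ≤ l i (t1 t2)^2` (`PP5T.sg_bd`). -/
theorem l_lo (h : XE Cx t1 t2 T x b G l) (h1 : 1 ≤ t1) (h2 : 1 ≤ t2) (i : Fin 4) :
    1 ≤ (t1 * t2) ^ 2 * l i := by
  have g1 := h1
  have g2 := h2
  obtain ⟨a, ha⟩ : ∃ a, b i a ≠ 0 := by
    by_contra hcon
    push Not at hcon
    have h0 : (Pi.single i 1 : Fin 4 → ℤ) = 0 := by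
      apply h.ind
      intro a
      rw [Finset.sum_eq_single i]
      · rw [Pi.single_eq_same, hcon a, mul_zero]
      · intro j _ hj
        rw [Pi.single_eq_of_ne hj, zero_mul]
      · intro hi
        exact absurd (Finset.mem_univ i) hi
    have h1 := congrFun h0 i
    rw [Pi.single_eq_same] at h1
    simp at h1
  have h2 : (1 : ℝ) ≤ |(b i a : ℝ)| := by
    rw [← Int.cast_abs]
    exact_mod_cast Int.one_le_abs ha
  have h3 := h.bl i a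
  have h4 := (PP5T.sg_bd g1 g2 a).1
  have h5 := h.lp i
  calc (1 : ℝ) ≤ |(b i a : ℝ)| := h2
    _ ≤ l i * PP5.sg t1 t2 a := h3
    _ ≤ l i * (t1 * t2) ^ 2 := mul_le_mul_of_nonneg_left h4 h5.le
    _ = (t1 * t2) ^ 2 * l i := mul_comm _ _

/-- size 1.  `∏ l ≤ Cx T^4` and `l_lo` for the other three. -/
theorem l_up (h : XE Cx t1 t2 T x b G l) (hC : 1 ≤ Cx) (h1 : 1 ≤ t1) (h2 : 1 ≤ t2) (i : Fin 4) :
    l i ≤ Cx * T ^ 4 * (t1 * t2) ^ 6 := by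
  have hp := h.prod
  have e0 := l_lo h h1 h2 0
  have e1 := l_lo h h1 h2 1
  have e2 := l_lo h h1 h2 2
  have e3 := l_lo h h1 h2 3
  have p0 := h.lp 0
  have p1 := h.lp 1
  have p2 := h.lp 2
  have p3 := h.lp 3
  have hpi := h.lp i
  rw [Fin.prod_univ_four] at hp
  have hm : (0 : ℝ) ≤ (t1 * t2) ^ 6 := by
    have : (0 : ℝ) ≤ t1 * t2 := by nlinarith
    positivity
  have key : ∀ a b c d : ℝ, 0 < d → 1 ≤ a → 1 ≤ b → 1 ≤ c → d ≤ a * b * c * d := by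
    intro a b c d hd ha hb hc
    have h5 : 1 ≤ a * b := by nlinarith
    have h6 : 1 ≤ a * b * c := by nlinarith
    nlinarith
  have hfin : l i ≤ (t1 * t2) ^ 6 * (l 0 * l 1 * l 2 * l 3) := by
    fin_cases i
    · calc l 0 ≤ _ := key _ _ _ _ p0 e1 e2 e3
        _ = _ := by ring
    · calc l 1 ≤ _ := key _ _ _ _ p1 e0 e2 e3
        _ = _ := by ring
    · calc l 2 ≤ _ := key _ _ _ _ p2 e0 e1 e3
        _ = _ := by ring
    · calc l 3 ≤ _ := key _ _ _ _ p3 e0 e1 e2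
        _ = _ := by ring
  calc l i ≤ (t1 * t2) ^ 6 * (l 0 * l 1 * l 2 * l 3) := hfin
    _ ≤ (t1 * t2) ^ 6 * (Cx * T ^ 4) := mul_le_mul_of_nonneg_left hp hm
    _ = _ := by ring

/-- size 1.  `1 ≤ |x j| ≤ T tx j ≤ T (t1 t2)^2`. -/
theorem T_lo (h : XE Cx t1 t2 T x b G l) (h1 : 1 ≤ t1) (h2 : 1 ≤ t2) (hx : x ≠ 0) :
    1 ≤ (t1 * t2) ^ 2 * T := by
  obtain ⟨j, hj⟩ : ∃ j, x j ≠ 0 := by
    by_contra hcon
    push Not at hcon
    exact hx (funext hcon)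
  have h3 : (1 : ℝ) ≤ |(x j : ℝ)| := by
    rw [← Int.cast_abs]
    exact_mod_cast Int.one_le_abs hj
  have h4 := h.Tle j
  have h5 := (PP5T.tx_bd h1 h2 j).1
  have h6 := h.T0
  calc (1 : ℝ) ≤ |(x j : ℝ)| := h3
    _ ≤ T * PP5.tx t1 t2 j := h4
    _ ≤ T * (t1 * t2) ^ 2 := mul_le_mul_of_nonneg_left h5 h6.le
    _ = (t1 * t2) ^ 2 * T := mul_comm _ _

/-- size 2.  The exact `p`: the maximum of `|mr G i j a b| T^2 / (l i l j l a l b)` (`Finset.exists_max_image` over `Fin 4 × Fin 4 × Fin 4 × Fin 4`); positive since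
`adj G ≠ 0` (if all `2 x 2` minors vanish, all `3 x 3` minors vanish: `adjugate` expanded, cf. PP5M/D1a.lean or direct). -/
theorem p_exists (hT : 0 < T) (hl : ∀ i, 0 < l i) (hadj : G.adjugate ≠ 0) : ∃ p : ℝ, 0 < p ∧
    (∀ i j a b, |((mr G i j a b : ℤ) : ℝ)| * T ^ 2 ≤ p * (l i * l j * l a * l b)) ∧
    ∃ i j a b, p ≤ |((mr G i j a b : ℤ) : ℝ)| * T ^ 2 / (l i * l j * l a * l b) := by
  classical
  obtain ⟨q0, -, hq0⟩ := Finset.exists_max_image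
    (Finset.univ : Finset (Fin 4 × Fin 4 × Fin 4 × Fin 4))
    (fun q => |((mr G q.1 q.2.1 q.2.2.1 q.2.2.2 : ℤ) : ℝ)| * T ^ 2 /
      (l q.1 * l q.2.1 * l q.2.2.1 * l q.2.2.2)) ⟨(0, 0, 0, 0), Finset.mem_univ _⟩
  have hpos : ∀ i j a b, 0 < l i * l j * l a * l b := fun i j a b =>
    mul_pos (mul_pos (mul_pos (hl i) (hl j)) (hl a)) (hl b)
  obtain ⟨i, j, a, b, hm⟩ : ∃ i j a b, mr G i j a b ≠ 0 := by
    by_contra hcon
    push Not at hcon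
    exact hadj (adj_zero hcon)
  refine ⟨|((mr G q0.1 q0.2.1 q0.2.2.1 q0.2.2.2 : ℤ) : ℝ)| * T ^ 2 /
      (l q0.1 * l q0.2.1 * l q0.2.2.1 * l q0.2.2.2), ?_, ?_, q0.1, q0.2.1, q0.2.2.1, q0.2.2.2, le_refl _⟩
  · refine lt_of_lt_of_le ?_ (hq0 (i, j, a, b) (Finset.mem_univ _))
    have h1 : (0 : ℝ) < |((mr G i j a b : ℤ) : ℝ)| := abs_pos.2 (by exact_mod_cast hm)
    exact div_pos (mul_pos h1 (pow_pos hT 2)) (hpos i j a b)
  · intro i j a b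
    have h2 := hq0 (i, j, a, b) (Finset.mem_univ _)
    exact (div_le_iff₀ (hpos i j a b)).1 h2

/-- size 1.  `mi2` is the gcd of the minors (`PP5N.mi2`): `n ∣ mr G ..` for all indices implies `n ∣ mi2 G`; and `mi2 G ≠ 0` since `adj G ≠ 0`. -/
theorem mi2_ge (hadj : G.adjugate ≠ 0) (n : ℕ) (hn : ∀ i j k k', (n : ℤ) ∣ mr G i j k k') :
    (n : ℝ) ≤ (PP5N.mi2 G : ℝ) := by
  have h1 : n ∣ PP5N.mi2 G := PP5N.dvd_mi2 fun i i' k k' => hn i i' k k'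
  have h2 : PP5N.mi2 G ≠ 0 := by
    intro h0
    apply hadj
    apply adj_zero
    intro i j a b
    have h3 := PP5N.mi2_dvd G i j a b
    rw [h0, Nat.cast_zero, zero_dvd_iff] at h3
    exact h3
  exact_mod_cast Nat.le_of_dvd (Nat.pos_of_ne_zero h2) h1

/-- size 2.  The number of vectors `x` with `nw tx x ≤ 1`: `|x j| ≤ (t1 t2)^2`. -/
theorem small_x (h1 : 1 ≤ t1) (h2 : 1 ≤ t2) (S : Finset (Fin 10 → ℤ))
    (hS : ∀ x ∈ S, ∀ j, |(x j : ℝ)| ≤ PP5.tx t1 t2 j) : (S.card : ℝ) ≤ 3 ^ 10 * (t1 * t2) ^ 20 := by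
  classical
  have hM0 : (1 : ℝ) ≤ (t1 * t2) ^ 2 := by
    have : (1 : ℝ) ≤ t1 * t2 := by nlinarith
    exact one_le_pow₀ this
  obtain ⟨M, hM⟩ : ∃ M : ℝ, M = (t1 * t2) ^ 2 := ⟨_, rfl⟩
  have hM1 : 1 ≤ M := by rw [hM]; exact hM0
  have hfl : 0 ≤ ⌊M⌋ := Int.floor_nonneg.2 (by linarith)
  have hsub : S ⊆ Fintype.piFinset fun _ : Fin 10 => Finset.Icc (-⌊M⌋) ⌊M⌋ := by
    intro x hx
    rw [Fintype.mem_piFinset]
    intro j
    have h3 : |(x j : ℝ)| ≤ M := (hS x hx j).trans (by rw [hM]; exact (PP5T.tx_bd h1 h2 j).1)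
    have h4 : |x j| ≤ ⌊M⌋ := by
      rw [Int.le_floor]
      push_cast
      exact h3
    rw [Finset.mem_Icc]
    exact abs_le.1 h4
  have hcard := Finset.card_le_card hsub
  rw [Fintype.card_piFinset, Finset.prod_const, Finset.card_univ, Fintype.card_fin,
    Int.card_Icc] at hcard
  have h5 : (((⌊M⌋ + 1 - -⌊M⌋).toNat : ℕ) : ℝ) ≤ 3 * M := by
    have h6 : (((⌊M⌋ + 1 - -⌊M⌋).toNat : ℕ) : ℤ) = ⌊M⌋ + 1 - -⌊M⌋ := Int.toNat_of_nonneg (by omega)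
    have h7 : (((⌊M⌋ + 1 - -⌊M⌋).toNat : ℕ) : ℝ) = ((⌊M⌋ + 1 - -⌊M⌋ : ℤ) : ℝ) := by
      exact_mod_cast h6
    rw [h7]
    push_cast
    have h8 := Int.floor_le M
    linarith
  calc (S.card : ℝ) ≤ (((⌊M⌋ + 1 - -⌊M⌋).toNat ^ 10 : ℕ) : ℝ) := by exact_mod_cast hcard
    _ = (((⌊M⌋ + 1 - -⌊M⌋).toNat : ℕ) : ℝ) ^ 10 := by push_cast; rfl
    _ ≤ (3 * M) ^ 10 := pow_le_pow_left₀ (Nat.cast_nonneg _) h5 10
    _ = 3 ^ 10 * (t1 * t2) ^ 20 := by rw [hM]; ring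

end Pool.Agent.PP5Z
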