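import Mathlib

/-!
# PP5 (D'), `D(x) = 0`: the bound for one `x`, real inequalities
-/

set_option autoImplicit false

namespace Pool.Agent.PP5Z

open Matrix Finset

theorem Nx_prim {n : ℕ} (v : Fin n → ℤ) (hv : v ≠ 0) : ∃ (g : ℤ) (z : Fin n → ℤ), 1 ≤ g ∧
    (∀ i, v i = g * z i) ∧ ∀ p : ℕ, p.Prime → ∃ j, ¬ (p : ℤ) ∣ z j := by
  obtain ⟨i0, hi0⟩ := Function.ne_iff.mp hv
  obtain ⟨z, hz, hg⟩ := Finset.extract_gcd (s := (Finset.univ : Finset (Fin n))) v ⟨i0, Finset.mem_univ _⟩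
  refine ⟨Finset.univ.gcd v, z, ?_, fun i => hz i (Finset.mem_univ _), ?_⟩
  · have h1 : Finset.univ.gcd v ≠ 0 := by
      intro h0
      apply hi0
      have := hz i0 (Finset.mem_univ _)
      rw [h0, zero_mul] at this
      simpa using this
    have h2 : 0 ≤ Finset.univ.gcd v := Int.nonneg_of_normalize_eq_self Finset.normalize_gcd
    omega
  · intro p hp
    by_contra hc
    push Not at hc
    have h1 : (p : ℤ) ∣ Finset.univ.gcd z := Finset.dvd_gcd fun i _ => hc i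
    rw [hg] at h1
    exact hp.one_lt.ne' (by exact_mod_cast Int.eq_one_of_dvd_one (by positivity) h1)

theorem Nx_log (k c : ℝ) (hk : 1 ≤ k) (hc : 0 < c) : ∃ C : ℝ, 1 ≤ C ∧ ∀ Y X : ℝ, 1 ≤ Y →
    0 < X → X ≤ k * Y ^ 3 → Real.logb 2 X + 1 ≤ C * Y ^ c := by
  refine ⟨2 * Real.log k + 6 / c + 1, ?_, ?_⟩
  · have := Real.log_nonneg hk
    have : 0 < 6 / c := by positivity
    linarith
  intro Y X hY hX hXk
  have hY0 : 0 < Y := by linarith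
  have h2 : (1 : ℝ) / 2 < Real.log 2 := by
    have := Real.log_two_gt_d9
    linarith
  have h3 : Real.log X ≤ Real.log k + 3 * Real.log Y := by
    refine (Real.log_le_log hX hXk).trans ?_
    rw [Real.log_mul (by linarith) (by positivity), Real.log_pow]
    push_cast
    exact le_rfl
  have h4 : Real.log Y ≤ Y ^ c / c := Real.log_le_rpow_div (by linarith) hc
  have h5 : (1 : ℝ) ≤ Y ^ c := Real.one_le_rpow hY hc.le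
  have h6 := Real.log_nonneg hk
  have h7 := Real.log_nonneg hY
  have h8 : Real.logb 2 X ≤ 2 * (Real.log k + 3 * Real.log Y) := by
    rw [Real.logb, div_le_iff₀ (by linarith)]
    nlinarith
  have h9 : 6 / c * Y ^ c = 6 * (Y ^ c / c) := by ring
  calc Real.logb 2 X + 1 ≤ 2 * Real.log k * 1 + 6 * (Y ^ c / c) + 1 * 1 := by linarith
    _ ≤ 2 * Real.log k * Y ^ c + 6 / c * Y ^ c + 1 * Y ^ c := by
        rw [h9]
        refine add_le_add (add_le_add (mul_le_mul_of_nonneg_left h5 (by linarith)) le_rfl) (by linarith)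
    _ = _ := by ring

theorem Nx_b1 {A0 β0 Pn Λ ν CF C0 T : ℝ} (hA0 : 0 < A0) (hβpos : 0 < β0) (hPn0 : 0 < Pn)
    (hΛ : 0 < Λ) (hCF1 : 1 ≤ CF) (hC0 : 1 ≤ C0) (hT0 : 0 < T)
    (h1 : A0 ^ 3 * (1 / Pn) ^ 2 ≤ 6 * β0 ^ 3) (hP2 : Pn ^ 2 * Λ ^ 2 ≤ CF ^ 2 * ν ^ 2)
    (hνu : ν ^ 2 * T ^ 3 ≤ 6 * C0 ^ 3 * Λ ^ 2) : √(A0 / β0) ≤ 6 * CF * C0 ^ 2 / √T := by
  have h2 : A0 ^ 3 ≤ 6 * β0 ^ 3 * Pn ^ 2 := by
    have : A0 ^ 3 = A0 ^ 3 * (1 / Pn) ^ 2 * Pn ^ 2 := by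
      field_simp
    rw [this]
    exact mul_le_mul_of_nonneg_right h1 (by positivity)
  have h3 : A0 ^ 3 * T ^ 3 ≤ 36 * CF ^ 2 * C0 ^ 3 * β0 ^ 3 := by
    have h4 : A0 ^ 3 * T ^ 3 * Λ ^ 2 ≤ 36 * CF ^ 2 * C0 ^ 3 * β0 ^ 3 * Λ ^ 2 := by
      calc A0 ^ 3 * T ^ 3 * Λ ^ 2
          ≤ (6 * β0 ^ 3 * Pn ^ 2) * T ^ 3 * Λ ^ 2 := by gcongr
        _ = 6 * β0 ^ 3 * T ^ 3 * (Pn ^ 2 * Λ ^ 2) := by ring
        _ ≤ 6 * β0 ^ 3 * T ^ 3 * (CF ^ 2 * ν ^ 2) := mul_le_mul_of_nonneg_left hP2 (by positivity)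
        _ = 6 * β0 ^ 3 * CF ^ 2 * (ν ^ 2 * T ^ 3) := by ring
        _ ≤ 6 * β0 ^ 3 * CF ^ 2 * (6 * C0 ^ 3 * Λ ^ 2) :=
            mul_le_mul_of_nonneg_left hνu (by positivity)
        _ = _ := by ring
    exact le_of_mul_le_mul_right h4 (by positivity)
  have h5 : A0 * T ≤ 36 * CF ^ 2 * C0 ^ 3 * β0 := by
    have h6 : 1 ≤ 36 * CF ^ 2 * C0 ^ 3 := by
      have a1 : 1 ≤ CF ^ 2 := one_le_pow₀ hCF1
      have a2 : 1 ≤ C0 ^ 3 := one_le_pow₀ hC0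
      nlinarith
    have h7 : (A0 * T) ^ 3 ≤ (36 * CF ^ 2 * C0 ^ 3 * β0) ^ 3 := by
      calc (A0 * T) ^ 3 = A0 ^ 3 * T ^ 3 := by ring
        _ ≤ 36 * CF ^ 2 * C0 ^ 3 * β0 ^ 3 := h3
        _ ≤ (36 * CF ^ 2 * C0 ^ 3) ^ 3 * β0 ^ 3 := by
            refine mul_le_mul_of_nonneg_right ?_ (by positivity)
            exact le_self_pow₀ h6 (by norm_num)
        _ = _ := by ring
    exact (pow_le_pow_iff_left₀ (by positivity) (by positivity) three_ne_zero).1 h7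
  apply Real.sqrt_le_iff.2
  refine ⟨by positivity, ?_⟩
  rw [div_pow, Real.sq_sqrt hT0.le, div_le_div_iff₀ hβpos hT0]
  refine h5.trans ?_
  have e2 : (6 * CF * C0 ^ 2) ^ 2 * β0 = 36 * CF ^ 2 * C0 ^ 4 * β0 := by ring
  rw [e2]
  have : C0 ^ 3 ≤ C0 ^ 4 := pow_le_pow_right₀ hC0 (by norm_num)
  gcongr

theorem Nx_b2 {A0 A β0 Pn Λ ν CF T p : ℝ} (hA0 : 0 < A0) (hA0A : A0 ≤ A) (hβpos : 0 < β0)
    (hΛ : 0 < Λ) (hCF0 : 0 < CF) (hν : 0 < ν) (hT0 : 0 < T) (hp : 0 < p)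
    (h2 : p ≤ 36 * β0 * Pn ^ 2 * T ^ 2) (hP2 : Pn ^ 2 * Λ ^ 2 ≤ CF ^ 2 * ν ^ 2) :
    √(A0 / β0) ≤ 6 * CF * ν * T * √(A / p) / Λ := by
  have hA : 0 < A := by linarith
  have h3 : p * Λ ^ 2 ≤ 36 * β0 * CF ^ 2 * ν ^ 2 * T ^ 2 := by
    calc p * Λ ^ 2 ≤ (36 * β0 * Pn ^ 2 * T ^ 2) * Λ ^ 2 :=
          mul_le_mul_of_nonneg_right h2 (by positivity)
      _ = 36 * β0 * T ^ 2 * (Pn ^ 2 * Λ ^ 2) := by ring
      _ ≤ 36 * β0 * T ^ 2 * (CF ^ 2 * ν ^ 2) := mul_le_mul_of_nonneg_left hP2 (by positivity)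
      _ = _ := by ring
  apply Real.sqrt_le_iff.2
  refine ⟨by positivity, ?_⟩
  have e3 : (6 * CF * ν * T * √(A / p) / Λ) ^ 2 =
      36 * CF ^ 2 * ν ^ 2 * T ^ 2 * (A / p) / Λ ^ 2 := by
    rw [div_pow, mul_pow, Real.sq_sqrt (by positivity)]
    ring
  rw [e3, div_le_div_iff₀ hβpos (by positivity)]
  have e4 : 36 * CF ^ 2 * ν ^ 2 * T ^ 2 * (A / p) * β0 = A * (36 * β0 * CF ^ 2 * ν ^ 2 * T ^ 2) / p := by
    field_simp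
  rw [e4, le_div_iff₀ hp]
  calc A0 * Λ ^ 2 * p ≤ A * Λ ^ 2 * p := by gcongr
    _ = A * (p * Λ ^ 2) := by ring
    _ ≤ _ := mul_le_mul_of_nonneg_left h3 hA.le

theorem Nx_fin {K' R S1 S2 X1 X2 Yc : ℝ} (hK : 0 ≤ K') (hYc : 1 ≤ Yc) (h1 : 0 ≤ X1)
    (h2 : 0 ≤ X2) (hS1 : S1 ≤ K' * Yc * X1) (hS2 : S2 ≤ K' * Yc * X2) (hR : R ≤ 2 + (S1 + S2)) :
    R ≤ (2 + K') * Yc * (1 + X1 + X2) := by
  have e : (2 + K') * Yc * (1 + X1 + X2) =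
      2 * Yc + 2 * (Yc * X1) + 2 * (Yc * X2) + K' * Yc + K' * Yc * X1 + K' * Yc * X2 := by ring
  have a1 : 0 ≤ Yc * X1 := mul_nonneg (by linarith) h1
  have a2 : 0 ≤ Yc * X2 := mul_nonneg (by linarith) h2
  have a3 : 0 ≤ K' * Yc := mul_nonneg hK (by linarith)
  rw [e]
  linarith

theorem Nx_f2 {K CF C0 Ct CL Yh Yc H W ν β Λ T q : ℝ} (hK : 0 ≤ K) (hCF : 1 ≤ CF)
    (hC0 : 1 ≤ C0) (hCt : 1 ≤ Ct) (hCL : 1 ≤ CL) (hYh : 1 ≤ Yh) (hYc : Yc = Yh * Yh) (hν : 0 < ν)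
    (hW : 0 < W) (hΛ : 0 < Λ) (hT : 0 ≤ T) (hβ : β ≤ 6 * CF * ν * T * √q / Λ) :
    2 + 4 * (K + 2) * H ^ 2 / ν * (Ct * Yh * (2 * (3 * CF * ν / W) + 2 * β * (CL * Yh))) ≤
      (2 + 500 * (K + 2) * CF ^ 2 * C0 ^ 2 * Ct * CL) * Yc * (1 + H ^ 2 / W + H ^ 2 * T * √q / Λ) := by
  have hYc1 : 1 ≤ Yc := by rw [hYc]; nlinarith
  have hYhc : Yh ≤ Yc := by rw [hYc]; nlinarith
  have hC02 : 1 ≤ C0 ^ 2 := one_le_pow₀ hC0
  have hq : 0 ≤ √q := Real.sqrt_nonneg _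
  have g1 : 4 * (K + 2) * H ^ 2 / ν * (Ct * Yh * (2 * (3 * CF * ν / W) + 2 * β * (CL * Yh))) ≤
      4 * (K + 2) * H ^ 2 / ν * (Ct * Yh * (2 * (3 * CF * ν / W) +
        2 * (6 * CF * ν * T * √q / Λ) * (CL * Yh))) := by
    have h1 : 2 * β * (CL * Yh) ≤ 2 * (6 * CF * ν * T * √q / Λ) * (CL * Yh) :=
      mul_le_mul_of_nonneg_right (by linarith) (by positivity)
    have h2 : 2 * (3 * CF * ν / W) + 2 * β * (CL * Yh) ≤ 2 * (3 * CF * ν / W) +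
        2 * (6 * CF * ν * T * √q / Λ) * (CL * Yh) := by linarith
    exact mul_le_mul_of_nonneg_left (mul_le_mul_of_nonneg_left h2 (by positivity)) (by positivity)
  have g2 : 4 * (K + 2) * H ^ 2 / ν * (Ct * Yh * (2 * (3 * CF * ν / W) +
        2 * (6 * CF * ν * T * √q / Λ) * (CL * Yh))) =
      24 * (K + 2) * CF * Ct * Yh * (H ^ 2 / W) +
      48 * (K + 2) * CF * Ct * CL * Yc * (H ^ 2 * T * √q / Λ) := by
    rw [hYc]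
    field_simp
    ring
  refine Nx_fin (S1 := 24 * (K + 2) * CF * Ct * Yh * (H ^ 2 / W))
    (S2 := 48 * (K + 2) * CF * Ct * CL * Yc * (H ^ 2 * T * √q / Λ)) (by positivity) hYc1 (by positivity)
    (by positivity) ?_ ?_ (by rw [← g2]; linarith)
  · refine mul_le_mul_of_nonneg_right ?_ (by positivity)
    have h3 : 1 ≤ CF * C0 ^ 2 * CL := by
      have : 1 ≤ CF * C0 ^ 2 := by nlinarith
      nlinarith
    calc 24 * (K + 2) * CF * Ct * Yh ≤ 24 * (K + 2) * CF * Ct * Yc := by gcongr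
      _ = 24 * ((K + 2) * CF * Ct * Yc) * 1 := by ring
      _ ≤ 500 * ((K + 2) * CF * Ct * Yc) * (CF * C0 ^ 2 * CL) := by gcongr; norm_num
      _ = _ := by ring
  · refine mul_le_mul_of_nonneg_right ?_ (by positivity)
    have h3 : 1 ≤ CF * C0 ^ 2 := by nlinarith
    calc 48 * (K + 2) * CF * Ct * CL * Yc = 48 * ((K + 2) * CF * Ct * CL * Yc) * 1 := by ring
      _ ≤ 500 * ((K + 2) * CF * Ct * CL * Yc) * (CF * C0 ^ 2) := by gcongr; norm_num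
      _ = _ := by ring

theorem Nx_f1 {K CF C0 Ct CL Yh Yc H W ν β q : ℝ} (hK : 0 ≤ K) (hCF : 1 ≤ CF)
    (hC0 : 1 ≤ C0) (hCt : 1 ≤ Ct) (hCL : 1 ≤ CL) (hYh : 1 ≤ Yh) (hYc : Yc = Yh * Yh) (hν : 0 < ν)
    (hW : 0 < W) (hH : 0 < H) (hq : 0 < q) (hβ : β ≤ 6 * CF * C0 ^ 2 / q) :
    2 + 4 * (K + 2) * H ^ 2 / ν * (3 * CF * ν / W * (Ct * Yh * (1 + β * (4 * H)))) ≤
      (2 + 500 * (K + 2) * CF ^ 2 * C0 ^ 2 * Ct * CL) * Yc * (1 + H ^ 2 / W * (1 + H / q)) := by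
  have hYc1 : 1 ≤ Yc := by rw [hYc]; nlinarith
  have hYhc : Yh ≤ Yc := by rw [hYc]; nlinarith
  have hC02 : 1 ≤ C0 ^ 2 := one_le_pow₀ hC0
  have g1 : 4 * (K + 2) * H ^ 2 / ν * (3 * CF * ν / W * (Ct * Yh * (1 + β * (4 * H)))) ≤
      4 * (K + 2) * H ^ 2 / ν * (3 * CF * ν / W * (Ct * Yh * (1 + 6 * CF * C0 ^ 2 / q * (4 * H)))) := by
    gcongr
  have g2 : 4 * (K + 2) * H ^ 2 / ν * (3 * CF * ν / W * (Ct * Yh * (1 + 6 * CF * C0 ^ 2 / q * (4 * H)))) =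
      12 * (K + 2) * CF * Ct * Yh * (H ^ 2 / W) +
      288 * (K + 2) * CF ^ 2 * C0 ^ 2 * Ct * Yh * (H ^ 2 / W * (H / q)) := by
    field_simp
    ring
  have e : 1 + H ^ 2 / W * (1 + H / q) = 1 + H ^ 2 / W + H ^ 2 / W * (H / q) := by ring
  rw [e]
  refine Nx_fin (S1 := 12 * (K + 2) * CF * Ct * Yh * (H ^ 2 / W))
    (S2 := 288 * (K + 2) * CF ^ 2 * C0 ^ 2 * Ct * Yh * (H ^ 2 / W * (H / q))) (by positivity) hYc1
    (by positivity) (by positivity) ?_ ?_ (by rw [← g2]; linarith)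
  · refine mul_le_mul_of_nonneg_right ?_ (by positivity)
    have h3 : 1 ≤ CF * C0 ^ 2 * CL := by
      have : 1 ≤ CF * C0 ^ 2 := by nlinarith
      nlinarith
    calc 12 * (K + 2) * CF * Ct * Yh ≤ 12 * (K + 2) * CF * Ct * Yc := by gcongr
      _ = 12 * ((K + 2) * CF * Ct * Yc) * 1 := by ring
      _ ≤ 500 * ((K + 2) * CF * Ct * Yc) * (CF * C0 ^ 2 * CL) := by gcongr; norm_num
      _ = _ := by ring
  · refine mul_le_mul_of_nonneg_right ?_ (by positivity)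
    calc 288 * (K + 2) * CF ^ 2 * C0 ^ 2 * Ct * Yh
        ≤ 288 * (K + 2) * CF ^ 2 * C0 ^ 2 * Ct * Yc := by gcongr
      _ = 288 * ((K + 2) * CF ^ 2 * C0 ^ 2 * Ct * Yc) * 1 := by ring
      _ ≤ 500 * ((K + 2) * CF ^ 2 * C0 ^ 2 * Ct * Yc) * CL := by gcongr; norm_num
      _ = _ := by ring

theorem Nx_gcd (M : Matrix (Fin 3) (Fin 3) ℤ) (hex : ∃ i j, M i j ≠ 0) : ∃ A0 : ℕ, A0 ≠ 0 ∧
    (∀ i j, (A0 : ℤ) ∣ M i j) ∧ ∀ m : ℕ, (∀ i j, (m : ℤ) ∣ M i j) → m ∣ A0 := by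
  obtain ⟨f, hf⟩ : ∃ f : Fin 3 × Fin 3 → ℕ, ∀ i j, f (i, j) = (M i j).natAbs :=
    ⟨fun q => (M q.1 q.2).natAbs, fun _ _ => rfl⟩
  obtain ⟨A0, hA0⟩ : ∃ A0 : ℕ, A0 = (Finset.univ : Finset (Fin 3 × Fin 3)).gcd f := ⟨_, rfl⟩
  have h1 : ∀ i j, (A0 : ℤ) ∣ M i j := by
    intro i j
    rw [Int.natCast_dvd, ← hf, hA0]
    exact Finset.gcd_dvd (Finset.mem_univ (i, j))
  refine ⟨A0, ?_, h1, ?_⟩
  · intro h
    obtain ⟨i, j, hij⟩ := hex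
    have h2 := h1 i j
    rw [h, Nat.cast_zero, zero_dvd_iff] at h2
    exact hij h2
  · intro m hm
    rw [hA0]
    refine Finset.dvd_gcd fun q _ => ?_
    obtain ⟨i, j⟩ := q
    rw [hf]
    exact Int.natCast_dvd.1 (hm i j)

end Pool.Agent.PP5Z
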