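import Pool.Agent.PP5Z.DefsA
import Pool.Agent.PP5P.Jc

/-!
# PP5 (D'), `D(x) = 0`: the ternary form
-/

set_option autoImplicit false

namespace Pool.Agent.PP5Z

open Matrix Finset Pool.Agent.PP5 Pool.Agent.PP5B Pool.Agent.PP5P

variable {C ν : ℝ} {l : Fin 4 → ℝ} {v0 f0 : Fin 4 → ℤ} {b e : Fin 3 → Fin 4 → ℤ}
  {G : Matrix (Fin 4) (Fin 4) ℤ}

private theorem Qf_symm (hG : ∀ i j, G i j = G j i) (u w : Fin 4 → ℤ) :
    u ⬝ᵥ (G *ᵥ w) = w ⬝ᵥ (G *ᵥ u) := by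
  simp only [dotProduct, mulVec, Finset.mul_sum]
  rw [Finset.sum_comm]
  refine Finset.sum_congr rfl fun i _ => Finset.sum_congr rfl fun j _ => ?_
  rw [hG j i]
  ring

/-- size 1. -/
theorem Qe_sym (hG : ∀ i j, G i j = G j i) (e : Fin 3 → Fin 4 → ℤ) (a c : Fin 3) :
    Qe G e a c = Qe G e c a := Qf_symm hG (e a) (e c)

/-- size 1.  `e · G e = ∑ G i i (e i)^2 + 2 ∑_{i < j} ..`. -/
theorem Qe_even (hG : ∀ i j, G i j = G j i) (hev : ∀ i, (2 : ℤ) ∣ G i i) (e : Fin 3 → Fin 4 → ℤ)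
    (a : Fin 3) : (2 : ℤ) ∣ Qe G e a a := by
  obtain ⟨g0, h0⟩ := hev 0
  obtain ⟨g1, h1⟩ := hev 1
  obtain ⟨g2, h2⟩ := hev 2
  obtain ⟨g3, h3⟩ := hev 3
  have h10 := hG 1 0
  have h20 := hG 2 0
  have h30 := hG 3 0
  have h21 := hG 2 1
  have h31 := hG 3 1
  have h32 := hG 3 2
  show (2 : ℤ) ∣ e a ⬝ᵥ (G *ᵥ e a)
  simp only [dotProduct, mulVec, Fin.sum_univ_four]
  rw [h0, h1, h2, h3, h10, h20, h30, h21, h31, h32]
  refine ⟨g0 * e a 0 ^ 2 + g1 * e a 1 ^ 2 + g2 * e a 2 ^ 2 + g3 * e a 3 ^ 2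
    + G 0 1 * e a 0 * e a 1 + G 0 2 * e a 0 * e a 2 + G 0 3 * e a 0 * e a 3
    + G 1 2 * e a 1 * e a 2 + G 1 3 * e a 1 * e a 3 + G 2 3 * e a 2 * e a 3, ?_⟩
  ring

/-- size 2.  `F.dec v`, `F.dec w` and `G v0 = 0` (`v0 · G w = 0` by symmetry). -/
theorem Qe_form (hG : ∀ i j, G i j = G j i) (F : Fr C l ν v0 b f0 e) (h0 : G *ᵥ v0 = 0)
    (v w : Fin 4 → ℤ) : v ⬝ᵥ (G *ᵥ w) = (fun a => b a ⬝ᵥ v) ⬝ᵥ (Qe G e *ᵥ fun a => b a ⬝ᵥ w) := by
  have h2 : ∀ w : Fin 4 → ℤ, G *ᵥ w = (b 0 ⬝ᵥ w) • (G *ᵥ e 0) + (b 1 ⬝ᵥ w) • (G *ᵥ e 1)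
      + (b 2 ⬝ᵥ w) • (G *ᵥ e 2) := by
    intro w
    conv_lhs => rw [F.dec w]
    rw [Fin.sum_univ_three]
    simp only [Matrix.mulVec_add, Matrix.mulVec_smul, h0, smul_zero, add_zero]
  have h3 : ∀ u w : Fin 4 → ℤ, u ⬝ᵥ (G *ᵥ w) = (b 0 ⬝ᵥ w) * (u ⬝ᵥ (G *ᵥ e 0))
      + (b 1 ⬝ᵥ w) * (u ⬝ᵥ (G *ᵥ e 1)) + (b 2 ⬝ᵥ w) * (u ⬝ᵥ (G *ᵥ e 2)) := by
    intro u w
    conv_lhs => rw [h2 w]
    simp only [dotProduct_add, dotProduct_smul, smul_eq_mul]
  have h4 : ∀ c, v ⬝ᵥ (G *ᵥ e c) = (b 0 ⬝ᵥ v) * Qe G e 0 c + (b 1 ⬝ᵥ v) * Qe G e 1 c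
      + (b 2 ⬝ᵥ v) * Qe G e 2 c := by
    intro c
    rw [Qf_symm hG v (e c), h3 (e c) v, Qe_sym hG e 0 c, Qe_sym hG e 1 c, Qe_sym hG e 2 c]
    rfl
  rw [h3 v w, h4 0, h4 1, h4 2]
  generalize Qe G e = Q
  generalize hbv : (fun a => b a ⬝ᵥ v) = x
  generalize hbw : (fun a => b a ⬝ᵥ w) = y
  have e0 : ∀ a, b a ⬝ᵥ v = x a := fun a => congrFun hbv a
  have e1 : ∀ a, b a ⬝ᵥ w = y a := fun a => congrFun hbw a
  simp only [e0, e1]
  simp only [dotProduct, mulVec, Fin.sum_univ_three]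
  ring

/-- size 1.  `Qe_form` for unit vectors (`b a ⬝ᵥ Pi.single i 1 = b a i`). -/
theorem G_eq (hG : ∀ i j, G i j = G j i) (F : Fr C l ν v0 b f0 e) (h0 : G *ᵥ v0 = 0) (i j : Fin 4) :
    G i j = ∑ a, ∑ c, b a i * Qe G e a c * b c j := by
  have h := Qe_form hG F h0 (Pi.single i 1) (Pi.single j 1)
  have e1 : (Pi.single i 1 : Fin 4 → ℤ) ⬝ᵥ (G *ᵥ Pi.single j 1) = G i j := by
    simp
  have e2 : ∀ (k : Fin 4) (a : Fin 3), b a ⬝ᵥ (Pi.single k 1 : Fin 4 → ℤ) = b a k := by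
    intro k a
    simp
  rw [← e1, h]
  simp only [e2]
  simp only [dotProduct, mulVec, Finset.mul_sum]
  refine Finset.sum_congr rfl fun a _ => Finset.sum_congr rfl fun c _ => ?_
  ring

private theorem Qf_D (q : Fin 3 → Fin 3 → ℤ) (hq : ∀ a c, q a c = q c a) :
    (syR (q 0 0) (q 0 1) (q 0 2) 0 (q 1 1) (q 1 2) 0 (q 2 2) 0 0).adjugate
      = syR 0 0 0 0 0 0 0 0 0 (Matrix.of q).det := by
  rw [syR_adj, Matrix.det_fin_three]
  simp only [Matrix.of_apply]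
  rw [hq 1 0, hq 2 0, hq 2 1]
  ext x y
  fin_cases x <;> fin_cases y <;> simp [syR]
  ring

/-- size 3.  Let `M` be the matrix with the rows `b 0, b 1, b 2, f0` (as a map `Fin 4 → Fin 4 → ℤ`), `N` the matrix with the columns `e 0, e 1, e 2, v0`
minus corrections: `F.dec` says `N * M = 1` for `N = (e 0, e 1, e 2, v0)` as columns; so `det M * det N = 1`, `(det M)^2 = 1`.  `G_eq` says
`G = Mᵀ * D * M`, `D = fromBlocks-like (Qe, 0; 0, 0)` (4 x 4 with last row and column `0`).  `adjugate_mul_distrib`: `adj G = adj M * adj D * adj Mᵀ`;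
`adj D = det (Qe) * E_33` (explicit 4 x 4, `adjugate_fin_succ_eq_det_submatrix` or `PP5P.syR_adj`); `adj M = det M • N` (`M⁻¹ = N`), so
`adj G = det Q * (N e3) (N e3)ᵀ = det Q * v0 v0ᵀ`. -/
theorem adj_eq (hG : ∀ i j, G i j = G j i) (F : Fr C l ν v0 b f0 e) (h0 : G *ᵥ v0 = 0) (i j : Fin 4) :
    G.adjugate i j = (Qe G e).det * (v0 i * v0 j) := by
  set M : Matrix (Fin 4) (Fin 4) ℤ := Matrix.of ![b 0, b 1, b 2, f0] with hM
  set N : Matrix (Fin 4) (Fin 4) ℤ := (Matrix.of ![e 0, e 1, e 2, v0])ᵀ with hN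
  set q : Fin 3 → Fin 3 → ℤ := fun a c => Qe G e a c with hq
  set D : Matrix (Fin 4) (Fin 4) ℤ :=
    syR (q 0 0) (q 0 1) (q 0 2) 0 (q 1 1) (q 1 2) 0 (q 2 2) 0 0 with hD
  have hNM : N * M = 1 := by
    ext k j
    have h := congrFun (F.dec (Pi.single j 1)) k
    have e2 : ∀ (a : Fin 3), b a ⬝ᵥ (Pi.single j 1 : Fin 4 → ℤ) = b a j := by
      intro a
      simp
    have e3 : f0 ⬝ᵥ (Pi.single j 1 : Fin 4 → ℤ) = f0 j := by simp
    rw [Fin.sum_univ_three] at h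
    simp only [e2, e3, Pi.add_apply, Pi.smul_apply, smul_eq_mul] at h
    rw [Matrix.mul_apply, Fin.sum_univ_four, Matrix.one_apply]
    have e4 : (Pi.single j 1 : Fin 4 → ℤ) k = if k = j then 1 else 0 := by
      rw [Pi.single_apply]
    rw [e4] at h
    rw [h]
    simp [hM, hN]
    ring
  have hMN : M * N = 1 := mul_eq_one_comm.1 hNM
  have hadjM : M.adjugate = M.det • N := by
    calc M.adjugate = M.adjugate * (M * N) := by rw [hMN, mul_one]
      _ = (M.adjugate * M) * N := by rw [Matrix.mul_assoc]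
      _ = M.det • N := by rw [Matrix.adjugate_mul, Matrix.smul_mul, Matrix.one_mul]
  have hdet : M.det * M.det = 1 := by
    have h1 : M.det * N.det = 1 := by rw [← Matrix.det_mul, hMN, Matrix.det_one]
    rcases Int.isUnit_iff.1 (IsUnit.of_mul_eq_one _ h1) with h | h <;> rw [h] <;> norm_num
  have hqs : ∀ a c, q a c = q c a := fun a c => Qe_sym hG e a c
  have hGM : G = Mᵀ * D * M := by
    ext i j
    rw [G_eq hG F h0 i j]
    have hq' : ∀ a c, Qe G e a c = q a c := fun _ _ => rfl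
    simp only [hq', Matrix.mul_apply, Fin.sum_univ_four, Fin.sum_univ_three, Matrix.transpose_apply]
    rw [hqs 1 0, hqs 2 0, hqs 2 1]
    simp [hM, hD, syR]
    ring
  have hadjD : D.adjugate = syR 0 0 0 0 0 0 0 0 0 (Qe G e).det := Qf_D q hqs
  have hmain : G.adjugate = N * D.adjugate * Nᵀ := by
    have h1 : G.adjugate = M.adjugate * (D.adjugate * Mᵀ.adjugate) := by
      conv_lhs => rw [hGM]
      rw [Matrix.adjugate_mul_distrib, Matrix.adjugate_mul_distrib]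
    rw [h1, ← Matrix.adjugate_transpose, hadjM, Matrix.transpose_smul, Matrix.mul_smul,
      Matrix.mul_smul, Matrix.smul_mul, smul_smul, hdet, one_smul, Matrix.mul_assoc]
  rw [hmain, hadjD]
  simp only [Matrix.mul_apply, Fin.sum_univ_four, Matrix.transpose_apply]
  simp [hN, syR]
  ring

private theorem Qf_minor (g : Fin 4 → Fin 4 → ℤ) (b : Fin 3 → Fin 4 → ℤ) (Q : Matrix (Fin 3) (Fin 3) ℤ)
    (i j k k' : Fin 4) (hg : ∀ i j, g i j = ∑ a, ∑ c, b a i * Q a c * b c j) :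
    g i k * g j k' - g i k' * g j k =
      ∑ a, ∑ c, (![b 1 i * b 2 j - b 2 i * b 1 j, b 2 i * b 0 j - b 0 i * b 2 j,
        b 0 i * b 1 j - b 1 i * b 0 j] a * Q.adjugate c a *
        ![b 1 k * b 2 k' - b 2 k * b 1 k', b 2 k * b 0 k' - b 0 k * b 2 k',
        b 0 k * b 1 k' - b 1 k * b 0 k'] c) := by
  rw [hg i k, hg j k', hg i k', hg j k, Matrix.adjugate_fin_three]
  simp only [Fin.sum_univ_three, Fin.isValue, Matrix.of_apply, Matrix.cons_val', Matrix.cons_val_zero,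
    Matrix.cons_val_one, Matrix.cons_val]
  generalize b 0 i = b0i, b 1 i = b1i, b 2 i = b2i, b 0 j = b0j, b 1 j = b1j, b 2 j = b2j,
    b 0 k = b0k, b 1 k = b1k, b 2 k = b2k, b 0 k' = b0l, b 1 k' = b1l, b 2 k' = b2l
  generalize Q 0 0 = q00, Q 0 1 = q01, Q 0 2 = q02, Q 1 0 = q10, Q 1 1 = q11, Q 1 2 = q12,
    Q 2 0 = q20, Q 2 1 = q21, Q 2 2 = q22
  ring

/-- size 2.  Cauchy-Binet for `G = bᵀ Q b`: a `2 x 2` minor of `G` is the sum over `a, a', c, c'` (e.g. all ordered pairs `a < a'`, `c < c'`) of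
minors of `b`, `Q`, `b`; a direct `ring` proof after `Fin.sum_univ_three` works.  The `2 x 2` minors of a `3 x 3` matrix are the entries of
its adjugate up to sign (`Matrix.adjugate_fin_three`). -/
theorem mr_dvd (hG : ∀ i j, G i j = G j i) (F : Fr C l ν v0 b f0 e) (h0 : G *ᵥ v0 = 0) (n : ℤ)
    (hn : ∀ a c, n ∣ (Qe G e).adjugate a c) (i j k k' : Fin 4) : n ∣ mr G i j k k' := by
  unfold mr
  rw [Qf_minor (fun i j => G i j) b (Qe G e) i j k k' (fun i j => G_eq hG F h0 i j)]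
  exact Finset.dvd_sum fun a _ => Finset.dvd_sum fun c _ =>
    Dvd.dvd.mul_right (Dvd.dvd.mul_left (hn c a) _) _

/-- size 2.  From the same formula: each minor of `b` with rows `a ≠ a'` is at most `2 nw_a nw_a' l i l j` (`|b a i| ≤ nw (b a) * l i`:
`nw_le_iff`), and `nw_a nw_a' = (∏ nw) * r_c`, `c` the third index; so the nine terms give `9 * 4`. -/
theorem mr_le (hG : ∀ i j, G i j = G j i) (F : Fr C l ν v0 b f0 e) (hl : ∀ i, 0 < l i)
    (h0 : G *ᵥ v0 = 0) {β : ℝ} (hβ : ∀ a c, |(((Qe G e).adjugate a c : ℤ) : ℝ)| * rr l b a * rr l b c ≤ β)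
    (i j k k' : Fin 4) : |((mr G i j k k' : ℤ) : ℝ)| ≤
      36 * β * (nw l (b 0) * nw l (b 1) * nw l (b 2)) ^ 2 * (l i * l j * l k * l k') := by
  have hb : ∀ a i, |(b a i : ℝ)| ≤ nw l (b a) * l i := by
    intro a i
    exact (nw_le_iff hl (v := b a) (norm_nonneg _)).1 le_rfl i
  have hnw : ∀ a, 0 < nw l (b a) := by
    intro a
    have h1 : ∃ i, b a i ≠ 0 := by
      by_contra hcon
      push Not at hcon
      exact F.pb.ne a (funext hcon)
    obtain ⟨i, hi⟩ := h1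
    have h2 : 0 < |(b a i : ℝ)| := by
      have : (b a i : ℝ) ≠ 0 := by exact_mod_cast hi
      exact abs_pos.2 this
    have h3 := lt_of_lt_of_le h2 (hb a i)
    exact pos_of_mul_pos_left h3 (hl i).le
  set P : ℝ := nw l (b 0) * nw l (b 1) * nw l (b 2) with hP
  have hP0 : 0 < P := mul_pos (mul_pos (hnw 0) (hnw 1)) (hnw 2)
  -- minors of b
  have hmin2 : ∀ (a a' : Fin 3) (i j : Fin 4),
      |(b a i : ℝ) * b a' j - b a' i * b a j| ≤ 2 * (nw l (b a) * nw l (b a') * (l i * l j)) := by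
    intro a a' i j
    have h1 : |(b a i : ℝ) * b a' j| ≤ (nw l (b a) * l i) * (nw l (b a') * l j) := by
      rw [abs_mul]
      exact mul_le_mul (hb a i) (hb a' j) (abs_nonneg _) (mul_nonneg (hnw a).le (hl i).le)
    have h2 : |(b a' i : ℝ) * b a j| ≤ (nw l (b a') * l i) * (nw l (b a) * l j) := by
      rw [abs_mul]
      exact mul_le_mul (hb a' i) (hb a j) (abs_nonneg _) (mul_nonneg (hnw a').le (hl i).le)
    calc |(b a i : ℝ) * b a' j - b a' i * b a j| ≤ |(b a i : ℝ) * b a' j| + |(b a' i : ℝ) * b a j| :=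
          abs_sub _ _
      _ ≤ (nw l (b a) * l i) * (nw l (b a') * l j) + (nw l (b a') * l i) * (nw l (b a) * l j) :=
          add_le_add h1 h2
      _ = _ := by ring
  set p : Fin 4 → Fin 4 → Fin 3 → ℤ := fun i j => ![b 1 i * b 2 j - b 2 i * b 1 j,
    b 2 i * b 0 j - b 0 i * b 2 j, b 0 i * b 1 j - b 1 i * b 0 j] with hp
  have hpb : ∀ (i j : Fin 4) (a : Fin 3), |((p i j a : ℤ) : ℝ)| ≤ 2 * (P * rr l b a) * (l i * l j) := by
    intro i j a
    have hr : ∀ a, rr l b a = (nw l (b a))⁻¹ := fun a => by unfold rr; rw [one_div]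
    have n0 := (hnw 0).ne'
    have n1 := (hnw 1).ne'
    have n2 := (hnw 2).ne'
    fin_cases a
    · have h := hmin2 1 2 i j
      have e1 : P * rr l b 0 = nw l (b 1) * nw l (b 2) := by
        rw [hr, hP]; field_simp
      show |((b 1 i * b 2 j - b 2 i * b 1 j : ℤ) : ℝ)| ≤ 2 * (P * rr l b 0) * (l i * l j)
      rw [e1]
      push_cast
      calc _ ≤ _ := h
        _ = _ := by ring
    · have h := hmin2 2 0 i j
      have e1 : P * rr l b 1 = nw l (b 2) * nw l (b 0) := by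
        rw [hr, hP]; field_simp
      show |((b 2 i * b 0 j - b 0 i * b 2 j : ℤ) : ℝ)| ≤ 2 * (P * rr l b 1) * (l i * l j)
      rw [e1]
      push_cast
      calc _ ≤ _ := h
        _ = _ := by ring
    · have h := hmin2 0 1 i j
      have e1 : P * rr l b 2 = nw l (b 0) * nw l (b 1) := by
        rw [hr, hP]; field_simp
      show |((b 0 i * b 1 j - b 1 i * b 0 j : ℤ) : ℝ)| ≤ 2 * (P * rr l b 2) * (l i * l j)
      rw [e1]
      push_cast
      calc _ ≤ _ := h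
        _ = _ := by ring
  have hrr : ∀ a, 0 < rr l b a := fun a => by unfold rr; exact one_div_pos.2 (hnw a)
  have hmr : mr G i j k k' = ∑ a, ∑ c, (p i j a * (Qe G e).adjugate c a * p k k' c) := by
    unfold mr
    exact Qf_minor (fun i j => G i j) b (Qe G e) i j k k' (fun i j => G_eq hG F h0 i j)
  have hterm : ∀ a c, |((p i j a * (Qe G e).adjugate c a * p k k' c : ℤ) : ℝ)| ≤
      4 * β * P ^ 2 * (l i * l j * l k * l k') := by
    intro a c
    push_cast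
    rw [abs_mul, abs_mul]
    have h1 := hpb i j a
    have h2 := hpb k k' c
    have h3 := hβ c a
    have hll : 0 ≤ l i * l j := mul_nonneg (hl i).le (hl j).le
    have hll' : 0 ≤ l k * l k' := mul_nonneg (hl k).le (hl k').le
    have hq0 : 0 ≤ |(((Qe G e).adjugate c a : ℤ) : ℝ)| := abs_nonneg _
    calc |(p i j a : ℝ)| * |(((Qe G e).adjugate c a : ℤ) : ℝ)| * |(p k k' c : ℝ)|
        ≤ (2 * (P * rr l b a) * (l i * l j)) * |(((Qe G e).adjugate c a : ℤ) : ℝ)|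
          * (2 * (P * rr l b c) * (l k * l k')) := by
          refine mul_le_mul (mul_le_mul_of_nonneg_right h1 hq0) h2 (abs_nonneg _) ?_
          refine mul_nonneg (mul_nonneg (mul_nonneg (by norm_num) ?_) hll) hq0
          exact mul_nonneg hP0.le (hrr a).le
      _ = (4 * P ^ 2 * (l i * l j * l k * l k')) *
          (|(((Qe G e).adjugate c a : ℤ) : ℝ)| * rr l b c * rr l b a) := by ring
      _ ≤ (4 * P ^ 2 * (l i * l j * l k * l k')) * β := by
          refine mul_le_mul_of_nonneg_left h3 ?_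
          refine mul_nonneg (by positivity) ?_
          exact mul_nonneg (mul_nonneg hll (hl k).le) (hl k').le
      _ = _ := by ring
  rw [hmr]
  push_cast
  calc |∑ a, ∑ c, (p i j a : ℝ) * (((Qe G e).adjugate c a : ℤ) : ℝ) * (p k k' c : ℝ)|
      ≤ ∑ a, |∑ c, (p i j a : ℝ) * (((Qe G e).adjugate c a : ℤ) : ℝ) * (p k k' c : ℝ)| :=
        Finset.abs_sum_le_sum_abs _ _
    _ ≤ ∑ a, ∑ c, |(p i j a : ℝ) * (((Qe G e).adjugate c a : ℤ) : ℝ) * (p k k' c : ℝ)| :=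
        Finset.sum_le_sum fun a _ => Finset.abs_sum_le_sum_abs _ _
    _ ≤ ∑ _a : Fin 3, ∑ _c : Fin 3, 4 * β * P ^ 2 * (l i * l j * l k * l k') := by
        refine Finset.sum_le_sum fun a _ => Finset.sum_le_sum fun c _ => ?_
        have := hterm a c
        push_cast at this
        exact this
    _ = 36 * β * P ^ 2 * (l i * l j * l k * l k') := by
        simp only [Finset.sum_const, Finset.card_univ, Fintype.card_fin, nsmul_eq_mul]
        push_cast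
        ring

end Pool.Agent.PP5Z
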