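import Pool.Agent.PP5Z.Frm
import Pool.Agent.PP5Z.Qf
import Pool.Agent.PP5Z.Frb
import Pool.Agent.PP5Z.Fib
import Pool.Agent.PP5Z.NxR

/-!
# PP5 (D'), `D(x) = 0`: the bound for one `x`, the fibres
-/

set_option autoImplicit false

namespace Pool.Agent.PP5Z

open Matrix Finset Pool.Agent.PP5 Pool.Agent.PP5B Pool.Agent.PP5P

theorem Nx_line {C ν : ℝ} {l : Fin 4 → ℝ} {v0 f0 : Fin 4 → ℤ} {b e : Fin 3 → Fin 4 → ℤ}
    (F : Fr C l ν v0 b f0 e) {v : Fin 4 → ℤ} (hv : Pr4 v) (h : ∀ a, b a ⬝ᵥ v = 0) :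
    v = v0 ∨ v = -v0 := by
  have h1 := F.dec v
  simp only [h, zero_smul, Finset.sum_const_zero, zero_add] at h1
  have h2 : (f0 ⬝ᵥ v).natAbs = 1 := by
    by_contra hne
    obtain ⟨p, hp, hpd⟩ := Nat.exists_prime_and_dvd hne
    refine hv p hp fun i => ?_
    rw [h1]
    exact Dvd.dvd.mul_right (Int.natCast_dvd.2 hpd) _
  rcases Int.natAbs_eq (f0 ⬝ᵥ v) with h3 | h3
  · left
    rw [h2] at h3
    rw [h1, h3]
    simp
  · right
    rw [h2] at h3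
    rw [h1, h3]
    simp

/-- the height of `z` -/
noncomputable def Nx_phi (r : Fin 3 → ℝ) (z : Fin 3 → ℤ) : ℝ :=
  Finset.univ.sup' ⟨0, Finset.mem_univ _⟩ fun a : Fin 3 => |(z a : ℝ)| * r a

theorem Nx_phi_le {r : Fin 3 → ℝ} {z : Fin 3 → ℤ} {h : ℝ} :
    Nx_phi r z ≤ h ↔ ∀ a, |(z a : ℝ)| * r a ≤ h := by
  unfold Nx_phi
  rw [Finset.sup'_le_iff]
  simp

theorem Nx_phi_at (r : Fin 3 → ℝ) (z : Fin 3 → ℤ) : ∃ a, Nx_phi r z = |(z a : ℝ)| * r a := by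
  obtain ⟨a, -, h⟩ := Finset.exists_mem_eq_sup' (s := (Finset.univ : Finset (Fin 3)))
    ⟨0, Finset.mem_univ _⟩ (fun a : Fin 3 => |(z a : ℝ)| * r a)
  exact ⟨a, h⟩

theorem Nx_core {C ν K H W B β L : ℝ} {l : Fin 4 → ℝ} {v0 f0 : Fin 4 → ℤ}
    {b e : Fin 3 → Fin 4 → ℤ} {G : Matrix (Fin 4) (Fin 4) ℤ}
    (hG : ∀ i j, G i j = G j i) (F : Fr C l ν v0 b f0 e) (hC : 1 ≤ C) (h0 : G *ᵥ v0 = 0)
    (hl : ∀ i, 0 < l i) (hν : 0 < ν) (hH : 0 < H) (hK0 : 0 ≤ K) (hK : ν ≤ K * H) (hW : 0 < W)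
    (hB : 0 ≤ B) (hβ : 0 ≤ β) (hL0 : 0 ≤ L) (hL : Real.logb 2 (12 * C * ν * H / W) + 1 ≤ L)
    (hN : ∀ h : ℝ, 0 < h → ∀ S : Finset (Fin 3 → ℤ),
      (∀ z ∈ S, Pr3 z ∧ z ⬝ᵥ (Qe G e *ᵥ z) = 0 ∧ ∀ i, |(z i : ℝ)| * rr l b i ≤ h) →
      (S.card : ℝ) ≤ B * (1 + β * h))
    (V : Finset (Fin 4 → ℤ)) (hV : ∀ v ∈ V, Pr4 v ∧ v ⬝ᵥ (G *ᵥ v) = 0 ∧
      (∀ i, |(v i : ℝ)| * l i ≤ H) ∧
      ∀ w : Fin 4 → ℤ, w ⬝ᵥ (G *ᵥ w) = 0 → v ⬝ᵥ (G *ᵥ w) = 0 → (∃ i j, v i * w j ≠ v j * w i) →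
        ∃ i j, W ≤ |((v i * w j - v j * w i : ℤ) : ℝ)| * l i * l j) :
    (V.card : ℝ) ≤ 2 + 4 * (K + 2) * H ^ 2 / ν * (3 * C * ν / W * (B * (1 + β * (4 * H)))) ∧
    (V.card : ℝ) ≤ 2 + 4 * (K + 2) * H ^ 2 / ν * (B * (2 * (3 * C * ν / W) + 2 * β * L)) := by
  classical
  have hC0 : 0 < C := by linarith
  set V1 := V.filter (fun v => ∀ a, b a ⬝ᵥ v = 0) with hV1
  set V2 := V.filter (fun v => ¬ ∀ a, b a ⬝ᵥ v = 0) with hV2
  have hsplit : V.card = V1.card + V2.card :=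
    (Finset.card_filter_add_card_filter_not (s := V) (fun v => ∀ a, b a ⬝ᵥ v = 0)).symm
  have hV1c : V1.card ≤ 2 := by
    have h1 : V1 ⊆ {v0, -v0} := by
      intro v hv
      obtain ⟨h2, h3⟩ := Finset.mem_filter.mp hv
      rcases Nx_line F (hV v h2).1 h3 with h4 | h4
      · simp [h4]
      · simp [h4]
    exact (Finset.card_le_card h1).trans (Finset.card_le_two)
  have hz : ∀ v, v ∈ V2 → ∃ z : Fin 3 → ℤ, Pr3 z ∧ ∃ g : ℤ, 1 ≤ g ∧ ∀ a, b a ⬝ᵥ v = g * z a := by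
    intro v hv
    obtain ⟨h2, h3⟩ := Finset.mem_filter.mp hv
    have h4 : (fun a => b a ⬝ᵥ v) ≠ 0 := by
      intro h5
      exact h3 fun a => congrFun h5 a
    obtain ⟨g, z, h5, h6, h7⟩ := Nx_prim _ h4
    exact ⟨z, h7, g, h5, h6⟩
  choose! z hz1 hz2 using hz
  set Zs := V2.image z with hZs
  set r := rr l b with hr
  have hr0 : ∀ a, 0 < r a := by
    intro a
    rw [hr]
    unfold rr
    exact one_div_pos.2 (nw_pos hl (F.pb.ne a))
  set hh : ℝ := W / (3 * C * ν) with hhd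
  have hh0 : 0 < hh := by positivity
  have hhinv : 1 / hh = 3 * C * ν / W := by rw [hhd, one_div_div]
  -- the properties of the elements of `Zs`
  have hZ : ∀ w ∈ Zs, Pr3 w ∧ w ⬝ᵥ (Qe G e *ᵥ w) = 0 ∧ Nx_phi r w ≤ 4 * H ∧ hh ≤ Nx_phi r w := by
    intro w hw
    obtain ⟨v, hv, rfl⟩ := Finset.mem_image.mp hw
    obtain ⟨g, hg, hgz⟩ := hz2 v hv
    have hvV := (Finset.mem_filter.mp hv).1
    obtain ⟨hp, hq, hb, hni⟩ := hV v hvV
    have hq2 : z v ⬝ᵥ (Qe G e *ᵥ z v) = 0 := by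
      have h1 := Qe_form hG F h0 v v
      rw [hq] at h1
      have h2 : (fun a => b a ⬝ᵥ v) = g • z v := by
        funext a
        rw [hgz a]
        rfl
      rw [h2, mulVec_smul, smul_dotProduct, dotProduct_smul, smul_eq_mul, smul_eq_mul] at h1
      have h3 : g ≠ 0 := by omega
      have h4 := (mul_eq_zero.1 h1.symm).resolve_left h3
      exact (mul_eq_zero.1 h4).resolve_left h3
    have hne : z v ≠ 0 := by
      intro h1
      obtain ⟨j, hj⟩ := hz1 v hv 2 Nat.prime_two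
      apply hj
      rw [h1]
      exact dvd_zero _
    refine ⟨hz1 v hv, hq2, ?_, ?_⟩
    · rw [Nx_phi_le]
      intro a
      have h1 := z_le F hl hb a
      rw [hgz a] at h1
      push_cast at h1
      rw [abs_mul] at h1
      have h2 : (1 : ℝ) ≤ |(g : ℝ)| := by
        rw [abs_of_nonneg (by exact_mod_cast (by omega : (0 : ℤ) ≤ g))]
        exact_mod_cast hg
      have h3 : 0 ≤ |(z v a : ℝ)| * r a := mul_nonneg (abs_nonneg _) (hr0 a).le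
      calc |(z v a : ℝ)| * r a ≤ |(g : ℝ)| * (|(z v a : ℝ)| * r a) := le_mul_of_one_le_left h3 h2
        _ = |(g : ℝ)| * |(z v a : ℝ)| * r a := by ring
        _ ≤ _ := h1
    · obtain ⟨w, hw1, hw2, hw3, hw4⟩ := ni_w hG F h0 hp hq hg hgz hne
      obtain ⟨i, j, hij⟩ := hni w hw1 hw2 hw3
      rw [hw4 i j] at hij
      have h1 := wedge_le F hl hC0.le hν (z v) (h := Nx_phi r (z v)) (Nx_phi_le.1 le_rfl) j i
      rw [hhd, div_le_iff₀ (by positivity)]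
      calc W ≤ _ := hij
        _ = |((v0 j * (∑ a, z v a • e a) i - v0 i * (∑ a, z v a • e a) j : ℤ) : ℝ)| * (l j * l i) := by
            ring
        _ ≤ 3 * C * ν * Nx_phi r (z v) := h1
        _ = _ := by ring
  have hZpos : ∀ w ∈ Zs, 0 < Nx_phi r w := fun w hw => lt_of_lt_of_le hh0 (hZ w hw).2.2.2
  -- the fibres
  have hfib : ∀ w ∈ Zs, ((V2.filter fun v => z v = w).card : ℝ) ≤
      4 * (K + 2) * H ^ 2 / ν * (1 / Nx_phi r w) := by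
    intro w hw
    obtain ⟨a, ha⟩ := Nx_phi_at r w
    have h1 := fib_card F hl hν hH hK (hZpos w hw) (z := w) ⟨a, ha.le⟩ (V2.filter fun v => z v = w) (by
      intro v hv
      obtain ⟨h2, h3⟩ := Finset.mem_filter.mp hv
      refine ⟨(hV v (Finset.mem_filter.mp h2).1).2.2.1, ?_⟩
      obtain ⟨g, hg, hgz⟩ := hz2 v h2
      exact ⟨g, hg, fun a => by rw [← h3]; exact hgz a⟩)
    refine h1.trans (le_of_eq ?_)
    have := (hZpos w hw).ne'
    field_simp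
  have hV2c : (V2.card : ℝ) ≤ 4 * (K + 2) * H ^ 2 / ν * ∑ w ∈ Zs, 1 / Nx_phi r w := by
    rw [Finset.card_eq_sum_card_image z V2, Nat.cast_sum, Finset.mul_sum]
    exact Finset.sum_le_sum hfib
  have hVc : (V.card : ℝ) ≤ 2 + 4 * (K + 2) * H ^ 2 / ν * ∑ w ∈ Zs, 1 / Nx_phi r w := by
    rw [hsplit, Nat.cast_add]
    have : (V1.card : ℝ) ≤ 2 := by exact_mod_cast hV1c
    linarith
  have hco : 0 ≤ 4 * (K + 2) * H ^ 2 / ν := by positivity
  have hcount : ∀ h : ℝ, 0 < h → ((Zs.filter fun w => Nx_phi r w ≤ h).card : ℝ) ≤ B * (1 + β * h) := by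
    intro h hh
    refine hN h hh _ fun w hw => ?_
    obtain ⟨h2, h3⟩ := Finset.mem_filter.mp hw
    obtain ⟨h4, h5, -, -⟩ := hZ w h2
    exact ⟨h4, h5, Nx_phi_le.1 h3⟩
  constructor
  · refine hVc.trans (add_le_add le_rfl (mul_le_mul_of_nonneg_left ?_ hco))
    have h1 : ∑ w ∈ Zs, 1 / Nx_phi r w ≤ ∑ _w ∈ Zs, 3 * C * ν / W := by
      refine Finset.sum_le_sum fun w hw => ?_
      rw [← hhinv]
      exact one_div_le_one_div_of_le hh0 (hZ w hw).2.2.2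
    refine h1.trans ?_
    rw [Finset.sum_const, nsmul_eq_mul, mul_comm]
    refine mul_le_mul_of_nonneg_left ?_ (by positivity)
    have h2 := hcount (4 * H) (by positivity)
    rwa [Finset.filter_true_of_mem fun w hw => (hZ w hw).2.2.1] at h2
  · refine hVc.trans (add_le_add le_rfl (mul_le_mul_of_nonneg_left ?_ hco))
    rcases Finset.eq_empty_or_nonempty Zs with he | ⟨w0, hw0⟩
    · rw [he, Finset.sum_empty]
      positivity
    have hle : hh ≤ 4 * H := (hZ w0 hw0).2.2.2.trans (hZ w0 hw0).2.2.1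
    have h1 := dya_sum Zs (Nx_phi r) hh0 hle hB hβ (fun w hw => ⟨(hZ w hw).2.2.2, (hZ w hw).2.2.1⟩)
      (fun h hh _ => hcount h hh)
    refine h1.trans (mul_le_mul_of_nonneg_left ?_ hB)
    have e1 : 2 / hh = 2 * (3 * C * ν / W) := by rw [← hhinv]; ring
    have e2 : 4 * H / hh = 12 * C * ν * H / W := by
      rw [hhd]
      field_simp
      ring
    rw [e1, e2]
    have : 2 * β * (Real.logb 2 (12 * C * ν * H / W) + 1) ≤ 2 * β * L :=
      mul_le_mul_of_nonneg_left hL (by positivity)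
    linarith

end Pool.Agent.PP5Z
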