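import Pool.Agent.PP5Z.DefsA
import Pool.Agent.PP5P.Zb

/-!
# PP5 (D'), `D(x) = 0`: zeros of a ternary form in a box, from `zb`
-/

set_option autoImplicit false

namespace Pool.Agent.PP5Z

open Matrix Finset Pool.Agent.PP5 Pool.Agent.PP5B Pool.Agent.PP5S Pool.Agent.PP5P

/-- the `4 x 4` form `Q ⊕ 2` -/
def Q4 (Q : Matrix (Fin 3) (Fin 3) ℤ) : Matrix (Fin 4) (Fin 4) ℤ :=
  !![Q 0 0, Q 0 1, Q 0 2, 0; Q 1 0, Q 1 1, Q 1 2, 0; Q 2 0, Q 2 1, Q 2 2, 0; 0, 0, 0, 2]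

private theorem Trn_eq (Q : Matrix (Fin 3) (Fin 3) ℤ) (hs : ∀ i j, Q i j = Q j i) :
    Q4 Q = syR (Q 0 0) (Q 0 1) (Q 0 2) 0 (Q 1 1) (Q 1 2) 0 (Q 2 2) 0 2 := by
  unfold Q4 syR
  rw [hs 1 0, hs 2 0, hs 2 1]

private theorem Trn_det (Q : Matrix (Fin 3) (Fin 3) ℤ) (hs : ∀ i j, Q i j = Q j i) :
    (Q4 Q).det = 2 * Q.det := by
  rw [Trn_eq Q hs, syR_det, Matrix.det_fin_three, hs 1 0, hs 2 0, hs 2 1]
  ring

private theorem Trn_D2 (Q : Matrix (Fin 3) (Fin 3) ℤ) (hs : ∀ i j, Q i j = Q j i) :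
    D2 (Q4 Q) ![0, 0, 0, 1] = Q.det := by
  unfold D2
  rw [Trn_eq Q hs, syR_adj, Matrix.det_fin_three, hs 1 0, hs 2 0, hs 2 1]
  simp [syR, dotProduct, mulVec, Fin.sum_univ_four]
  ring

private theorem Trn_sym (Q : Matrix (Fin 3) (Fin 3) ℤ) (hs : ∀ i j, Q i j = Q j i) (i j : Fin 4) :
    Q4 Q i j = Q4 Q j i := by
  fin_cases i <;> fin_cases j <;> simp [Q4] <;> exact hs _ _

private theorem Trn_cs (Q : Matrix (Fin 3) (Fin 3) ℤ) (i j : Fin 3) :
    Q4 Q i.castSucc j.castSucc = Q i j := by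
  fin_cases i <;> fin_cases j <;> rfl

private theorem Trn_ph (Q : Matrix (Fin 3) (Fin 3) ℤ) (hs : ∀ i j, Q i j = Q j i)
    (l : Fin 4 → ℝ) (i j : Fin 3) :
    Ph (toR (Q4 Q)) (cvR ![0, 0, 0, 1]) (Ev l i.castSucc) (cvR ![0, 0, 0, 1]) (Ev l j.castSucc) =
      ((Q.adjugate i j : ℤ) : ℝ) * l i.castSucc * l j.castSucc := by
  have h1 := hs 1 0
  have h2 := hs 2 0
  have h3 := hs 2 1
  rw [Matrix.adjugate_fin_three]
  fin_cases i <;> fin_cases j <;>
    simp [Ph, pv, MM, mr, toR, cvR, Ev, Q4, dotProduct, mulVec, Fin.sum_univ_succ, h1, h2, h3] <;>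
    ring

private theorem Trn_mn (Q : Matrix (Fin 3) (Fin 3) ℤ) (n : ℤ) (h : mnQ (Q4 Q) ![0, 0, 0, 1] n)
    (a b c d : Fin 3) : n ∣ Q a c * Q b d - Q a d * Q b c := by
  have e0 : ∀ i : Fin 3, (![0, 0, 0, 1] : Fin 4 → ℤ) ⬝ᵥ Pi.single i.castSucc 1 = 0 := by
    intro i
    fin_cases i <;> simp
  have h1 := h (Pi.single a.castSucc 1) (Pi.single b.castSucc 1) (Pi.single c.castSucc 1)
    (Pi.single d.castSucc 1) (e0 a) (e0 b) (e0 c) (e0 d)
  simpa [Trn_cs] using h1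

private theorem Trn_adj (Q : Matrix (Fin 3) (Fin 3) ℤ) (n : ℤ)
    (h : mnQ (Q4 Q) ![0, 0, 0, 1] n) (i j : Fin 3) : n ∣ Q.adjugate i j := by
  rw [Matrix.adjugate_fin_three]
  fin_cases i <;> fin_cases j
  · have := Trn_mn Q n h 1 2 1 2
    simpa using this
  · have := Trn_mn Q n h 2 0 1 2
    simp
    convert this using 1; ring
  · have := Trn_mn Q n h 0 1 1 2
    simp
    convert this using 1
  · have := Trn_mn Q n h 1 2 2 0
    simp
    convert this using 1; ring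
  · have := Trn_mn Q n h 0 2 0 2
    simp
    convert this using 1
  · have := Trn_mn Q n h 0 1 2 0
    simp
    convert this using 1; ring
  · have := Trn_mn Q n h 1 2 0 1
    simp
    convert this using 1
  · have := Trn_mn Q n h 2 0 0 1
    simp
    convert this using 1; ring
  · have := Trn_mn Q n h 0 1 0 1
    simp
    convert this using 1

private theorem Trn_nig (G : Matrix (Fin 4) (Fin 4) ℤ) (c : Fin 4 → ℤ) : 0 < nig G c := by
  unfold nig
  exact Finset.prod_pos fun l hl => pow_pos (Nat.prime_of_mem_primeFactors hl).pos _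

/-- size 4.  Apply `PP5P.zb` to `G = Q4 Q`, `m = ![0,0,0,1]`, `l = ![r 0, r 1, r 2, 2 Y]`, with `Y := 2 * Y`, `C0 := C0`, `H := h`, and `S` mapped by the
injection `z ↦ ![z 0, z 1, z 2, 0]` (primitive, zero, orthogonal to `m`).  `det (Q4 Q) = 2 det Q`, `D2 (Q4 Q) m = det Q` (expand: `det_succ_row_zero`, or
`PP5P.syR_det`, `syR_adj` with `Q4 Q = syR ..`).  Entry bound for the new entry: `2 ≤ C0 (2Y)(2Y)/T` as `T ≤ Y`; `0` otherwise.  `Ph (toR (Q4 Q)) m (Ev l i) m (Ev l j)`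
for `i, j < 3` is `± adj Q i j * r i * r j` (unfold `Ph`, `pv`, `MM`, `mr`).  Content: `sl_Ph`: `(sl G m)^2 ∣ 2 * Ph G m u m w` for all `u, w` (look at the
statement in PP5P/Sl.lean), so `(sl)^2` divides `2 * adj Q i j` for all `i, j`; with `n0 = ` gcd of the entries of `adj Q` (`≠ 0` since `b > 0`),
`(sl)^2 ∣ 2 n0`, `(sl)^2 ≤ 2 n0 ≤ 2 A`.  So `h * sl / √b ≤ 2 h √(A/b)`. -/
theorem tern (c : ℝ) (hc : 0 < c) (C0 : ℝ) (hC0 : 1 ≤ C0) : ∃ C : ℝ, 1 ≤ C ∧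
    ∀ Q : Matrix (Fin 3) (Fin 3) ℤ, (∀ i j, Q i j = Q j i) → (∀ i, (2 : ℤ) ∣ Q i i) → Q.det ≠ 0 →
    ∀ (r : Fin 3 → ℝ) (T Y h b A : ℝ), 1 ≤ Y → (∀ i, 0 < r i) → (∀ i, r i ≤ Y) → 1 / Y ≤ T → T ≤ Y →
    0 < h → 0 < b → (∀ i j, |(Q i j : ℝ)| ≤ C0 * r i * r j / T) →
    (∃ i j, b ≤ |((Q.adjugate i j : ℤ) : ℝ)| * r i * r j) →
    (∀ n : ℕ, (∀ i j, (n : ℤ) ∣ Q.adjugate i j) → (n : ℝ) ≤ A) →
    ∀ S : Finset (Fin 3 → ℤ), (∀ z ∈ S, Pr3 z ∧ z ⬝ᵥ (Q *ᵥ z) = 0 ∧ ∀ i, |(z i : ℝ)| * r i ≤ h) →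
    (S.card : ℝ) ≤ C * Y ^ c * (1 + h * √(A / b)) := by
  obtain ⟨C1, hC1, h1⟩ := zb c hc C0 hC0
  have h2c : (1 : ℝ) ≤ 2 ^ c := Real.one_le_rpow (by norm_num) hc.le
  refine ⟨2 * (C1 * 2 ^ c), by nlinarith, ?_⟩
  intro Q hs hev hdet r T Y h b A hY hr hrY hTY hT hh hb hQ hij hA S hS
  have hY0 : 0 < Y := by linarith
  have hT0 : 0 < T := lt_of_lt_of_le (by positivity) hTY
  set m : Fin 4 → ℤ := ![0, 0, 0, 1] with hm
  set l : Fin 4 → ℝ := ![r 0, r 1, r 2, 2 * Y] with hl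
  have hlc : ∀ i : Fin 3, l i.castSucc = r i := by
    intro i
    fin_cases i <;> rfl
  have hl3 : l 3 = 2 * Y := rfl
  set f : (Fin 3 → ℤ) → (Fin 4 → ℤ) := fun z => ![z 0, z 1, z 2, 0] with hf
  have hfinj : Function.Injective f := by
    intro z w hzw
    have e0 := congrFun hzw 0
    have e1 := congrFun hzw 1
    have e2 := congrFun hzw 2
    simp [hf] at e0 e1 e2
    ext i
    fin_cases i
    · exact e0
    · exact e1
    · exact e2
  have hfc : ∀ (z : Fin 3 → ℤ) (i : Fin 3), f z i.castSucc = z i := by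
    intro z i
    fin_cases i <;> rfl
  have hall : ∀ P : Fin 4 → Prop, (∀ i : Fin 3, P i.castSucc) → P 3 → ∀ i, P i := by
    intro P h1 h2 i
    refine Fin.lastCases ?_ ?_ i
    · exact h2
    · exact h1
  have hQ4 : ∀ i j, |(Q4 Q i j : ℝ)| ≤ C0 * l i * l j / T := by
    have hbig : (2 : ℝ) ≤ C0 * (2 * Y) * (2 * Y) / T := by
      rw [le_div_iff₀ hT0]
      nlinarith [mul_le_mul hC0 hY (by norm_num) (by linarith : (0:ℝ) ≤ C0), mul_pos hY0 hY0]
    have hlpos : ∀ i, 0 < l i := by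
      refine hall _ (fun i => by rw [hlc]; exact hr i) (by rw [hl3]; linarith)
    refine hall _ (fun i => ?_) ?_
    · refine hall _ (fun j => ?_) ?_
      · rw [Trn_cs, hlc, hlc]
        exact hQ i j
      · have : Q4 Q i.castSucc 3 = 0 := by fin_cases i <;> rfl
        rw [this]
        have := hlpos i.castSucc
        have := hlpos 3
        simp only [Int.cast_zero, abs_zero]
        positivity
    · refine hall _ (fun j => ?_) ?_
      · have : Q4 Q 3 j.castSucc = 0 := by fin_cases j <;> rfl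
        rw [this]
        have := hlpos j.castSucc
        have := hlpos 3
        simp only [Int.cast_zero, abs_zero]
        positivity
      · have : Q4 Q 3 3 = 2 := rfl
        rw [this, hl3]
        simpa using hbig
  have hsl : (sl (Q4 Q) m : ℝ) ^ 2 ≤ 2 * A := by
    have e1 : (nig (Q4 Q) m : ℝ) ≤ A := hA _ (Trn_adj Q _ (mnQ_nig (Q4 Q) m))
    have e2 : sl (Q4 Q) m ^ 2 ≤ 2 * nig (Q4 Q) m :=
      Nat.le_of_dvd (Nat.mul_pos (by norm_num) (Trn_nig _ _)) (sl_sq_dvd (Q4 Q) m)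
    have e3 : (sl (Q4 Q) m : ℝ) ^ 2 ≤ 2 * (nig (Q4 Q) m : ℝ) := by exact_mod_cast e2
    linarith
  have hA0 : 0 ≤ A := by
    have := sq_nonneg (sl (Q4 Q) m : ℝ)
    linarith
  have key := h1 (Q4 Q) (Trn_sym Q hs) ?_ ?_ m ?_ ?_ l T (2 * Y) h b (by linarith) ?_ ?_ ?_ hh hb
    hQ4 ?_ ?_ (S.image f) ?_
  · rw [Finset.card_image_of_injective _ hfinj] at key
    refine key.trans ?_
    rw [Real.mul_rpow (by norm_num) hY0.le]
    have hYc : 0 < Y ^ c := by positivity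
    have e1 : (sl (Q4 Q) m : ℝ) / √b ≤ 2 * √(A / b) := by
      rw [Real.sqrt_div hA0, ← mul_div_assoc]
      refine div_le_div_of_nonneg_right ?_ (Real.sqrt_nonneg _)
      have : √(2 * A) ≤ 2 * √A := by
        rw [Real.sqrt_le_left (by positivity)]
        rw [mul_pow, Real.sq_sqrt hA0]
        linarith
      exact (Real.le_sqrt_of_sq_le hsl).trans this
    have e2 : h * (sl (Q4 Q) m : ℝ) / √b ≤ 2 * (h * √(A / b)) := by
      rw [mul_div_assoc]
      nlinarith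
    have e3 : 0 ≤ h * √(A / b) := by positivity
    calc C1 * (2 ^ c * Y ^ c) * (1 + h * (sl (Q4 Q) m : ℝ) / √b)
        ≤ C1 * (2 ^ c * Y ^ c) * (2 * (1 + h * √(A / b))) := by
          refine mul_le_mul_of_nonneg_left (by linarith) (by positivity)
      _ = _ := by ring
  · refine hall _ (fun i => ?_) ?_
    · rw [Trn_cs]
      exact hev i
    · exact dvd_refl _
  · rw [Trn_det Q hs]
    exact mul_ne_zero two_ne_zero hdet
  · intro p hp hall'
    have h3 := hall' 3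
    have h4 : (p : ℤ) ∣ ((1 : ℕ) : ℤ) := by simpa [hm] using h3
    have h5 := Int.natCast_dvd_natCast.mp h4
    exact hp.one_lt.ne' (Nat.dvd_one.mp h5)
  · rw [Trn_D2 Q hs]
    exact hdet
  · exact hall _ (fun i => by rw [hlc]; exact hr i) (by rw [hl3]; linarith)
  · exact hall _ (fun i => by rw [hlc]; linarith [hrY i]) (by rw [hl3])
  · refine le_trans ?_ hTY
    exact one_div_le_one_div_of_le hY0 (by linarith)
  · intro i
    fin_cases i <;> simp [hm] <;> linarith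
  · obtain ⟨i, j, hb'⟩ := hij
    refine ⟨i.castSucc, j.castSucc, ?_⟩
    rw [Trn_ph Q hs, hlc, hlc, abs_mul, abs_mul, abs_of_pos (hr i), abs_of_pos (hr j)]
    exact hb'
  · intro v hv
    obtain ⟨z, hz, rfl⟩ := Finset.mem_image.mp hv
    obtain ⟨hz1, hz2, hz3⟩ := hS z hz
    refine ⟨?_, ?_, ?_, ?_⟩
    · intro p hp hall'
      obtain ⟨j, hj⟩ := hz1 p hp
      have := hall' j.castSucc
      rw [hfc] at this
      exact hj this
    · rw [← hz2]
      simp [hf, Q4, dotProduct, mulVec, Fin.sum_univ_succ]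
    · simp [hm, hf, dotProduct, Fin.sum_univ_succ]
    · refine hall _ (fun i => ?_) ?_
      · rw [hfc, hlc]
        exact hz3 i
      · simp [hf]
        exact hh.le

end Pool.Agent.PP5Z
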