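import Pool.Agent.PP5Z.Frm
import Pool.Agent.PP5Z.Qf
import Pool.Agent.PP5Z.Frb
import Pool.Agent.PP5Z.Trn
import Pool.Agent.PP5Z.Dsc
import Pool.Agent.PP5Z.Fib
import Pool.Agent.PP5Z.Frc
import Pool.Agent.PP5Z.NxR
import Pool.Agent.PP5Z.NxC

/-!
# PP5 (D'), `D(x) = 0`: the bound for one `x`
-/

set_option autoImplicit false

namespace Pool.Agent.PP5Z

open Matrix Finset Pool.Agent.PP5 Pool.Agent.PP5B Pool.Agent.PP5S Pool.Agent.PP5P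

/-- the zeros of a form of rank `3` of which all isotropic planes have covolume `≥ W` -/
theorem nx (c : ℝ) (hc : 0 < c) (C0 : ℝ) (hC0 : 1 ≤ C0) : ∃ C : ℝ, 1 ≤ C ∧
    ∀ (G : Matrix (Fin 4) (Fin 4) ℤ), (∀ i j, G i j = G j i) → (∀ i, 2 ∣ G i i) → G.det = 0 →
    G.adjugate ≠ 0 →
    ∀ (l : Fin 4 → ℝ) (T Y H W A p : ℝ), 1 ≤ Y → (∀ i, 0 < l i) → (∀ i, l i ≤ Y) → 1 / Y ≤ T → T ≤ Y →
    0 < H → H ≤ Y → 1 / Y ≤ W → (∏ i, l i) ^ 2 ≤ C0 * H ^ 2 * T ^ 3 →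
    (∀ i j, |(G i j : ℝ)| ≤ C0 * l i * l j / T) →
    (∀ n : ℕ, (∀ i j k k', (n : ℤ) ∣ mr G i j k k') → (n : ℝ) ≤ A) → 0 < p →
    (∃ i j k k', p ≤ |((mr G i j k k' : ℤ) : ℝ)| * T ^ 2 / (l i * l j * l k * l k')) →
    ∀ V : Finset (Fin 4 → ℤ), (∀ v ∈ V, Pr4 v ∧ v ⬝ᵥ (G *ᵥ v) = 0 ∧ (∀ i, |(v i : ℝ)| * l i ≤ H) ∧
      ∀ w : Fin 4 → ℤ, w ⬝ᵥ (G *ᵥ w) = 0 → v ⬝ᵥ (G *ᵥ w) = 0 → (∃ i j, v i * w j ≠ v j * w i) →
        ∃ i j, W ≤ |((v i * w j - v j * w i : ℤ) : ℝ)| * l i * l j) →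
    (V.card : ℝ) ≤ C * Y ^ c * (1 + H ^ 2 / W + H ^ 2 * T * √(A / p) / (∏ i, l i)) ∧
    (V.card : ℝ) ≤ C * Y ^ c * (1 + H ^ 2 / W * (1 + H / √T)) := by
  classical
  obtain ⟨CF, hCF1, hFr⟩ := fr_exists
  have hCF0 : 0 < CF := by linarith
  have hC00 : 0 < C0 := by linarith
  have hC0' : 1 ≤ 16 * C0 * CF ^ 2 := by
    have : 1 ≤ CF ^ 2 := one_le_pow₀ hCF1
    nlinarith
  obtain ⟨Ct, hCt1, htern⟩ := tern (c / 2) (by positivity) (16 * C0 * CF ^ 2) hC0'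
  obtain ⟨CL, hCL1, hlog⟩ := Nx_log (36 * CF * C0 ^ 2) (c / 2) (by
    have : 1 ≤ C0 ^ 2 := one_le_pow₀ hC0
    nlinarith) (by positivity)
  set K : ℝ := 3 * C0 ^ 2 with hKd
  have hK1 : 1 ≤ K := by
    have : 1 ≤ C0 ^ 2 := one_le_pow₀ hC0
    rw [hKd]; linarith
  refine ⟨2 + 500 * (K + 2) * CF ^ 2 * C0 ^ 2 * Ct * CL, ?_, ?_⟩
  · have : 0 ≤ 500 * (K + 2) * CF ^ 2 * C0 ^ 2 * Ct * CL := by positivity
    linarith
  intro G hG hev hdet hadj l T Y H W A p hY hl hlY hT1 hTY hH hHY hW hΛ hGb hA hp hmr V hV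
  have hY0 : 0 < Y := by linarith
  have hT0 : 0 < T := lt_of_lt_of_le (by positivity) hT1
  have hW0 : 0 < W := lt_of_lt_of_le (by positivity) hW
  have hlam : 0 < ∏ i, l i := Finset.prod_pos fun i _ => hl i
  obtain ⟨u, hu, hGu⟩ := Matrix.exists_mulVec_eq_zero_iff.mpr hdet
  obtain ⟨g, v0, hg, hgz, hpr⟩ := Nx_prim u hu
  have h0 : G *ᵥ v0 = 0 := by
    have h1 : u = g • v0 := by
      funext i
      rw [hgz i]; rfl
    rw [h1, mulVec_smul] at hGu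
    have h2 : g ≠ 0 := by omega
    exact (smul_eq_zero.1 hGu).resolve_left h2
  have hv0 : Pr4 v0 := by
    intro p hp hd
    obtain ⟨j, hj⟩ := hpr p hp
    exact hj (hd j)
  obtain ⟨ν, b, f0, e, hν, F⟩ := hFr l hl v0 hv0
  set Q := Qe G e with hQ
  have hadjeq := adj_eq hG F h0
  have hQd : Q.det ≠ 0 := by
    intro h
    apply hadj
    ext i j
    rw [hadjeq, ← hQ, h, zero_mul]
    rfl
  have hnw : ∀ a, 0 < nw l (b a) := fun a => nw_pos hl (F.pb.ne a)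
  have hr0 : ∀ a, 0 < rr l b a := fun a => one_div_pos.2 (hnw a)
  -- the size and the content of the adjugate
  have hex : ∃ i j, Q.adjugate i j ≠ 0 := by
    by_contra hc
    push Not at hc
    have h1 : Q.adjugate = 0 := by ext i j; exact hc i j
    have h2 := Matrix.det_adjugate Q
    rw [h1] at h2
    simp at h2
    exact hQd (pow_eq_zero_iff (two_ne_zero) |>.1 h2.symm)
  set φ : Fin 3 × Fin 3 → ℝ := fun q => |((Q.adjugate q.1 q.2 : ℤ) : ℝ)| * rr l b q.1 * rr l b q.2 with hφ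
  obtain ⟨q0, -, hq0⟩ := Finset.exists_max_image (Finset.univ : Finset (Fin 3 × Fin 3)) φ
    ⟨(0, 0), Finset.mem_univ _⟩
  set β0 : ℝ := φ q0 with hβ0
  have hβle : ∀ i j, |((Q.adjugate i j : ℤ) : ℝ)| * rr l b i * rr l b j ≤ β0 := fun i j =>
    hq0 (i, j) (Finset.mem_univ _)
  have hβpos : 0 < β0 := by
    obtain ⟨i, j, hij⟩ := hex
    have h1 : (0 : ℝ) < |((Q.adjugate i j : ℤ) : ℝ)| := abs_pos.2 (by exact_mod_cast hij)
    exact lt_of_lt_of_le (mul_pos (mul_pos h1 (hr0 i)) (hr0 j)) (hβle i j)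
  obtain ⟨A0, hA0ne, hA0d, hA0m⟩ := Nx_gcd Q.adjugate hex
  have hA01 : (1 : ℝ) ≤ (A0 : ℝ) := by exact_mod_cast Nat.one_le_iff_ne_zero.2 hA0ne
  have hA0A : (A0 : ℝ) ≤ A := hA A0 fun i j k k' => mr_dvd hG F h0 _ hA0d i j k k'
  have hA0pos : 0 < A := by linarith
  -- the radical
  have hνu := nu_le F hl hC0 hT0 hGb hQd hadjeq
  have hνK : ν ≤ K * H := by
    have h1 : ν ^ 2 * T ^ 3 ≤ (K * H) ^ 2 * T ^ 3 := by
      calc ν ^ 2 * T ^ 3 ≤ 6 * C0 ^ 3 * (∏ i, l i) ^ 2 := hνu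
        _ ≤ 6 * C0 ^ 3 * (C0 * H ^ 2 * T ^ 3) := mul_le_mul_of_nonneg_left hΛ (by positivity)
        _ = 6 * (C0 ^ 4 * (H ^ 2 * T ^ 3)) := by ring
        _ ≤ 9 * (C0 ^ 4 * (H ^ 2 * T ^ 3)) := mul_le_mul_of_nonneg_right (by norm_num) (by positivity)
        _ = _ := by rw [hKd]; ring
    have h2 : ν ^ 2 ≤ (K * H) ^ 2 := le_of_mul_le_mul_right h1 (by positivity)
    exact (pow_le_pow_iff_left₀ hν.le (by positivity) two_ne_zero).1 h2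
  -- `β`
  set β : ℝ := √((A0 : ℝ) / β0) with hβd
  have hβn : 0 ≤ β := Real.sqrt_nonneg _
  have hvol := F.pb.vol
  set Pn : ℝ := nw l (b 0) * nw l (b 1) * nw l (b 2) with hPn
  have hPn0 : 0 < Pn := mul_pos (mul_pos (hnw 0) (hnw 1)) (hnw 2)
  have hPle : Pn ≤ CF * ν / (∏ i, l i) := by
    rw [le_div_iff₀ hlam]; exact hvol
  have hP2 : Pn ^ 2 * (∏ i, l i) ^ 2 ≤ CF ^ 2 * ν ^ 2 := by
    calc Pn ^ 2 * (∏ i, l i) ^ 2 = (Pn * ∏ i, l i) ^ 2 := by ring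
      _ ≤ (CF * ν) ^ 2 := pow_le_pow_left₀ (by positivity) hvol 2
      _ = _ := by ring
  have hβ1 : β ≤ 6 * CF * C0 ^ 2 / √T := by
    have h1 := ter_disc hQd hA0d hA0m hr0 hβle
    have e1 : rr l b 0 * rr l b 1 * rr l b 2 = 1 / Pn := by
      unfold rr
      rw [hPn]
      have a0 := (hnw 0).ne'
      have a1 := (hnw 1).ne'
      have a2 := (hnw 2).ne'
      field_simp
    rw [e1] at h1
    exact Nx_b1 (by linarith) hβpos hPn0 hlam hCF1 hC0 hT0 h1 hP2 hνu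
  have hβ2 : β ≤ 6 * CF * ν * T * √(A / p) / (∏ i, l i) := by
    obtain ⟨i, j, k, k', hij⟩ := hmr
    have h1 := mr_le hG F hl h0 hβle i j k k'
    rw [← hPn] at h1
    have hL4 : 0 < l i * l j * l k * l k' := mul_pos (mul_pos (mul_pos (hl i) (hl j)) (hl k)) (hl k')
    have h2 : p ≤ 36 * β0 * Pn ^ 2 * T ^ 2 := by
      refine hij.trans ?_
      rw [div_le_iff₀ hL4]
      calc |((mr G i j k k' : ℤ) : ℝ)| * T ^ 2
          ≤ (36 * β0 * Pn ^ 2 * (l i * l j * l k * l k')) * T ^ 2 :=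
            mul_le_mul_of_nonneg_right h1 (by positivity)
        _ = _ := by ring
    exact Nx_b2 (by linarith) hA0A hβpos hlam hCF0 hν hT0 hp h2 hP2
  -- the count of `z`
  set B : ℝ := Ct * Y ^ (c / 2) with hBd
  have hB0 : 0 ≤ B := by positivity
  have hrY : ∀ a, rr l b a ≤ Y := by
    intro a
    unfold rr
    rw [one_div_le (hnw a) hY0]
    obtain ⟨i, hi⟩ := Function.ne_iff.mp (F.pb.ne a)
    have h1 := le_nw hl (b a) i
    have h2 : (1 : ℝ) ≤ |(b a i : ℝ)| := by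
      have : (1 : ℤ) ≤ |b a i| := Int.one_le_abs hi
      exact_mod_cast this
    have h3 : nw l (b a) * l i ≤ nw l (b a) * Y := mul_le_mul_of_nonneg_left (hlY i) (hnw a).le
    rw [div_le_iff₀ hY0]
    linarith
  have hN : ∀ h : ℝ, 0 < h → ∀ S : Finset (Fin 3 → ℤ),
      (∀ z ∈ S, Pr3 z ∧ z ⬝ᵥ (Qe G e *ᵥ z) = 0 ∧ ∀ i, |(z i : ℝ)| * rr l b i ≤ h) →
      (S.card : ℝ) ≤ B * (1 + β * h) := by
    intro h hh S hS
    have h1 := htern Q (Qe_sym hG e) (Qe_even hG hev e) hQd (rr l b) T Y h β0 A0 hY hr0 hrY hT1 hTY hh hβpos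
      (Qe_le hG F hl hCF1 hν h0 hC0 hT0 hGb) ⟨q0.1, q0.2, le_rfl⟩
      (fun n hn => by exact_mod_cast Nat.le_of_dvd (Nat.pos_of_ne_zero hA0ne) (hA0m n hn)) S hS
    rw [hBd, hβd, mul_comm _ h]
    exact h1
  -- the logarithm
  have hXle : 12 * CF * ν * H / W ≤ 36 * CF * C0 ^ 2 * Y ^ 3 := by
    rw [div_le_iff₀ hW0]
    have h1 : 1 ≤ W * Y := by
      rw [div_le_iff₀ hY0] at hW
      linarith
    calc 12 * CF * ν * H ≤ 12 * CF * (K * H) * H := by gcongr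
      _ = 36 * CF * C0 ^ 2 * (H * H) * 1 := by rw [hKd]; ring
      _ ≤ 36 * CF * C0 ^ 2 * (Y * Y) * (W * Y) := by gcongr
      _ = _ := by ring
  have hlogb := hlog Y _ hY (by positivity) hXle
  have hYc : (1 : ℝ) ≤ Y ^ (c / 2) := Real.one_le_rpow hY (by positivity)
  have hYcc : Y ^ (c / 2) * Y ^ (c / 2) = Y ^ c := by
    rw [← Real.rpow_add hY0]
    congr 1
    ring
  have hYc1 : (1 : ℝ) ≤ Y ^ c := Real.one_le_rpow hY hc.le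
  have hYc2 : Y ^ (c / 2) ≤ Y ^ c := by
    rw [← hYcc]
    nlinarith
  obtain ⟨m1, m2⟩ := Nx_core hG F hCF1 h0 hl hν hH (by linarith) hνK hW0 hB0 hβn
    (L := CL * Y ^ (c / 2)) (by positivity) hlogb hN V hV
  constructor
  · exact m2.trans (Nx_f2 (by linarith) hCF1 hC0 hCt1 hCL1 hYc hYcc.symm hν hW0 hlam hT0.le hβ2)
  · exact m1.trans (Nx_f1 (by linarith) hCF1 hC0 hCt1 hCL1 hYc hYcc.symm hν hW0 hH (Real.sqrt_pos.2 hT0) hβ1)

end Pool.Agent.PP5Z
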