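import Mathlib

/-!
# PP5 (D'), `D(x) = 0`: the bound for one `x`, in terms of `y`: real inequalities
-/

set_option autoImplicit false

namespace Pool.Agent.PP5Z

/-- the first bound -/
theorem px_r1 {C Cx C1 s y T H Λ A p a B M N : ℝ} (hC : 0 < C) (hCx : 0 < Cx) (hC1 : 1 ≤ C1)
    (hs1 : 1 ≤ s) (hy0 : 0 < y) (hys : y = s ^ 1000) (hT0 : 0 < T) (hT : T ≤ C1 * s ^ 400)
    (hH : H = 16 * Cx * y) (hΛ : 0 < Λ) (ha : a = T ^ 4 / Λ) (hB : B = A / p) (hM1 : 1 ≤ M)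
    (haM : a * √B ≤ M * √M)
    (hN : N ≤ C * s * (1 + H ^ 2 / (T ^ 3 / s) + H ^ 2 * T * √(A / p) / Λ)) :
    N ≤ C * (C1 ^ 4 + 512 * Cx ^ 2 + 256 * Cx ^ 2 * (C1 + 16 * Cx)) * s ^ 2 * (y ^ 2 / T ^ 3) *
      (M * √M) := by
  have hs0 : 0 < s := by linarith
  have hC10 : 0 < C1 := by linarith
  have hM0 : 0 < M := by linarith
  have hsM1 : 1 ≤ √M := Real.one_le_sqrt.2 hM1
  have hMM : 1 ≤ M * √M := by nlinarith
  have hT3 : T ^ 3 ≤ C1 ^ 3 * y ^ 2 := by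
    calc T ^ 3 ≤ (C1 * s ^ 400) ^ 3 := pow_le_pow_left₀ hT0.le hT 3
      _ = C1 ^ 3 * s ^ 1200 := by ring
      _ ≤ C1 ^ 3 * s ^ 2000 := by
          refine mul_le_mul_of_nonneg_left (pow_le_pow_right₀ hs1 (by norm_num)) (by positivity)
      _ = _ := by rw [hys]; ring
  have hyT : 1 ≤ C1 ^ 3 * (y ^ 2 / T ^ 3) := by
    rw [← mul_div_assoc, le_div_iff₀ (by positivity), one_mul]
    exact hT3
  obtain ⟨Z, hZ⟩ : ∃ Z : ℝ, Z = y ^ 2 / T ^ 3 := ⟨_, rfl⟩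
  have hZ0 : 0 < Z := by rw [hZ]; positivity
  have hC34 : C1 ^ 3 ≤ C1 ^ 4 := pow_le_pow_right₀ hC1 (by norm_num)
  have e1 : H ^ 2 / (T ^ 3 / s) = 256 * Cx ^ 2 * s * Z := by
    rw [hH, hZ]
    field_simp
    ring
  have e2 : H ^ 2 * T * √(A / p) / Λ = 256 * Cx ^ 2 * Z * (a * √B) := by
    rw [hH, ha, hB, hZ]
    field_simp
    ring
  rw [e1, e2] at hN
  rw [← hZ] at hyT ⊢
  obtain ⟨m, hm⟩ : ∃ m : ℝ, m = M * √M := ⟨_, rfl⟩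
  rw [← hm] at hMM haM ⊢
  have hm0 : 0 < m := by linarith
  refine hN.trans ?_
  have g2 : 256 * Cx ^ 2 * Z * (a * √B) ≤ 256 * Cx ^ 2 * Z * m :=
    mul_le_mul_of_nonneg_left haM (by positivity)
  have hsm : 1 ≤ s * m := by nlinarith
  have g3 : 1 ≤ Z * (s * m * C1 ^ 4) := by
    calc 1 ≤ C1 ^ 3 * Z := hyT
      _ ≤ C1 ^ 4 * Z := mul_le_mul_of_nonneg_right hC34 hZ0.le
      _ = 1 * (C1 ^ 4 * Z) := (one_mul _).symm
      _ ≤ (s * m) * (C1 ^ 4 * Z) := mul_le_mul_of_nonneg_right hsm (by positivity)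
      _ = _ := by ring
  have g4 : 256 * Cx ^ 2 * s * Z ≤ Z * (s * m * (256 * Cx ^ 2)) := by
    calc 256 * Cx ^ 2 * s * Z = 256 * Cx ^ 2 * s * Z * 1 := (mul_one _).symm
      _ ≤ 256 * Cx ^ 2 * s * Z * m := mul_le_mul_of_nonneg_left hMM (by positivity)
      _ = _ := by ring
  have g5 : 256 * Cx ^ 2 * Z * m ≤ Z * (s * m * (256 * Cx ^ 2)) := by
    calc 256 * Cx ^ 2 * Z * m = 1 * (256 * Cx ^ 2 * Z * m) := (one_mul _).symm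
      _ ≤ s * (256 * Cx ^ 2 * Z * m) := mul_le_mul_of_nonneg_right hs1 (by positivity)
      _ = _ := by ring
  have g1 : 1 + 256 * Cx ^ 2 * s * Z + 256 * Cx ^ 2 * Z * (a * √B) ≤
      Z * (s * m * (C1 ^ 4 + 512 * Cx ^ 2)) := by
    calc _ ≤ Z * (s * m * C1 ^ 4) + Z * (s * m * (256 * Cx ^ 2)) + Z * (s * m * (256 * Cx ^ 2)) := by
          linarith
      _ = _ := by ring
  calc C * s * _ ≤ C * s * (Z * (s * m * (C1 ^ 4 + 512 * Cx ^ 2))) :=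
        mul_le_mul_of_nonneg_left g1 (by positivity)
    _ = C * (C1 ^ 4 + 512 * Cx ^ 2) * (s ^ 2 * Z * m) := by ring
    _ ≤ C * (C1 ^ 4 + 512 * Cx ^ 2 + 256 * Cx ^ 2 * (C1 + 16 * Cx)) * (s ^ 2 * Z * m) := by
        refine mul_le_mul_of_nonneg_right (mul_le_mul_of_nonneg_left ?_ hC.le) (by positivity)
        have : 0 ≤ 256 * Cx ^ 2 * (C1 + 16 * Cx) := by positivity
        linarith
    _ = _ := by ring

/-- the second bound -/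
theorem px_r2 {C Cx C1 s y T H N : ℝ} (hC : 0 < C) (hCx : 0 < Cx) (hC1 : 1 ≤ C1)
    (hs1 : 1 ≤ s) (hy0 : 0 < y) (hys : y = s ^ 1000) (hT0 : 0 < T) (hT : T ≤ C1 * s ^ 400)
    (hH : H = 16 * Cx * y) (hN : N ≤ C * s * (1 + H ^ 2 / (T ^ 3 / s) * (1 + H / √T))) :
    N ≤ C * (C1 ^ 4 + 512 * Cx ^ 2 + 256 * Cx ^ 2 * (C1 + 16 * Cx)) * s ^ 2 *
      (y ^ 3 / (T ^ 3 * √T)) := by
  have hs0 : 0 < s := by linarith
  have hC10 : 0 < C1 := by linarith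
  have hsq0 : 0 < √T := Real.sqrt_pos.2 hT0
  have hT3 : T ^ 3 ≤ C1 ^ 3 * y ^ 2 := by
    calc T ^ 3 ≤ (C1 * s ^ 400) ^ 3 := pow_le_pow_left₀ hT0.le hT 3
      _ = C1 ^ 3 * s ^ 1200 := by ring
      _ ≤ C1 ^ 3 * s ^ 2000 := by
          refine mul_le_mul_of_nonneg_left (pow_le_pow_right₀ hs1 (by norm_num)) (by positivity)
      _ = _ := by rw [hys]; ring
  have hyT : 1 ≤ C1 ^ 3 * (y ^ 2 / T ^ 3) := by
    rw [← mul_div_assoc, le_div_iff₀ (by positivity), one_mul]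
    exact hT3
  have hyq : 1 ≤ C1 * (y / √T) := by
    rw [← mul_div_assoc, le_div_iff₀ hsq0, one_mul]
    apply Real.sqrt_le_iff.2
    refine ⟨by positivity, ?_⟩
    calc T ≤ C1 * s ^ 400 := hT
      _ ≤ C1 ^ 2 * s ^ 2000 := by
          refine mul_le_mul (le_self_pow₀ hC1 (by norm_num)) (pow_le_pow_right₀ hs1 (by norm_num))
            (by positivity) (by positivity)
      _ = _ := by rw [hys]; ring
  have e2 : y ^ 3 / (T ^ 3 * √T) = (y ^ 2 / T ^ 3) * (y / √T) := by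
    field_simp
  obtain ⟨Z, hZ⟩ : ∃ Z : ℝ, Z = y ^ 2 / T ^ 3 := ⟨_, rfl⟩
  obtain ⟨q, hq⟩ : ∃ q : ℝ, q = y / √T := ⟨_, rfl⟩
  have hZ0 : 0 < Z := by rw [hZ]; positivity
  have hq0 : 0 < q := by rw [hq]; positivity
  have e1 : H ^ 2 / (T ^ 3 / s) = 256 * Cx ^ 2 * s * Z := by
    rw [hH, hZ]
    field_simp
    ring
  have e3 : H / √T = 16 * Cx * q := by rw [hH, hq]; ring
  rw [e1, e3] at hN
  rw [e2, ← hZ, ← hq]
  rw [← hZ] at hyT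
  rw [← hq] at hyq
  refine hN.trans ?_
  have g2 : 1 + 16 * Cx * q ≤ (C1 + 16 * Cx) * q := by linarith
  have g3 : 1 ≤ Z * q * (s * C1 ^ 4) := by
    have g4 : 1 ≤ (C1 ^ 3 * Z) * (C1 * q) := one_le_mul_of_one_le_of_one_le hyT hyq
    calc 1 ≤ (C1 ^ 3 * Z) * (C1 * q) := g4
      _ = 1 * (Z * q * C1 ^ 4) := by ring
      _ ≤ s * (Z * q * C1 ^ 4) := mul_le_mul_of_nonneg_right hs1 (by positivity)
      _ = _ := by ring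
  have g5 : 256 * Cx ^ 2 * s * Z * (1 + 16 * Cx * q) ≤ 256 * Cx ^ 2 * s * Z * ((C1 + 16 * Cx) * q) :=
    mul_le_mul_of_nonneg_left g2 (by positivity)
  have g1 : 1 + 256 * Cx ^ 2 * s * Z * (1 + 16 * Cx * q) ≤
      Z * q * (s * (C1 ^ 4 + 256 * Cx ^ 2 * (C1 + 16 * Cx))) := by
    calc _ ≤ Z * q * (s * C1 ^ 4) + 256 * Cx ^ 2 * s * Z * ((C1 + 16 * Cx) * q) := by linarith
      _ = _ := by ring
  calc C * s * _ ≤ C * s * (Z * q * (s * (C1 ^ 4 + 256 * Cx ^ 2 * (C1 + 16 * Cx)))) :=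
        mul_le_mul_of_nonneg_left g1 (by positivity)
    _ = C * (C1 ^ 4 + 256 * Cx ^ 2 * (C1 + 16 * Cx)) * (s ^ 2 * (Z * q)) := by ring
    _ ≤ C * (C1 ^ 4 + 512 * Cx ^ 2 + 256 * Cx ^ 2 * (C1 + 16 * Cx)) * (s ^ 2 * (Z * q)) := by
        refine mul_le_mul_of_nonneg_right (mul_le_mul_of_nonneg_left ?_ hC.le) (by positivity)
        have : 0 ≤ 512 * Cx ^ 2 := by positivity
        linarith
    _ = _ := by ring

/-- the parameters -/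
theorem px_r3 {Cx C1 s T Λ : ℝ} (hCx : 1 ≤ Cx) (hC1 : 1 ≤ C1) (hs1 : 1 ≤ s) (hT0 : 0 < T)
    (hT : T ≤ C1 * s ^ 400) (hsT : 1 ≤ s ^ 2 * T) (hyC : 16 * Cx * C1 ^ 5 ≤ s ^ 1000)
    (hΛ0 : 0 < Λ) (hΛ : Λ ≤ Cx * T ^ 4) :
    T ≤ s ^ 4000 ∧ 1 / s ^ 4000 ≤ T ∧ 16 * Cx * s ^ 1000 ≤ s ^ 4000 ∧ 1 / s ^ 4000 ≤ T ^ 3 / s ∧
    Cx * (C1 * s ^ 400) ^ 4 * s ^ 6 ≤ s ^ 4000 ∧
    Λ ^ 2 ≤ Cx * C1 ^ 5 * (16 * Cx * s ^ 1000) ^ 2 * T ^ 3 := by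
  have hs0 : 0 < s := by linarith
  have hCx0 : 0 < Cx := by linarith
  have hC10 : 0 < C1 := by linarith
  have hY0 : (0 : ℝ) < s ^ 4000 := by positivity
  have hC15 : 1 ≤ C1 ^ 5 := one_le_pow₀ hC1
  have hc1 : Cx * C1 ^ 4 ≤ s ^ 1000 := by
    have : C1 ^ 4 ≤ C1 ^ 5 := pow_le_pow_right₀ hC1 (by norm_num)
    calc Cx * C1 ^ 4 ≤ Cx * C1 ^ 5 := mul_le_mul_of_nonneg_left this hCx0.le
      _ ≤ 16 * Cx * C1 ^ 5 := mul_le_mul_of_nonneg_right (by linarith) (by positivity)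
      _ ≤ _ := hyC
  have hc2 : C1 ≤ s ^ 1000 := by
    have : C1 ≤ C1 ^ 5 := le_self_pow₀ hC1 (by norm_num)
    calc C1 ≤ 1 * C1 ^ 5 := by linarith
      _ ≤ 16 * Cx * C1 ^ 5 := mul_le_mul_of_nonneg_right (by linarith) (by positivity)
      _ ≤ _ := hyC
  have hc3 : 16 * Cx ≤ s ^ 1000 := by
    calc 16 * Cx = 16 * Cx * 1 := (mul_one _).symm
      _ ≤ 16 * Cx * C1 ^ 5 := mul_le_mul_of_nonneg_left hC15 (by positivity)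
      _ ≤ _ := hyC
  refine ⟨?_, ?_, ?_, ?_, ?_, ?_⟩
  · calc T ≤ C1 * s ^ 400 := hT
      _ ≤ s ^ 1000 * s ^ 400 := mul_le_mul_of_nonneg_right hc2 (by positivity)
      _ = s ^ 1400 := by rw [← pow_add]
      _ ≤ s ^ 4000 := pow_le_pow_right₀ hs1 (by norm_num)
  · rw [div_le_iff₀ hY0]
    calc 1 ≤ s ^ 2 * T := hsT
      _ ≤ s ^ 4000 * T := mul_le_mul_of_nonneg_right (pow_le_pow_right₀ hs1 (by norm_num)) hT0.le
      _ = _ := mul_comm _ _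
  · calc 16 * Cx * s ^ 1000 ≤ s ^ 1000 * s ^ 1000 := mul_le_mul_of_nonneg_right hc3 (by positivity)
      _ = s ^ 2000 := by rw [← pow_add]
      _ ≤ s ^ 4000 := pow_le_pow_right₀ hs1 (by norm_num)
  · rw [div_le_div_iff₀ hY0 hs0]
    have : 1 ≤ (s ^ 2 * T) ^ 3 := one_le_pow₀ hsT
    calc 1 * s ≤ (s ^ 2 * T) ^ 3 * s := mul_le_mul_of_nonneg_right this hs0.le
      _ = T ^ 3 * s ^ 7 := by ring
      _ ≤ T ^ 3 * s ^ 4000 := mul_le_mul_of_nonneg_left (pow_le_pow_right₀ hs1 (by norm_num)) (by positivity)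
  · calc Cx * (C1 * s ^ 400) ^ 4 * s ^ 6 = Cx * C1 ^ 4 * s ^ 1606 := by ring
      _ ≤ s ^ 1000 * s ^ 1606 := mul_le_mul_of_nonneg_right hc1 (by positivity)
      _ = s ^ 2606 := by rw [← pow_add]
      _ ≤ s ^ 4000 := pow_le_pow_right₀ hs1 (by norm_num)
  · have hT5 : T ^ 5 ≤ C1 ^ 5 * (s ^ 1000) ^ 2 := by
      calc T ^ 5 ≤ (C1 * s ^ 400) ^ 5 := pow_le_pow_left₀ hT0.le hT 5
        _ = C1 ^ 5 * (s ^ 1000) ^ 2 := by ring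
    calc Λ ^ 2 ≤ (Cx * T ^ 4) ^ 2 := pow_le_pow_left₀ hΛ0.le hΛ 2
      _ = Cx ^ 2 * T ^ 5 * T ^ 3 := by ring
      _ ≤ Cx ^ 2 * (C1 ^ 5 * (s ^ 1000) ^ 2) * T ^ 3 := by gcongr
      _ = 1 * (Cx ^ 2 * C1 ^ 5 * (s ^ 1000) ^ 2 * T ^ 3) := by ring
      _ ≤ (256 * Cx) * (Cx ^ 2 * C1 ^ 5 * (s ^ 1000) ^ 2 * T ^ 3) :=
          mul_le_mul_of_nonneg_right (by linarith) (by positivity)
      _ = _ := by ring

end Pool.Agent.PP5Z
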