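import Pool.Agent.PP5Z.Nx
import Pool.Agent.PP5Z.Ckz
import Pool.Agent.PP5Z.Lwr
import Pool.Agent.PP5Z.PxR

/-!
# PP5 (D'), `D(x) = 0`: the bound for one `x`, in terms of `y`
-/

set_option autoImplicit false

namespace Pool.Agent.PP5Z

open Matrix Finset Pool.Agent.PP5 Pool.Agent.PP5B Pool.Agent.PP5S Pool.Agent.PP5P

theorem px (Cx C1 : ℝ) (hCx : 1 ≤ Cx) (hC1 : 1 ≤ C1) : ∃ C2 y0 : ℝ, 1 ≤ C2 ∧ 1 ≤ y0 ∧
    ∀ y t1 t2 : ℝ, y0 ≤ y → 1 ≤ t1 → 1 ≤ t2 → t1 * t2 ≤ y ^ (1 / 1000 : ℝ) →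
    ∀ (T : ℝ) (x : Fin 10 → ℤ) (b : Fin 4 → PP5.Sp) (G : Matrix (Fin 4) (Fin 4) ℤ) (l : Fin 4 → ℝ),
    (∀ p : ℕ, p.Prime → ∃ j, ¬ (p : ℤ) ∣ x j) → PP5L.FF x = 0 → (PP5L.SS x).det = 0 →
    (PP5L.SS x).adjugate ≠ 0 → XE Cx t1 t2 T x b G l → T ≤ C1 * y ^ (2 / 5 : ℝ) →
    ∀ V : Finset (Fin 4 → ℤ), (∀ v ∈ V, Zv G l (16 * Cx * y) v ∧ NI y (1 / 1000) T G l v) →
    ∃ M : ℝ, 1 ≤ M ∧ (∀ R : ℝ, 1 ≤ R → R < M → (R * ∏ i, l i ≤ T ^ 4) ∨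
      (∃ p : ℝ, 0 < p ∧ (∀ i j a b, |((mr G i j a b : ℤ) : ℝ)| * T ^ 2
        ≤ p * (l i * l j * l a * l b)) ∧ R * p ≤ (PP5N.mi2 G : ℝ))) ∧
      (V.card : ℝ) ≤ C2 * y ^ (1 / 500 : ℝ) * (y ^ 2 / T ^ 3) * (M * √M) ∧
      (V.card : ℝ) ≤ C2 * y ^ (1 / 500 : ℝ) * (y ^ 3 / (T ^ 3 * √T)) := by
  have hCx0 : 0 < Cx := by linarith
  have hC10 : 0 < C1 := by linarith
  have hC15 : 1 ≤ C1 ^ 5 := one_le_pow₀ hC1
  have hC0 : 1 ≤ Cx * C1 ^ 5 := one_le_mul_of_one_le_of_one_le hCx hC15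
  obtain ⟨C, hC, hnx⟩ := nx (1 / 4000) (by norm_num) (Cx * C1 ^ 5) hC0
  have hC00 : 0 < C := by linarith
  have hC14 : 1 ≤ C1 ^ 4 := one_le_pow₀ hC1
  refine ⟨C * (C1 ^ 4 + 512 * Cx ^ 2 + 256 * Cx ^ 2 * (C1 + 16 * Cx)), 16 * Cx * C1 ^ 5, ?_, ?_, ?_⟩
  · have h1 : 0 ≤ 512 * Cx ^ 2 + 256 * Cx ^ 2 * (C1 + 16 * Cx) := by positivity
    exact one_le_mul_of_one_le_of_one_le hC (by linarith)
  · linarith
  intro y t1 t2 hy h1 h2 hts T x b G l hpr hFF hdet hadj hXE hT V hV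
  have hy1 : 1 ≤ y := by linarith
  have hy0 : 0 < y := by linarith
  obtain ⟨s, hs⟩ : ∃ s : ℝ, s = y ^ (1 / 1000 : ℝ) := ⟨_, rfl⟩
  have hs1 : 1 ≤ s := by rw [hs]; exact Real.one_le_rpow hy1 (by norm_num)
  have hs0 : 0 < s := by linarith
  have hys : y = s ^ 1000 := by
    rw [hs, ← Real.rpow_natCast, ← Real.rpow_mul hy0.le]
    norm_num
  have hy25 : y ^ (2 / 5 : ℝ) = s ^ 400 := by
    rw [hs, ← Real.rpow_natCast, ← Real.rpow_mul hy0.le]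
    norm_num
  have hy500 : y ^ (1 / 500 : ℝ) = s ^ 2 := by
    rw [hs, ← Real.rpow_natCast, ← Real.rpow_mul hy0.le]
    norm_num
  rw [← hs] at hts
  rw [hy25] at hT
  rw [hy500]
  have ht1 : 1 ≤ t1 * t2 := one_le_mul_of_one_le_of_one_le h1 h2
  have ht0 : 0 < t1 * t2 := by linarith
  have hT0 := hXE.T0
  have hx0 : x ≠ 0 := by
    rintro rfl
    obtain ⟨j, hj⟩ := hpr 2 Nat.prime_two
    exact hj (dvd_zero _)
  have hTlo := T_lo hXE h1 h2 hx0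
  have hsT : 1 ≤ s ^ 2 * T := by
    have : (t1 * t2) ^ 2 ≤ s ^ 2 := pow_le_pow_left₀ ht0.le hts 2
    calc 1 ≤ (t1 * t2) ^ 2 * T := hTlo
      _ ≤ s ^ 2 * T := mul_le_mul_of_nonneg_right this hT0.le
  have hyC : 16 * Cx * C1 ^ 5 ≤ s ^ 1000 := by rw [← hys]; exact hy
  have hlam : 0 < ∏ i, l i := Finset.prod_pos fun i _ => hXE.lp i
  obtain ⟨hT4000, hT1, hHY, hW, hl6, hLam2⟩ := px_r3 hCx hC1 hs1 hT0 hT hsT hyC hlam hXE.prod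
  have hY1 : (1 : ℝ) ≤ s ^ 4000 := one_le_pow₀ hs1
  have hly : ∀ i, l i ≤ s ^ 4000 := by
    intro i
    calc l i ≤ Cx * T ^ 4 * (t1 * t2) ^ 6 := l_up hXE hCx h1 h2 i
      _ ≤ Cx * (C1 * s ^ 400) ^ 4 * s ^ 6 := by gcongr
      _ ≤ _ := hl6
  obtain ⟨H, hH⟩ : ∃ H : ℝ, H = 16 * Cx * y := ⟨_, rfl⟩
  have hH0 : 0 < H := by rw [hH]; positivity
  have hGb : ∀ i j, |(G i j : ℝ)| ≤ Cx * C1 ^ 5 * l i * l j / T := by
    intro i j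
    have p1 := hXE.lp i
    have p2 := hXE.lp j
    refine (hXE.gram i j).trans ?_
    apply div_le_div_of_nonneg_right _ hT0.le
    calc Cx * l i * l j = 1 * (Cx * l i * l j) := (one_mul _).symm
      _ ≤ C1 ^ 5 * (Cx * l i * l j) := mul_le_mul_of_nonneg_right hC15 (by positivity)
      _ = _ := by ring
  have hGdet := XE_det hCx h1 h2 hpr hFF hXE hdet
  have hGadj := XE_adj hpr hFF hXE hadj
  obtain ⟨p, hp, hple, hpge⟩ := p_exists hT0 hXE.lp hGadj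
  obtain ⟨A, hA⟩ : ∃ A : ℝ, A = (PP5N.mi2 G : ℝ) := ⟨_, rfl⟩
  have hA0 : 0 ≤ A := by rw [hA]; exact Nat.cast_nonneg _
  have hys1 : y ^ (1 / 1000 : ℝ) = s := hs.symm
  obtain ⟨m1, m2⟩ := hnx G hXE.sym hXE.ev hGdet hGadj l T (s ^ 4000) H (T ^ 3 / s) A p hY1 hXE.lp hly hT1
    hT4000 hH0 (by rw [hH, hys]; exact hHY) hW (by rw [hH, hys]; exact hLam2) hGb
    (fun n hn => by rw [hA]; exact mi2_ge hGadj n hn) hp hpge V (by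
      intro v hv
      obtain ⟨hz, hni⟩ := hV v hv
      refine ⟨hz.pr, hz.q, by rw [hH]; exact hz.bx, fun w hw1 hw2 hw3 => ?_⟩
      obtain ⟨i, j, hij⟩ := hni w hw1 hw2 hw3
      rw [hys1] at hij
      refine ⟨i, j, ?_⟩
      rw [div_le_iff₀ hs0]
      calc T ^ 3 ≤ _ := hij
        _ = _ := by ring)
  have hYs : (s ^ 4000 : ℝ) ^ (1 / 4000 : ℝ) = s := by
    rw [← Real.rpow_natCast, ← Real.rpow_mul hs0.le]
    norm_num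
  rw [hYs] at m1 m2
  -- the parameter `M`
  obtain ⟨a, ha⟩ : ∃ a : ℝ, a = T ^ 4 / ∏ i, l i := ⟨_, rfl⟩
  obtain ⟨B, hB⟩ : ∃ B : ℝ, B = A / p := ⟨_, rfl⟩
  obtain ⟨M, hM⟩ : ∃ M : ℝ, M = max 1 (max a B) := ⟨_, rfl⟩
  have hM1 : 1 ≤ M := by rw [hM]; exact le_max_left _ _
  have hMa : a ≤ M := by rw [hM]; exact (le_max_left _ _).trans (le_max_right _ _)
  have hMB : B ≤ M := by rw [hM]; exact (le_max_right _ _).trans (le_max_right _ _)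
  have haB : a * √B ≤ M * √M :=
    mul_le_mul hMa (Real.sqrt_le_sqrt hMB) (Real.sqrt_nonneg _) (by linarith)
  refine ⟨M, hM1, ?_, ?_, ?_⟩
  · intro R hR1 hRM
    rw [hM, lt_max_iff, lt_max_iff] at hRM
    rcases hRM with h | h | h
    · linarith
    · left
      rw [ha, lt_div_iff₀ hlam] at h
      exact h.le
    · right
      refine ⟨p, hp, hple, ?_⟩
      rw [hB, lt_div_iff₀ hp] at h
      rw [← hA]
      exact h.le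
  · exact px_r1 hC00 hCx0 hC1 hs1 hy0 hys hT0 hT hH hlam ha hB hM1 haB m1
  · exact px_r2 hC00 hCx0 hC1 hs1 hy0 hys hT0 hT hH m2

end Pool.Agent.PP5Z
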