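import Mathlib

/-!
# PP5 (D'), `D(x) = 0`: the sum over one dyadic class of `T`
-/

set_option autoImplicit false

namespace Pool.Agent.PP5Z

open Finset

theorem sm_class {X : Type*} (S : Finset X) (n M Tx : X → ℝ) {N0 D y u : ℝ} (hN0 : 0 ≤ N0)
    (hD : 0 ≤ D) (hy : 0 < y) (hu : 1 ≤ u)
    (hT : ∀ x ∈ S, 0 < Tx x ∧ Tx x ≤ u ^ 40 ∧ u ^ 40 ≤ 2 * Tx x) (hM1 : ∀ x ∈ S, 1 ≤ M x)
    (h1 : ∀ x ∈ S, n x ≤ D * (y ^ 2 / Tx x ^ 3) * (M x * √(M x)))
    (h2 : ∀ x ∈ S, n x ≤ D * (y ^ 3 / (Tx x ^ 3 * √(Tx x))))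
    (ha : ∀ S' : Finset X, S' ⊆ S → (S'.card : ℝ) * u ^ 20 ≤ N0)
    (hb : ∀ R : ℝ, 1 ≤ R → R ≤ u ^ 40 → ∀ S' : Finset X, S' ⊆ S → (∀ x ∈ S', R < M x) →
      (S'.card : ℝ) * R ^ 3 ≤ 4 * N0) :
    ∑ x ∈ S, n x ≤ 72 * D * N0 * y ^ 2 / u ^ 123 + 64 * D * N0 * y ^ 3 / u ^ 236 := by
  classical
  have hu0 : 0 < u := by linarith
  -- the bound by `M`
  have key : ∀ S' : Finset X, S' ⊆ S → ∀ V K : ℝ, 0 ≤ V → (∀ x ∈ S', M x ≤ V ^ 2) →
      (S'.card : ℝ) ≤ K → ∑ x ∈ S', n x ≤ K * (8 * D * y ^ 2 * V ^ 3 / u ^ 120) := by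
    intro S' hS' V K hV hMV hK
    have h3 : ∀ x ∈ S', n x ≤ 8 * D * y ^ 2 * V ^ 3 / u ^ 120 := by
      intro x hx
      obtain ⟨hT0, hT1, hT2⟩ := hT x (hS' hx)
      have hM0 : 0 < M x := by linarith [hM1 x (hS' hx)]
      have hsq : √(M x) ≤ V := by
        rw [← Real.sqrt_sq hV]
        exact Real.sqrt_le_sqrt (hMV x hx)
      have h4 : M x * √(M x) ≤ V ^ 3 := by
        calc M x * √(M x) ≤ V ^ 2 * V := mul_le_mul (hMV x hx) hsq (Real.sqrt_nonneg _) (by positivity)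
          _ = _ := by ring
      have h5 : u ^ 120 ≤ 8 * Tx x ^ 3 := by
        calc u ^ 120 = (u ^ 40) ^ 3 := by ring
          _ ≤ (2 * Tx x) ^ 3 := pow_le_pow_left₀ (by positivity) hT2 3
          _ = _ := by ring
      have h6 : y ^ 2 / Tx x ^ 3 ≤ 8 * y ^ 2 / u ^ 120 := by
        rw [div_le_div_iff₀ (by positivity) (by positivity)]
        calc y ^ 2 * u ^ 120 ≤ y ^ 2 * (8 * Tx x ^ 3) := mul_le_mul_of_nonneg_left h5 (by positivity)
          _ = _ := by ring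
      refine (h1 x (hS' hx)).trans ?_
      calc D * (y ^ 2 / Tx x ^ 3) * (M x * √(M x)) ≤ D * (8 * y ^ 2 / u ^ 120) * V ^ 3 := by
            refine mul_le_mul (mul_le_mul_of_nonneg_left h6 hD) h4 (by positivity) (by positivity)
        _ = _ := by ring
    refine (Finset.sum_le_card_nsmul S' n _ h3).trans ?_
    rw [nsmul_eq_mul]
    exact mul_le_mul_of_nonneg_right hK (by positivity)
  have key2 : ∀ S' : Finset X, S' ⊆ S → ∀ K : ℝ, (S'.card : ℝ) ≤ K →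
      ∑ x ∈ S', n x ≤ K * (16 * D * y ^ 3 / u ^ 140) := by
    intro S' hS' K hK
    have h3 : ∀ x ∈ S', n x ≤ 16 * D * y ^ 3 / u ^ 140 := by
      intro x hx
      obtain ⟨hT0, hT1, hT2⟩ := hT x (hS' hx)
      have hsq0 : 0 < √(Tx x) := Real.sqrt_pos.2 hT0
      have h5 : u ^ 120 ≤ 8 * Tx x ^ 3 := by
        calc u ^ 120 = (u ^ 40) ^ 3 := by ring
          _ ≤ (2 * Tx x) ^ 3 := pow_le_pow_left₀ (by positivity) hT2 3
          _ = _ := by ring
      have h6 : u ^ 20 ≤ 2 * √(Tx x) := by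
        have e : u ^ 20 = √(u ^ 40) := by
          rw [show u ^ 40 = (u ^ 20) ^ 2 by ring, Real.sqrt_sq (by positivity)]
        have e2 : (2 : ℝ) * √(Tx x) = √(4 * Tx x) := by
          rw [Real.sqrt_mul (by norm_num), show (4 : ℝ) = 2 ^ 2 by norm_num, Real.sqrt_sq (by norm_num)]
        rw [e, e2]
        exact Real.sqrt_le_sqrt (by linarith)
      have h7 : u ^ 140 ≤ 16 * (Tx x ^ 3 * √(Tx x)) := by
        calc u ^ 140 = u ^ 120 * u ^ 20 := by ring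
          _ ≤ (8 * Tx x ^ 3) * (2 * √(Tx x)) := mul_le_mul h5 h6 (by positivity) (by positivity)
          _ = _ := by ring
      have h8 : y ^ 3 / (Tx x ^ 3 * √(Tx x)) ≤ 16 * y ^ 3 / u ^ 140 := by
        rw [div_le_div_iff₀ (by positivity) (by positivity)]
        calc y ^ 3 * u ^ 140 ≤ y ^ 3 * (16 * (Tx x ^ 3 * √(Tx x))) :=
              mul_le_mul_of_nonneg_left h7 (by positivity)
          _ = _ := by ring
      refine (h2 x (hS' hx)).trans ?_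
      calc D * (y ^ 3 / (Tx x ^ 3 * √(Tx x))) ≤ D * (16 * y ^ 3 / u ^ 140) :=
            mul_le_mul_of_nonneg_left h8 hD
        _ = _ := by ring
    refine (Finset.sum_le_card_nsmul S' n _ h3).trans ?_
    rw [nsmul_eq_mul]
    exact mul_le_mul_of_nonneg_right hK (by positivity)
  -- the four classes
  set S1 := S.filter (fun x => M x ≤ u ^ 10) with hS1
  set T1 := S.filter (fun x => ¬ M x ≤ u ^ 10) with hT1
  set S2 := T1.filter (fun x => M x ≤ u ^ 18) with hS2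
  set T2 := T1.filter (fun x => ¬ M x ≤ u ^ 18) with hT2
  set S3 := T2.filter (fun x => M x ≤ u ^ 32) with hS3
  set S4 := T2.filter (fun x => ¬ M x ≤ u ^ 32) with hS4
  have s1 : S1 ⊆ S := Finset.filter_subset _ _
  have t1 : T1 ⊆ S := Finset.filter_subset _ _
  have s2 : S2 ⊆ S := (Finset.filter_subset _ _).trans t1
  have t2 : T2 ⊆ S := (Finset.filter_subset _ _).trans t1
  have s3 : S3 ⊆ S := (Finset.filter_subset _ _).trans t2
  have s4 : S4 ⊆ S := (Finset.filter_subset _ _).trans t2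
  have hsplit : ∑ x ∈ S, n x = ∑ x ∈ S1, n x + (∑ x ∈ S2, n x + (∑ x ∈ S3, n x + ∑ x ∈ S4, n x)) := by
    rw [hS3, hS4, Finset.sum_filter_add_sum_filter_not, hS2, hT2, Finset.sum_filter_add_sum_filter_not,
      hS1, hT1, Finset.sum_filter_add_sum_filter_not]
  have c1 : (S1.card : ℝ) ≤ N0 / u ^ 20 := by
    rw [le_div_iff₀ (by positivity)]
    exact ha S1 s1
  have c2 : (S2.card : ℝ) ≤ 4 * N0 / u ^ 30 := by
    rw [le_div_iff₀ (by positivity)]
    have h3 := hb (u ^ 10) (one_le_pow₀ hu) (pow_le_pow_right₀ hu (by norm_num)) S2 s2 (fun x hx => by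
      have h4 := (Finset.mem_filter.mp hx).1
      exact not_le.1 (Finset.mem_filter.mp h4).2)
    calc (S2.card : ℝ) * u ^ 30 = (S2.card : ℝ) * (u ^ 10) ^ 3 := by ring
      _ ≤ _ := h3
  have c3 : (S3.card : ℝ) ≤ 4 * N0 / u ^ 54 := by
    rw [le_div_iff₀ (by positivity)]
    have h3 := hb (u ^ 18) (one_le_pow₀ hu) (pow_le_pow_right₀ hu (by norm_num)) S3 s3 (fun x hx => by
      have h4 := (Finset.mem_filter.mp hx).1
      exact not_le.1 (Finset.mem_filter.mp h4).2)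
    calc (S3.card : ℝ) * u ^ 54 = (S3.card : ℝ) * (u ^ 18) ^ 3 := by ring
      _ ≤ _ := h3
  have c4 : (S4.card : ℝ) ≤ 4 * N0 / u ^ 96 := by
    rw [le_div_iff₀ (by positivity)]
    have h3 := hb (u ^ 32) (one_le_pow₀ hu) (pow_le_pow_right₀ hu (by norm_num)) S4 s4 (fun x hx =>
      not_le.1 (Finset.mem_filter.mp hx).2)
    calc (S4.card : ℝ) * u ^ 96 = (S4.card : ℝ) * (u ^ 32) ^ 3 := by ring
      _ ≤ _ := h3
  have b1 := key S1 s1 (u ^ 5) _ (by positivity) (fun x hx => by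
    have := (Finset.mem_filter.mp hx).2
    calc M x ≤ u ^ 10 := this
      _ = (u ^ 5) ^ 2 := by ring) c1
  have b2 := key S2 s2 (u ^ 9) _ (by positivity) (fun x hx => by
    have := (Finset.mem_filter.mp hx).2
    calc M x ≤ u ^ 18 := this
      _ = (u ^ 9) ^ 2 := by ring) c2
  have b3 := key S3 s3 (u ^ 16) _ (by positivity) (fun x hx => by
    have := (Finset.mem_filter.mp hx).2
    calc M x ≤ u ^ 32 := this
      _ = (u ^ 16) ^ 2 := by ring) c3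
  have b4 := key2 S4 s4 _ c4
  have hX : 0 ≤ D * N0 * y ^ 2 := by positivity
  have e1 : N0 / u ^ 20 * (8 * D * y ^ 2 * (u ^ 5) ^ 3 / u ^ 120) = 8 * (D * N0 * y ^ 2) / u ^ 125 := by
    field_simp
  have e2 : 4 * N0 / u ^ 30 * (8 * D * y ^ 2 * (u ^ 9) ^ 3 / u ^ 120) = 32 * (D * N0 * y ^ 2) / u ^ 123 := by
    field_simp
    ring
  have e3 : 4 * N0 / u ^ 54 * (8 * D * y ^ 2 * (u ^ 16) ^ 3 / u ^ 120) = 32 * (D * N0 * y ^ 2) / u ^ 126 := by
    field_simp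
    ring
  have e4 : 4 * N0 / u ^ 96 * (16 * D * y ^ 3 / u ^ 140) = 64 * D * N0 * y ^ 3 / u ^ 236 := by
    field_simp
    ring
  have f1 : 8 * (D * N0 * y ^ 2) / u ^ 125 ≤ 8 * (D * N0 * y ^ 2) / u ^ 123 :=
    div_le_div_of_nonneg_left (by positivity) (by positivity) (pow_le_pow_right₀ hu (by norm_num))
  have f3 : 32 * (D * N0 * y ^ 2) / u ^ 126 ≤ 32 * (D * N0 * y ^ 2) / u ^ 123 :=
    div_le_div_of_nonneg_left (by positivity) (by positivity) (pow_le_pow_right₀ hu (by norm_num))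
  rw [e1] at b1
  rw [e2] at b2
  rw [e3] at b3
  rw [e4] at b4
  rw [hsplit]
  calc _ ≤ 8 * (D * N0 * y ^ 2) / u ^ 123 + (32 * (D * N0 * y ^ 2) / u ^ 123 +
        (32 * (D * N0 * y ^ 2) / u ^ 123 + 64 * D * N0 * y ^ 3 / u ^ 236)) := by linarith
    _ = _ := by ring

end Pool.Agent.PP5Z
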