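import Pool.Agent.PP5Z.Px
import Pool.Agent.PP5Z.Sms
import Pool.Agent.PP5P.Cls

/-!
# PP5 (D'), `D(x) = 0`: the sum over `x`
-/

set_option autoImplicit false

namespace Pool.Agent.PP5Z

open Matrix Finset Pool.Agent.PP5 Pool.Agent.PP5B Pool.Agent.PP5S Pool.Agent.PP5P

private theorem Sm_root {X Z : ℝ} (hX : 0 ≤ X) (hZ : 0 ≤ Z) (h : X ≤ Z ^ 1000) :
    X ^ (1 / 1000 : ℝ) ≤ Z := by
  have h1 := Real.rpow_le_rpow hX h (show (0 : ℝ) ≤ 1 / 1000 by norm_num)
  refine h1.trans (le_of_eq ?_)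
  rw [← Real.rpow_natCast, ← Real.rpow_mul hZ]
  norm_num

/-- the sum over the `x` with `D(x) = 0` -/
theorem sm (Cx C1 : ℝ) (hCx : 1 ≤ Cx) (hC1 : 1 ≤ C1) : ∃ c1 d0 η y0 C : ℝ, 0 < c1 ∧
    0 < d0 ∧ 0 < η ∧ 1 ≤ y0 ∧ 0 ≤ C ∧ ∀ y t1 t2 : ℝ, y0 ≤ y → 1 ≤ t1 → 1 ≤ t2 → t1 * t2 ≤ y ^ d0 →
    ∀ (Tf : (Fin 10 → ℤ) → ℝ) (bf : (Fin 10 → ℤ) → Fin 4 → PP5.Sp)
      (Gf : (Fin 10 → ℤ) → Matrix (Fin 4) (Fin 4) ℤ) (lf : (Fin 10 → ℤ) → Fin 4 → ℝ)
      (E : Finset (Fin 10 → ℤ)) (Vf : (Fin 10 → ℤ) → Finset (Fin 4 → ℤ)),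
    (∀ x ∈ E, (∀ p : ℕ, p.Prime → ∃ j, ¬ (p : ℤ) ∣ x j) ∧ PP5L.FF x = 0 ∧
      (PP5L.SS x).det = 0 ∧ (PP5L.SS x).adjugate ≠ 0 ∧ XE Cx t1 t2 (Tf x) x (bf x) (Gf x) (lf x) ∧
      Tf x ≤ C1 * y ^ (2 / 5 : ℝ) ∧
      ∀ v ∈ Vf x, Zv (Gf x) (lf x) (16 * Cx * y) v ∧ NI y c1 (Tf x) (Gf x) (lf x) v) →
    ∑ x ∈ E, ((Vf x).card : ℝ) ≤ C * y ^ (4 - η) := by
  classical
  obtain ⟨C2, y1, hC2, hy1, hpx⟩ := px Cx C1 hCx hC1
  obtain ⟨aK, CK, haK, hCK, hK⟩ := ckz Cx hCx (1 / 1000) (by norm_num)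
  obtain ⟨aA, CA, haA, hCA, hA⟩ := caz Cx hCx (1 / 1000) (by norm_num)
  obtain ⟨aD, CD, haD, hCD, hD⟩ := cdz Cx hCx (1 / 1000) (by norm_num)
  obtain ⟨C3, hC3, hcls⟩ := PP5P.cls (X := Fin 10 → ℤ) 1 (show (0 : ℝ) < 1 / 1000 by norm_num)
  obtain ⟨a, ha⟩ : ∃ a : ℝ, a = aK + aA + aD := ⟨_, rfl⟩
  obtain ⟨Cc, hCc⟩ : ∃ Cc : ℝ, Cc = CK + CA + CD := ⟨_, rfl⟩
  have ha0 : 0 ≤ a := by rw [ha]; positivity
  have hCc1 : 1 ≤ Cc := by rw [hCc]; linarith
  have hC10 : 0 < C1 := by linarith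
  have hC20 : 0 < C2 := by linarith
  have hC30 : 0 < C3 := by linarith
  have hCc0 : 0 < Cc := by linarith
  refine ⟨1 / 1000, 1 / (1000 * (a + 1)), 1 / 100, y1,
    3 ^ 10 * C2 + C3 * C1 * (136 * C2 * Cc * (2 * C1) ^ 198), by norm_num, by positivity, by norm_num,
    hy1, by positivity, ?_⟩
  intro y t1 t2 hy h1 h2 hts Tf bf Gf lf E Vf hE
  have hyge : 1 ≤ y := hy1.trans hy
  have hy0 : 0 < y := by linarith
  obtain ⟨s, hs⟩ : ∃ s : ℝ, s = y ^ (1 / 1000 : ℝ) := ⟨_, rfl⟩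
  have hs1 : 1 ≤ s := by rw [hs]; exact Real.one_le_rpow hyge (by norm_num)
  have hs0 : 0 < s := by linarith
  have hys : y = s ^ 1000 := by
    rw [hs, ← Real.rpow_natCast, ← Real.rpow_mul hy0.le]
    norm_num
  have hy25 : y ^ (2 / 5 : ℝ) = s ^ 400 := by
    rw [hs, ← Real.rpow_natCast, ← Real.rpow_mul hy0.le]
    norm_num
  have hy500 : y ^ (1 / 500 : ℝ) = s ^ 2 := by
    rw [hs, ← Real.rpow_natCast, ← Real.rpow_mul hy0.le]
    norm_num
  have hy399 : y ^ (4 - 1 / 100 : ℝ) = s ^ 3990 := by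
    rw [hs, ← Real.rpow_natCast, ← Real.rpow_mul hy0.le]
    norm_num
  have ht1 : 1 ≤ t1 * t2 := one_le_mul_of_one_le_of_one_le h1 h2
  have ht0 : 0 < t1 * t2 := by linarith
  have hts1 : t1 * t2 ≤ s := by
    refine hts.trans ?_
    rw [hs]
    apply Real.rpow_le_rpow_of_exponent_le hyge
    rw [div_le_div_iff₀ (by positivity) (by norm_num)]
    linarith
  -- powers of `t1 t2`
  have hta : ∀ b : ℝ, 0 ≤ b → b ≤ a → (t1 * t2) ^ b ≤ s := by
    intro b hb hba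
    calc (t1 * t2) ^ b ≤ (y ^ (1 / (1000 * (a + 1)))) ^ b := Real.rpow_le_rpow ht0.le hts hb
      _ = y ^ (1 / (1000 * (a + 1)) * b) := by rw [← Real.rpow_mul hy0.le]
      _ ≤ y ^ (1 / 1000 : ℝ) := by
          apply Real.rpow_le_rpow_of_exponent_le hyge
          rw [div_mul_eq_mul_div, one_mul, div_le_div_iff₀ (by positivity) (by norm_num)]
          linarith
      _ = s := hs.symm
  -- the data of `x`
  have hM : ∀ x, x ∈ E → ∃ M : ℝ, 1 ≤ M ∧ (∀ R : ℝ, 1 ≤ R → R < M →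
      (R * ∏ i, lf x i ≤ Tf x ^ 4) ∨
      (∃ p : ℝ, 0 < p ∧ (∀ i j a b, |((mr (Gf x) i j a b : ℤ) : ℝ)| * Tf x ^ 2
        ≤ p * (lf x i * lf x j * lf x a * lf x b)) ∧ R * p ≤ (PP5N.mi2 (Gf x) : ℝ))) ∧
      ((Vf x).card : ℝ) ≤ C2 * s ^ 2 * (y ^ 2 / Tf x ^ 3) * (M * √M) ∧
      ((Vf x).card : ℝ) ≤ C2 * s ^ 2 * (y ^ 3 / (Tf x ^ 3 * √(Tf x))) := by
    intro x hx
    obtain ⟨e1, e2, e3, e4, e5, e6, e7⟩ := hE x hx
    have h3 := hpx y t1 t2 hy h1 h2 (by rw [← hs]; exact hts1) (Tf x) x (bf x) (Gf x) (lf x) e1 e2 e3 e4 e5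
      e6 (Vf x) e7
    rw [hy500] at h3
    exact h3
  choose! M hM1 hMR hn1 hn2 using hM
  have hT0 : ∀ x ∈ E, 0 < Tf x := fun x hx => (hE x hx).2.2.2.2.1.T0
  set E0 := E.filter (fun x => Tf x < 1) with hE0
  set E1 := E.filter (fun x => ¬ Tf x < 1) with hE1
  have hsplit : ∑ x ∈ E, ((Vf x).card : ℝ) = ∑ x ∈ E0, ((Vf x).card : ℝ) + ∑ x ∈ E1, ((Vf x).card : ℝ) := by
    rw [hE0, hE1, Finset.sum_filter_add_sum_filter_not]
  -- the small `x`
  have hE0b : ∑ x ∈ E0, ((Vf x).card : ℝ) ≤ 3 ^ 10 * C2 * s ^ 3029 := by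
    have hc : (E0.card : ℝ) ≤ 3 ^ 10 * s ^ 20 := by
      refine (small_x h1 h2 E0 ?_).trans ?_
      · intro x hx j
        obtain ⟨h3, h4⟩ := Finset.mem_filter.mp hx
        have h5 := (hE x h3).2.2.2.2.1.Tle j
        have h6 := PP5.tx_pos (show 0 < t1 by linarith) (show 0 < t2 by linarith) j
        calc |(x j : ℝ)| ≤ Tf x * PP5.tx t1 t2 j := h5
          _ ≤ 1 * PP5.tx t1 t2 j := mul_le_mul_of_nonneg_right h4.le h6.le
          _ = _ := one_mul _
      · exact mul_le_mul_of_nonneg_left (pow_le_pow_left₀ ht0.le hts1 20) (by positivity)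
    have hn : ∀ x ∈ E0, ((Vf x).card : ℝ) ≤ C2 * s ^ 3009 := by
      intro x hx
      obtain ⟨h3, h4⟩ := Finset.mem_filter.mp hx
      obtain ⟨e1, -, -, -, e5, -, -⟩ := hE x h3
      have hx0 : x ≠ 0 := by
        rintro rfl
        obtain ⟨j, hj⟩ := e1 2 Nat.prime_two
        exact hj (dvd_zero _)
      have hTlo := T_lo e5 h1 h2 hx0
      have hTx := hT0 x h3
      have hsT : 1 ≤ s ^ 2 * Tf x := by
        have : (t1 * t2) ^ 2 ≤ s ^ 2 := pow_le_pow_left₀ ht0.le hts1 2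
        calc 1 ≤ (t1 * t2) ^ 2 * Tf x := hTlo
          _ ≤ s ^ 2 * Tf x := mul_le_mul_of_nonneg_right this hTx.le
      have hsq : 1 ≤ s * √(Tf x) := by
        have h5 : √(s ^ 2 * Tf x) = s * √(Tf x) := by
          rw [Real.sqrt_mul (by positivity), Real.sqrt_sq hs0.le]
        rw [← h5]
        exact Real.one_le_sqrt.2 hsT
      have hq0 : 0 < √(Tf x) := Real.sqrt_pos.2 hTx
      refine (hn2 x h3).trans ?_
      have h6 : y ^ 3 / (Tf x ^ 3 * √(Tf x)) ≤ s ^ 3007 := by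
        rw [div_le_iff₀ (by positivity), hys]
        have h7 : 1 ≤ (s ^ 2 * Tf x) ^ 3 * (s * √(Tf x)) := by
          exact one_le_mul_of_one_le_of_one_le (one_le_pow₀ hsT) hsq
        calc (s ^ 1000) ^ 3 = s ^ 3000 * 1 := by ring
          _ ≤ s ^ 3000 * ((s ^ 2 * Tf x) ^ 3 * (s * √(Tf x))) :=
              mul_le_mul_of_nonneg_left h7 (by positivity)
          _ = _ := by ring
      calc C2 * s ^ 2 * (y ^ 3 / (Tf x ^ 3 * √(Tf x))) ≤ C2 * s ^ 2 * s ^ 3007 :=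
            mul_le_mul_of_nonneg_left h6 (by positivity)
        _ = _ := by ring
    refine (Finset.sum_le_card_nsmul E0 _ _ hn).trans ?_
    rw [nsmul_eq_mul]
    calc (E0.card : ℝ) * (C2 * s ^ 3009) ≤ (3 ^ 10 * s ^ 20) * (C2 * s ^ 3009) :=
          mul_le_mul_of_nonneg_right hc (by positivity)
      _ = _ := by ring
  -- the others
  have hE1b : ∑ x ∈ E1, ((Vf x).card : ℝ) ≤ C3 * C1 * (136 * C2 * Cc * (2 * C1) ^ 198) * s ^ 3975 := by
    obtain ⟨Y, hY⟩ : ∃ Y : ℝ, Y = C1 * s ^ 400 := ⟨_, rfl⟩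
    have hY1 : 1 ≤ Y := by
      rw [hY]
      exact one_le_mul_of_one_le_of_one_le hC1 (one_le_pow₀ hs1)
    have hYr : Y ^ (1 / 1000 : ℝ) ≤ C1 * s := by
      apply Sm_root (by linarith) (by positivity)
      rw [hY, mul_pow]
      exact mul_le_mul (le_self_pow₀ hC1 (by norm_num)) (pow_le_pow_right₀ hs1 (by norm_num))
        (by positivity) (by positivity)
    have h3 := hcls Y hY1 E1 (fun x _ => Tf x) (fun x => ((Vf x).card : ℝ))
      (136 * C2 * Cc * (2 * C1) ^ 198 * s ^ 3974) (by positivity) (by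
        intro x hx _
        obtain ⟨h4, h5⟩ := Finset.mem_filter.mp hx
        refine ⟨not_lt.1 h5, ?_⟩
        rw [hY, ← hy25]
        exact (hE x h4).2.2.2.2.2.1) (by
        intro Q hQ S hS hSQ
        obtain ⟨hQ1, hQY⟩ := hQ 0
        obtain ⟨T, hT⟩ : ∃ T : ℝ, T = 2 * Q 0 := ⟨_, rfl⟩
        have hT1 : 1 ≤ T := by rw [hT]; linarith
        have hTp : 0 < T := by linarith
        have hTY : T ≤ 2 * C1 * s ^ 400 := by rw [hT]; rw [hY] at hQY; linarith
        obtain ⟨u, hu⟩ : ∃ u : ℝ, u = T ^ (1 / 40 : ℝ) := ⟨_, rfl⟩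
        have hu1 : 1 ≤ u := by rw [hu]; exact Real.one_le_rpow hT1 (by norm_num)
        have hu0 : 0 < u := by linarith
        have huT : u ^ 40 = T := by
          rw [hu, ← Real.rpow_natCast, ← Real.rpow_mul hTp.le]
          norm_num
        have hus : u ≤ 2 * C1 * s ^ 10 := by
          have h4 : u ^ 40 ≤ (2 * C1 * s ^ 10) ^ 40 := by
            rw [huT]
            refine hTY.trans ?_
            rw [mul_pow, ← pow_mul]
            exact mul_le_mul_of_nonneg_right (le_self_pow₀ (by linarith) (by norm_num)) (by positivity)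
          exact (pow_le_pow_iff_left₀ hu0.le (by positivity) (by norm_num)).1 h4
        obtain ⟨N0, hN0⟩ : ∃ N0 : ℝ, N0 = Cc * s * T ^ (8 + 1 / 1000 : ℝ) := ⟨_, rfl⟩
        have hN00 : 0 ≤ N0 := by rw [hN0]; positivity
        have hTr : T ^ (8 + 1 / 1000 : ℝ) ≤ u ^ 320 * (2 * C1 * s) := by
          rw [Real.rpow_add hTp]
          have e1 : T ^ (8 : ℝ) = u ^ 320 := by
            rw [← huT, show (8 : ℝ) = ((8 : ℕ) : ℝ) by norm_num, Real.rpow_natCast]
            ring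
          rw [e1]
          refine mul_le_mul_of_nonneg_left ?_ (by positivity)
          apply Sm_root hTp.le (by positivity)
          refine hTY.trans ?_
          rw [mul_pow]
          exact mul_le_mul (le_self_pow₀ (by linarith) (by norm_num)) (pow_le_pow_right₀ hs1 (by norm_num))
            (by positivity) (by positivity)
        have hSE : ∀ x ∈ S, x ∈ E := fun x hx => (Finset.mem_filter.mp (hS hx)).1
        have hTx : ∀ x ∈ S, 0 < Tf x ∧ Tf x ≤ u ^ 40 ∧ u ^ 40 ≤ 2 * Tf x := by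
          intro x hx
          obtain ⟨h4, h5⟩ := hSQ x hx 0
          rw [huT, hT]
          exact ⟨hT0 x (hSE x hx), h5, by linarith⟩
        have hTx' : ∀ x ∈ S, Tf x ≤ T ∧ T ≤ 2 * Tf x := by
          intro x hx
          have := hTx x hx
          rw [huT] at this
          exact this.2
        have hxat : ∀ x ∈ S, ∀ Φ : ℝ → (Fin 10 → ℤ) → Matrix (Fin 4) (Fin 4) ℤ → (Fin 4 → ℝ) → Prop,
            Φ (Tf x) x (Gf x) (lf x) → Xatz Cx t1 t2 T Φ x := by
          intro x hx Φ hΦ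
          obtain ⟨e1, e2, -, -, e5, -, -⟩ := hE x (hSE x hx)
          exact ⟨e1, e2, Tf x, bf x, Gf x, lf x, e5, (hTx' x hx).1, (hTx' x hx).2, hΦ⟩
        have h4 := sm_class S (fun x => ((Vf x).card : ℝ)) M Tf (N0 := N0) (D := C2 * s ^ 2) (y := y)
          (u := u) hN00 (by positivity) hy0 hu1 hTx (fun x hx => hM1 x (hSE x hx))
          (fun x hx => hn1 x (hSE x hx)) (fun x hx => hn2 x (hSE x hx)) (by
            intro S' hS'
            have h5 := hD t1 t2 T 1 h1 h2 hT1 le_rfl S' (fun x hx =>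
              hxat x (hS' hx) _ (hE x (hSE x (hS' hx))).2.2.1)
            have e1 : T ^ (-(1 / 2) : ℝ) * u ^ 20 = 1 := by
              have e2 : u ^ 20 = T ^ (1 / 2 : ℝ) := by
                rw [hu, ← Real.rpow_natCast, ← Real.rpow_mul hTp.le]
                norm_num
              rw [e2, ← Real.rpow_add hTp]
              norm_num
            calc (S'.card : ℝ) * u ^ 20 ≤
                  CD * (t1 * t2) ^ aD * T ^ (8 + 1 / 1000 : ℝ) * T ^ (-(1 / 2) : ℝ) * u ^ 20 :=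
                  mul_le_mul_of_nonneg_right h5 (by positivity)
              _ = CD * (t1 * t2) ^ aD * T ^ (8 + 1 / 1000 : ℝ) * (T ^ (-(1 / 2) : ℝ) * u ^ 20) := by ring
              _ = CD * (t1 * t2) ^ aD * T ^ (8 + 1 / 1000 : ℝ) := by rw [e1, mul_one]
              _ ≤ Cc * s * T ^ (8 + 1 / 1000 : ℝ) := by
                  refine mul_le_mul_of_nonneg_right ?_ (by positivity)
                  exact mul_le_mul (by rw [hCc]; linarith) (hta aD haD (by rw [ha]; linarith))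
                    (by positivity) hCc0.le
              _ = N0 := hN0.symm) (by
            intro R hR1 hRu S' hS' hRM
            rw [huT] at hRu
            have hR0 : 0 < R := by linarith
            have hsub : S' ⊆ (S'.filter fun x => R * ∏ i, lf x i ≤ Tf x ^ 4) ∪
                (S'.filter fun x => ∃ p : ℝ, 0 < p ∧ (∀ i j a b, |((mr (Gf x) i j a b : ℤ) : ℝ)| * Tf x ^ 2
                  ≤ p * (lf x i * lf x j * lf x a * lf x b)) ∧ R * p ≤ (PP5N.mi2 (Gf x) : ℝ)) := by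
              intro x hx
              rcases hMR x (hSE x (hS' hx)) R hR1 (hRM x hx) with h5 | h5
              · exact Finset.mem_union_left _ (Finset.mem_filter.2 ⟨hx, h5⟩)
              · exact Finset.mem_union_right _ (Finset.mem_filter.2 ⟨hx, h5⟩)
            have hcard := (Finset.card_le_card hsub).trans (Finset.card_union_le _ _)
            have hcard' : (S'.card : ℝ) ≤
                ((S'.filter fun x => R * ∏ i, lf x i ≤ Tf x ^ 4).card : ℝ) +
                ((S'.filter fun x => ∃ p : ℝ, 0 < p ∧ (∀ i j a b, |((mr (Gf x) i j a b : ℤ) : ℝ)| *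
                  Tf x ^ 2 ≤ p * (lf x i * lf x j * lf x a * lf x b)) ∧
                  R * p ≤ (PP5N.mi2 (Gf x) : ℝ)).card : ℝ) := by exact_mod_cast hcard
            have k1 := hK t1 t2 T R h1 h2 hT1 hR1 (S'.filter fun x => R * ∏ i, lf x i ≤ Tf x ^ 4)
              (fun x hx => by
                obtain ⟨h5, h6⟩ := Finset.mem_filter.mp hx
                exact hxat x (hS' h5) _ h6)
            have k2 := hA t1 t2 T R h1 h2 hT1 hR1 (S'.filter fun x => ∃ p : ℝ, 0 < p ∧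
                (∀ i j a b, |((mr (Gf x) i j a b : ℤ) : ℝ)| * Tf x ^ 2
                  ≤ p * (lf x i * lf x j * lf x a * lf x b)) ∧ R * p ≤ (PP5N.mi2 (Gf x) : ℝ))
              (fun x hx => by
                obtain ⟨h5, h6⟩ := Finset.mem_filter.mp hx
                exact hxat x (hS' h5) _ h6)
            have hRT : (R⁻¹ ^ 3 + T⁻¹ ^ 3) * R ^ 3 ≤ 2 := by
              have e1 : R⁻¹ ^ 3 * R ^ 3 = 1 := by
                rw [← mul_pow, inv_mul_cancel₀ hR0.ne', one_pow]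
              have e2 : T⁻¹ ^ 3 * R ^ 3 ≤ 1 := by
                rw [← mul_pow]
                apply pow_le_one₀ (by positivity)
                rw [inv_mul_eq_div, div_le_one hTp]
                exact hRu
              rw [add_mul]
              linarith
            have k3 : ∀ (C a' m : ℝ), 0 ≤ C → 0 ≤ a' → a' ≤ a →
                m ≤ C * (t1 * t2) ^ a' * T ^ (8 + 1 / 1000 : ℝ) * (R⁻¹ ^ 3 + T⁻¹ ^ 3) →
                m * R ^ 3 ≤ 2 * (C * s * T ^ (8 + 1 / 1000 : ℝ)) := by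
              intro C a' m hC ha' ha'' hm
              calc m * R ^ 3 ≤ C * (t1 * t2) ^ a' * T ^ (8 + 1 / 1000 : ℝ) * (R⁻¹ ^ 3 + T⁻¹ ^ 3) * R ^ 3 :=
                    mul_le_mul_of_nonneg_right hm (by positivity)
                _ = C * (t1 * t2) ^ a' * T ^ (8 + 1 / 1000 : ℝ) * ((R⁻¹ ^ 3 + T⁻¹ ^ 3) * R ^ 3) := by ring
                _ ≤ C * s * T ^ (8 + 1 / 1000 : ℝ) * 2 := by
                    refine mul_le_mul ?_ hRT (by positivity) (by positivity)
                    refine mul_le_mul_of_nonneg_right ?_ (by positivity)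
                    exact mul_le_mul_of_nonneg_left (hta a' ha' ha'') hC
                _ = _ := by ring
            have k4 := k3 CK aK _ (by linarith) haK (by rw [ha]; linarith) k1
            have k5 := k3 CA aA _ (by linarith) haA (by rw [ha]; linarith) k2
            have hX : 0 ≤ s * T ^ (8 + 1 / 1000 : ℝ) := by positivity
            calc (S'.card : ℝ) * R ^ 3 ≤ _ := mul_le_mul_of_nonneg_right hcard' (by positivity)
              _ ≤ 2 * (CK * s * T ^ (8 + 1 / 1000 : ℝ)) + 2 * (CA * s * T ^ (8 + 1 / 1000 : ℝ)) := by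
                  rw [add_mul]; exact add_le_add k4 k5
              _ = 2 * (CK + CA) * (s * T ^ (8 + 1 / 1000 : ℝ)) := by ring
              _ ≤ 4 * Cc * (s * T ^ (8 + 1 / 1000 : ℝ)) := by
                  refine mul_le_mul_of_nonneg_right ?_ hX
                  rw [hCc]; linarith
              _ = 4 * N0 := by rw [hN0]; ring)
        refine h4.trans ?_
        have hN0u : N0 ≤ Cc * (2 * C1) * s ^ 2 * u ^ 320 := by
          rw [hN0]
          calc Cc * s * T ^ (8 + 1 / 1000 : ℝ) ≤ Cc * s * (u ^ 320 * (2 * C1 * s)) :=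
                mul_le_mul_of_nonneg_left hTr (by positivity)
            _ = _ := by ring
        have g1 : 72 * (C2 * s ^ 2) * N0 * y ^ 2 / u ^ 123 ≤ 72 * C2 * Cc * (2 * C1) ^ 198 * s ^ 3974 := by
          rw [div_le_iff₀ (by positivity)]
          calc 72 * (C2 * s ^ 2) * N0 * y ^ 2 ≤
                72 * (C2 * s ^ 2) * (Cc * (2 * C1) * s ^ 2 * u ^ 320) * y ^ 2 := by gcongr
            _ = 72 * C2 * Cc * (2 * C1) * s ^ 2004 * u ^ 197 * u ^ 123 := by rw [hys]; ring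
            _ ≤ 72 * C2 * Cc * (2 * C1) * s ^ 2004 * (2 * C1 * s ^ 10) ^ 197 * u ^ 123 := by gcongr
            _ = _ := by ring
        have g2 : 64 * (C2 * s ^ 2) * N0 * y ^ 3 / u ^ 236 ≤ 64 * C2 * Cc * (2 * C1) ^ 198 * s ^ 3974 := by
          rw [div_le_iff₀ (by positivity)]
          have q1 : (2 * C1) ^ 85 ≤ (2 * C1) ^ 198 := pow_le_pow_right₀ (by linarith) (by norm_num)
          have q2 : s ^ 3844 ≤ s ^ 3974 := pow_le_pow_right₀ hs1 (by norm_num)
          calc 64 * (C2 * s ^ 2) * N0 * y ^ 3 ≤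
                64 * (C2 * s ^ 2) * (Cc * (2 * C1) * s ^ 2 * u ^ 320) * y ^ 3 := by gcongr
            _ = 64 * C2 * Cc * (2 * C1) * s ^ 3004 * u ^ 84 * u ^ 236 := by rw [hys]; ring
            _ ≤ 64 * C2 * Cc * (2 * C1) * s ^ 3004 * (2 * C1 * s ^ 10) ^ 84 * u ^ 236 := by gcongr
            _ = 64 * C2 * Cc * ((2 * C1) ^ 85 * s ^ 3844) * u ^ 236 := by ring
            _ ≤ 64 * C2 * Cc * ((2 * C1) ^ 198 * s ^ 3974) * u ^ 236 := by gcongr
            _ = _ := by ring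
        calc _ ≤ 72 * C2 * Cc * (2 * C1) ^ 198 * s ^ 3974 + 64 * C2 * Cc * (2 * C1) ^ 198 * s ^ 3974 :=
              add_le_add g1 g2
          _ = _ := by ring)
    refine h3.trans ?_
    calc C3 * Y ^ (1 / 1000 : ℝ) * (136 * C2 * Cc * (2 * C1) ^ 198 * s ^ 3974)
        ≤ C3 * (C1 * s) * (136 * C2 * Cc * (2 * C1) ^ 198 * s ^ 3974) :=
          mul_le_mul_of_nonneg_right (mul_le_mul_of_nonneg_left hYr hC30.le) (by positivity)
      _ = _ := by ring
  rw [hy399, hsplit]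
  have q1 : s ^ 3029 ≤ s ^ 3990 := pow_le_pow_right₀ hs1 (by norm_num)
  have q2 : s ^ 3975 ≤ s ^ 3990 := pow_le_pow_right₀ hs1 (by norm_num)
  calc _ ≤ 3 ^ 10 * C2 * s ^ 3029 + C3 * C1 * (136 * C2 * Cc * (2 * C1) ^ 198) * s ^ 3975 :=
        add_le_add hE0b hE1b
    _ ≤ 3 ^ 10 * C2 * s ^ 3990 + C3 * C1 * (136 * C2 * Cc * (2 * C1) ^ 198) * s ^ 3990 :=
        add_le_add (mul_le_mul_of_nonneg_left q1 (by positivity))
          (mul_le_mul_of_nonneg_left q2 (by positivity))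
    _ = _ := by ring

end Pool.Agent.PP5Z
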